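import Pool.Agent.W801.OS.Stm
import Pool.Agent.W801.OU.T_ISO
import Pool.Agent.H906R2.Arm.Box
import Pool.Agent.H906R2.Arm.Link

/-! # Comparison of the plane with the dislocated plane -/

set_option autoImplicit false

namespace Pool.Agent.W801.OS
open H974 H906.Cyl
open Pool.Agent.H160R2.ML (nm)
open Pool.Agent.W801.OU (RZ LZ Dg nrm zp Cor scz bxz SE3 uR)
open Pool.Agent.W801.OU.TISO (Ri edz_sum dco_edz edz_eq)

namespace TCMP

/-- the point of a vertex -/
def ch (v : Vtx) : ℤ × ℤ := (v.1 + v.2, v.1 - v.2)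

theorem ch_inj {u v : Vtx} (h : ch u = ch v) : u = v := by
  obtain ⟨a, b⟩ := u
  obtain ⟨c, d⟩ := v
  simp only [ch, Prod.mk.injEq] at h ⊢
  omega

theorem mem_Wc {R : ℤ} {F : Set Edg} {v : Vtx} : ch v ∈ Wc R F ↔ Reach (F ∩ bxz R) (0, 0) v := by
  constructor
  · rintro ⟨w, h, hw⟩
    have : v = w := ch_inj hw
    rw [this]; exact h
  · intro h
    exact ⟨v, h, rfl⟩

theorem Wc_ch {R : ℤ} {F : Set Edg} {p : ℤ × ℤ} (h : p ∈ Wc R F) :
    ∃ v, Reach (F ∩ bxz R) (0, 0) v ∧ p = ch v := h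

/-- the class 0 corners of the square of an edge -/
theorem corners (e : Edg) : (∃ i k : ℤ, (i = 0 ∨ i = 1) ∧ (k = 0 ∨ k = 1) ∧
    ch (src e) = (e.1 + e.2.1 + i, dco e + k) ∧
    ch (tgt e) = (e.1 + e.2.1 + (1 - i), dco e + (1 - k))) := by
  obtain ⟨x, y, b⟩ := e
  cases b
  · refine ⟨0, 1, Or.inl rfl, Or.inr rfl, ?_, ?_⟩ <;>
    simp only [ch, src_mk, tgt_false, dco, Bool.false_eq_true, if_false, Prod.mk.injEq] <;> omega
  · refine ⟨0, 0, Or.inl rfl, Or.inl rfl, ?_, ?_⟩ <;>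
    simp only [ch, src_mk, tgt_true, dco, if_true, Prod.mk.injEq] <;> omega

/-- an end of the edge of a square -/
theorem end_of {v : Vtx} {s d i k : ℤ} (hi : i = 0 ∨ i = 1) (hk : k = 0 ∨ k = 1)
    (h : ch v = (s + i, d + k)) : ∃ w : Vtx, ch w = (s + (1 - i), d + (1 - k)) ∧
      ((src (edz s d) = v ∧ tgt (edz s d) = w) ∨ (src (edz s d) = w ∧ tgt (edz s d) = v)) := by
  obtain ⟨x, y⟩ := v
  simp only [ch, Prod.mk.injEq] at h
  obtain ⟨h1, h2⟩ := h
  unfold edz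
  by_cases hp : (s + d) % 2 = 0
  · rw [if_pos hp]
    have hik : i = k := by omega
    subst hik
    rcases hi with rfl | rfl
    · refine ⟨(x + 1, y), ?_, Or.inl ⟨?_, ?_⟩⟩
      · simp only [ch, Prod.mk.injEq]; omega
      · simp only [src_mk, Prod.mk.injEq]; omega
      · simp only [tgt_true, Prod.mk.injEq]; omega
    · refine ⟨(x - 1, y), ?_, Or.inr ⟨?_, ?_⟩⟩
      · simp only [ch, Prod.mk.injEq]; omega
      · simp only [src_mk, Prod.mk.injEq]; omega
      · simp only [tgt_true, Prod.mk.injEq]; omega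
  · rw [if_neg hp]
    have hik : k = 1 - i := by omega
    subst hik
    rcases hi with rfl | rfl
    · refine ⟨(x, y + 1), ?_, Or.inl ⟨?_, ?_⟩⟩
      · simp only [ch, Prod.mk.injEq]; omega
      · simp only [src_mk, Prod.mk.injEq]; omega
      · simp only [tgt_false, Prod.mk.injEq]; omega
    · refine ⟨(x, y - 1), ?_, Or.inr ⟨?_, ?_⟩⟩
      · simp only [ch, Prod.mk.injEq]; omega
      · simp only [src_mk, Prod.mk.injEq]; omega
      · simp only [tgt_false, Prod.mk.injEq]; omega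

theorem nm_ch (v : Vtx) : |(ch v).1| + |(ch v).2| = 2 * nm v := by
  obtain ⟨x, y⟩ := v
  simp only [ch, nm]
  rcases abs_cases (x + y) with h1 | h1 <;> rcases abs_cases (x - y) with h2 | h2 <;>
    rcases abs_cases x with h3 | h3 <;> rcases abs_cases y with h4 | h4 <;>
    rcases le_total |x| |y| with h5 | h5 <;>
    simp only [max_eq_right h5, max_eq_left h5] <;> omega

theorem bxz_iff {R : ℕ} {e : Edg} : e ∈ bxz R ↔ e ∈ boxE R := by
  constructor
  · rintro ⟨h1, h2⟩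
    obtain ⟨x, y, _ | _⟩ := e
    · simp only [nm, src_mk, tgt_false, max_le_iff, abs_le] at h1 h2
      rw [boxE, mem_RE_false]
      omega
    · simp only [nm, src_mk, tgt_true, max_le_iff, abs_le] at h1 h2
      rw [boxE, mem_RE_true]
      omega
  · intro h
    obtain ⟨x, y, _ | _⟩ := e
    · rw [boxE, mem_RE_false] at h
      simp only [bxz, Set.mem_ofPred_eq, nm, src_mk, tgt_false, max_le_iff, abs_le]
      omega
    · rw [boxE, mem_RE_true] at h
      simp only [bxz, Set.mem_ofPred_eq, nm, src_mk, tgt_true, max_le_iff, abs_le]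
      omega

theorem bxz_bound {R : ℤ} {s d : ℤ} (h : edz s d ∈ bxz R) : |s| ≤ 2 * R ∧ |d| ≤ 2 * R + 1 := by
  obtain ⟨h1, h2⟩ := h
  unfold edz at h1 h2
  split_ifs at h1 h2
  · simp only [nm, src_mk, tgt_true, max_le_iff, abs_le] at h1 h2 ⊢
    omega
  · simp only [nm, src_mk, tgt_false, max_le_iff, abs_le] at h1 h2 ⊢
    omega

theorem bxz_of_bound {R : ℤ} {s d : ℤ} (h : |s| + |d| + 2 ≤ 2 * R) : edz s d ∈ bxz R := by
  unfold edz bxz
  rcases abs_cases s with h1 | h1 <;> rcases abs_cases d with h2 | h2 <;> split_ifs <;>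
    simp only [Set.mem_ofPred_eq, nm, src_mk, tgt_true, tgt_false, max_le_iff, abs_le] <;> omega

/-! ## the explored squares -/

/-- parity of a square -/
def par (e : Edg) : Prop := (e.1 + e.2.1 + dco e) % 2 = 0

/-- the data -/
structure Dt (R : ℕ) (F : Set Edg) (m : ℤ × ℤ → ℤ) : Prop where
  t3 : T3 R F
  ev : Evn (Wc R F)
  o : (0, 0) ∈ Wc R F
  g : Gau (Wc R F) m
  b : ∀ v ∈ Wc R F, |m v| ≤ R ∧ |kap m v| ≤ R

/-- `v` is a witness of the exploration of `e` -/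
def Wit (R : ℕ) (F : Set Edg) (v : ℤ × ℤ) (e : Edg) : Prop :=
  v ∈ Wc R F ∧ Cnr v (e.1 + e.2.1) (dco e) ∧ (dco e < 0 → v ≠ (0, 0))

/-- explored edges -/
def Ex (R : ℕ) (F : Set Edg) (e : Edg) : Prop := ∃ v, Wit R F v e

open Classical in
/-- the image of an explored edge -/
noncomputable def img (R : ℕ) (F : Set Edg) (m : ℤ × ℤ → ℤ) (e : Edg) : Edg :=
  if h : Ex R F e then
    edz (dsq m h.choose (e.1 + e.2.1) (dco e)).1 (dsq m h.choose (e.1 + e.2.1) (dco e)).2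
  else e

section
variable {R : ℕ} {F : Set Edg} {m : ℤ × ℤ → ℤ} (hD : S_DSQ) (D : Dt R F m)
include hD D

theorem img_eq {v : ℤ × ℤ} {e : Edg} (h : Wit R F v e) :
    img R F m e = edz (dsq m v (e.1 + e.2.1) (dco e)).1 (dsq m v (e.1 + e.2.1) (dco e)).2 := by
  obtain ⟨q1, -⟩ := hD _ m D.ev D.o D.g
  have hx : Ex R F e := ⟨v, h⟩
  unfold img
  rw [dif_pos hx]
  have h2 := hx.choose_spec
  rw [q1 _ v _ _ h2.1 h.1 h2.2.1 h.2.1 (fun hd => ⟨h2.2.2 hd, h.2.2 hd⟩)]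

theorem dsq_snd {v : ℤ × ℤ} {e : Edg} (h : Wit R F v e) :
    (dsq m v (e.1 + e.2.1) (dco e)).2 = dco e := by
  obtain ⟨-, -, -, -, q5, -⟩ := hD _ m D.ev D.o D.g
  exact (q5 v _ _ h.1 h.2.1 h.2.2).1

theorem img_inj {e e' : Edg} (h : Ex R F e) (h' : Ex R F e') (he : img R F m e = img R F m e') :
    e = e' := by
  obtain ⟨-, q2, -⟩ := hD _ m D.ev D.o D.g
  obtain ⟨v, hv⟩ := h
  obtain ⟨v', hv'⟩ := h'
  rw [img_eq hD D hv, img_eq hD D hv'] at he
  obtain ⟨h1, h2⟩ := edz_inj he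
  obtain ⟨h3, h4⟩ := q2 v v' _ _ _ _ hv.1 hv'.1 hv.2.1 hv'.2.1 hv.2.2 hv'.2.2 (Prod.ext h1 h2)
  rw [← edz_eq e, ← edz_eq e', h3, h4]

theorem img_mem {e : Edg} (hR : 20 ≤ R) (he : e ∈ boxE R) (h : Ex R F e) :
    img R F m e ∈ boxE (4 * R) := by
  obtain ⟨v, hv⟩ := h
  rw [img_eq hD D hv, ← bxz_iff]
  have h1 := D.b v hv.1
  have h2 := dsq_snd hD D hv
  have h3 : |(dsq m v (e.1 + e.2.1) (dco e)).1| ≤ |e.1 + e.2.1| + R + 1 := by
    unfold dsq unS
    split_ifs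
    · have := abs_sub (e.1 + e.2.1) (m v)
      simp only
      omega
    · have := abs_sub (e.1 + e.2.1) (kap m v)
      simp only
      omega
    · have := abs_sub (e.1 + e.2.1) (kap m v)
      have h5 := abs_add_le (e.1 + e.2.1 - kap m v) 1
      simp only [abs_one] at h5 ⊢
      omega
  have h4 : edz (e.1 + e.2.1) (dco e) ∈ bxz R := by rw [edz_eq, bxz_iff]; exact he
  have h5 := bxz_bound h4
  have h6 : (dsq m v (e.1 + e.2.1) (dco e)) =
    ((dsq m v (e.1 + e.2.1) (dco e)).1, dco e) := Prod.ext rfl h2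
  rw [h2]
  apply bxz_of_bound
  push_cast
  omega

end

/-- an open edge at a vertex of the cluster is explored, seen from this vertex -/
theorem wit_of {R : ℕ} {F : Set Edg} (hT : T3 R F) {e : Edg} (he : e ∈ F) {u w : Vtx}
    (hu : ch u ∈ Wc R F) (h : (src e = u ∧ tgt e = w) ∨ (src e = w ∧ tgt e = u)) :
    Wit R F (ch u) e := by
  obtain ⟨i, k, hi, hk, h1, h2⟩ := corners e
  refine ⟨hu, ?_, ?_⟩
  · unfold Cnr
    rcases h with ⟨h3, -⟩ | ⟨-, h3⟩
    · rw [← h3, h1]; simp only; omega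
    · rw [← h3, h2]; simp only; omega
  · intro hd h0
    have h5 : (e.1 + e.2.1 = 0 ∨ e.1 + e.2.1 = -1) ∧ dco e = -1 := by
      rcases h with ⟨h3, -⟩ | ⟨-, h3⟩
      · rw [← h3, h1] at h0
        simp only [Prod.mk.injEq] at h0
        omega
      · rw [← h3, h2] at h0
        simp only [Prod.mk.injEq] at h0
        omega
    obtain ⟨⟨k1, k2⟩, -⟩ := hT
    rcases h5 with ⟨h6 | h6, h7⟩
    · have : e = (0, 0, false) := by
        rw [← edz_eq e, h6, h7]; rfl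
      rw [this] at he
      exact k1 he
    · have : e = (-1, 0, true) := by
        rw [← edz_eq e, h6, h7]; rfl
      rw [this] at he
      exact k2 he

/-- steps of the cluster are allowed -/
theorem ok2_of {R : ℕ} {F : Set Edg} (hT : T3 R F) {e : Edg} (he : e ∈ F) {u w : Vtx}
    (hu : ch u ∈ Wc R F) (hw : ch w ∈ Wc R F)
    (h : (src e = u ∧ tgt e = w) ∨ (src e = w ∧ tgt e = u)) : Ok2 (ch u) (ch w) := by
  have h1 := wit_of hT he hu h
  have h2 := wit_of hT he hw (by tauto)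
  obtain ⟨i, k, hi, hk, h3, h4⟩ := corners e
  have h5 : ∃ i k : ℤ, (i = 0 ∨ i = 1) ∧ (k = 0 ∨ k = 1) ∧
      ch u = (e.1 + e.2.1 + i, dco e + k) ∧ ch w = (e.1 + e.2.1 + (1 - i), dco e + (1 - k)) := by
    rcases h with ⟨h, h'⟩ | ⟨h, h'⟩
    · exact ⟨i, k, hi, hk, by rw [← h, h3], by rw [← h', h4]⟩
    · exact ⟨1 - i, 1 - k, by omega, by omega, by rw [← h', h4],
        by rw [← h, h3]; simp only [Prod.mk.injEq]; omega⟩
  obtain ⟨i, k, hi, hk, h5, h6⟩ := h5
  refine ⟨?_, ?_, ?_⟩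
  · unfold Adj
    rw [h5, h6]
    simp only
    omega
  · rintro ⟨h7, h8⟩
    refine h1.2.2 ?_ h7
    rw [h5] at h7
    rw [h6] at h8
    simp only [Prod.mk.injEq] at h7 h8
    omega
  · rintro ⟨h7, h8⟩
    refine h2.2.2 ?_ h7
    rw [h6] at h7
    rw [h5] at h8
    simp only [Prod.mk.injEq] at h7 h8
    omega

/-! ## the map of configurations -/

open Classical in
/-- the configuration of the dislocated plane -/
noncomputable def Gf (R : ℕ) (F : Finset Edg) (m : ℤ × ℤ → ℤ) (H : Finset Edg) : Finset Edg :=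
  (boxE (4 * R)).filter (fun e' => (∃ e ∈ boxE R, Ex R F e ∧ img R F m e = e' ∧
      ((e ∈ F ↔ par e) ↔ par e')) ∨
    ((¬ ∃ e ∈ boxE R, Ex R F e ∧ img R F m e = e') ∧ e' ∈ H))

open Classical in
/-- the rest of the randomness -/
noncomputable def Kf (R : ℕ) (F : Finset Edg) (m : ℤ × ℤ → ℤ) (H : Finset Edg) : Finset Edg :=
  (boxE R).filter (fun e => if Ex R F e then img R F m e ∈ H else e ∈ F)

theorem mem_Gf (hD : S_DSQ) {R : ℕ} {F H : Finset Edg} {m : ℤ × ℤ → ℤ} (D : Dt R F m) (hR : 20 ≤ R)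
    {e : Edg} (he : e ∈ boxE R) (h : Ex R F e) :
    img R F m e ∈ Gf R F m H ↔ ((e ∈ F ↔ par e) ↔ par (img R F m e)) := by
  classical
  unfold Gf
  rw [Finset.mem_filter]
  constructor
  · rintro ⟨-, ⟨e2, he2, h2, h3, h4⟩ | ⟨h2, -⟩⟩
    · have := img_inj hD D h2 h h3
      subst this
      exact h4
    · exact absurd ⟨e, he, h, rfl⟩ h2
  · intro h2
    exact ⟨img_mem hD D hR he h, Or.inl ⟨e, he, h, rfl, h2⟩⟩

theorem pp {a b p q : Prop} (h : ((a ↔ p) ↔ q) ↔ ((b ↔ p) ↔ q)) : a ↔ b := by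
  by_cases ha : a <;> by_cases hb : b <;> by_cases hp : p <;> by_cases hq : q <;>
    simp [ha, hb, hp, hq] at h ⊢

/-- propagation: two configurations with the same image have the same cluster and gauge -/
theorem prop (hD : S_DSQ) {R : ℕ} {F H F' H' : Finset Edg} {m m' : ℤ × ℤ → ℤ} (D : Dt R F m)
    (D' : Dt R F' m') (hR : 20 ≤ R) (hG : Gf R F m H = Gf R F' m' H') {v : Vtx}
    (h : Reach (↑F ∩ bxz R) (0, 0) v) : ch v ∈ Wc R F' ∧ m (ch v) = m' (ch v) := by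
  induction h with
  | refl => exact ⟨D'.o, by
      show m (0, 0) = m' (0, 0)
      rw [D.g.zero, D'.g.zero]⟩
  | @tail u w h1 h2 ih =>
    obtain ⟨ih1, ih2⟩ := ih
    obtain ⟨e, ⟨heF, heB⟩, hst⟩ := h2
    have heF' : e ∈ F := heF
    have heB' : e ∈ boxE R := bxz_iff.1 heB
    have huW : ch u ∈ Wc R F := mem_Wc.2 h1
    have w1 := wit_of D.t3 heF huW hst
    have w2 : Wit R F' (ch u) e := ⟨ih1, w1.2⟩
    have x1 : Ex R F e := ⟨_, w1⟩
    have x2 : Ex R F' e := ⟨_, w2⟩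
    have hk : kap m (ch u) = kap m' (ch u) := by unfold kap; rw [ih2]
    have hd : dsq m (ch u) (e.1 + e.2.1) (dco e) = dsq m' (ch u) (e.1 + e.2.1) (dco e) := by
      unfold dsq; rw [ih2, hk]
    have hi : img R F m e = img R F' m' e := by
      rw [img_eq hD D w1, img_eq hD D' w2, hd]
    have k1 := mem_Gf hD (H := H) D hR heB' x1
    have k2 := mem_Gf hD (H := H') D' hR heB' x2
    rw [hG, hi] at k1
    have heF2 : e ∈ F' := (pp (k1.symm.trans k2)).1 heF'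
    have hw : Reach (↑F ∩ bxz R) (0, 0) w := h1.tail ⟨e, ⟨heF, heB⟩, hst⟩
    have hw' : Reach (↑F' ∩ bxz R) (0, 0) w := (mem_Wc.1 ih1).tail ⟨e, ⟨heF2, heB⟩, hst⟩
    refine ⟨mem_Wc.2 hw', ?_⟩
    rw [D.g.step _ _ huW (mem_Wc.2 hw) (ok2_of D.t3 heF huW (mem_Wc.2 hw) hst),
      D'.g.step _ _ ih1 (mem_Wc.2 hw') (ok2_of D'.t3 heF2 ih1 (mem_Wc.2 hw') hst), ih2]

/-- **injectivity** -/
theorem inj (hD : S_DSQ) {R : ℕ} {F H F' H' : Finset Edg} {m m' : ℤ × ℤ → ℤ} (D : Dt R F m)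
    (D' : Dt R F' m') (hR : 20 ≤ R) (hF : F ⊆ boxE R) (hF' : F' ⊆ boxE R) (hH : H ⊆ boxE (4 * R))
    (hH' : H' ⊆ boxE (4 * R)) (hG : Gf R F m H = Gf R F' m' H')
    (hK : Kf R F m H = Kf R F' m' H') : F = F' ∧ H = H' := by
  classical
  have hW : Wc R (↑F : Set Edg) = Wc R (↑F' : Set Edg) := by
    ext p
    constructor
    · intro hp
      obtain ⟨v, hv, rfl⟩ := Wc_ch hp
      exact (prop hD D D' hR hG hv).1
    · intro hp
      obtain ⟨v, hv, rfl⟩ := Wc_ch hp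
      exact (prop hD D' D hR hG.symm hv).1
  have hm : ∀ p ∈ Wc R (↑F : Set Edg), m p = m' p := by
    intro p hp
    obtain ⟨v, hv, rfl⟩ := Wc_ch hp
    exact (prop hD D D' hR hG hv).2
  have hwit : ∀ (v : ℤ × ℤ) (e : Edg), Wit R F v e ↔ Wit R F' v e := by
    intro v e
    unfold Wit
    rw [hW]
  have hex : ∀ e : Edg, Ex R F e ↔ Ex R F' e := by
    intro e
    unfold Ex
    simp only [hwit]
  have himg : ∀ e : Edg, Ex R F e → img R F m e = img R F' m' e := by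
    rintro e ⟨v, hv⟩
    have hv' := (hwit v e).1 hv
    rw [img_eq hD D hv, img_eq hD D' hv']
    have h1 := hm v hv.1
    have h2 : kap m v = kap m' v := by unfold kap; rw [h1]
    unfold dsq
    rw [h1, h2]
  have hFF : ∀ e ∈ boxE R, (e ∈ F ↔ e ∈ F') := by
    intro e he
    by_cases hx : Ex R F e
    · have hx' := (hex e).1 hx
      have k1 := mem_Gf hD (H := H) D hR he hx
      have k2 := mem_Gf hD (H := H') D' hR he hx'
      rw [hG, himg e hx] at k1
      exact pp (k1.symm.trans k2)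
    · have hx' : ¬ Ex R F' e := fun h => hx ((hex e).2 h)
      have h1 : e ∈ Kf R F m H ↔ e ∈ Kf R F' m' H' := by rw [hK]
      unfold Kf at h1
      rw [Finset.mem_filter, Finset.mem_filter, if_neg hx, if_neg hx'] at h1
      exact ⟨fun h => (h1.1 ⟨he, h⟩).2, fun h => (h1.2 ⟨he, h⟩).2⟩
  have hHH : ∀ e' ∈ boxE (4 * R), (e' ∈ H ↔ e' ∈ H') := by
    intro e' he'
    by_cases hx : ∃ e ∈ boxE R, Ex R F e ∧ img R F m e = e'
    · obtain ⟨e, he, hx, rfl⟩ := hx
      have hx' := (hex e).1 hx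
      have h1 : e ∈ Kf R F m H ↔ e ∈ Kf R F' m' H' := by rw [hK]
      unfold Kf at h1
      rw [Finset.mem_filter, Finset.mem_filter, if_pos hx, if_pos hx', ← himg e hx] at h1
      exact ⟨fun h => (h1.1 ⟨he, h⟩).2, fun h => (h1.2 ⟨he, h⟩).2⟩
    · have hx' : ¬ ∃ e ∈ boxE R, Ex R F' e ∧ img R F' m' e = e' := by
        rintro ⟨e, he, h1, h2⟩
        exact hx ⟨e, he, (hex e).2 h1, by rw [himg e ((hex e).2 h1)]; exact h2⟩
      have h1 : e' ∈ Gf R F m H ↔ e' ∈ Gf R F' m' H' := by rw [hG]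
      unfold Gf at h1
      rw [Finset.mem_filter, Finset.mem_filter] at h1
      have h2 : ¬ ∃ e ∈ boxE R, Ex R F e ∧ img R F m e = e' ∧ ((e ∈ F ↔ par e) ↔ par e') := by
        rintro ⟨e, he, h3, h4, -⟩
        exact hx ⟨e, he, h3, h4⟩
      have h3 : ¬ ∃ e ∈ boxE R, Ex R F' e ∧ img R F' m' e = e' ∧ ((e ∈ F' ↔ par e) ↔ par e') := by
        rintro ⟨e, he, h3, h4, -⟩
        exact hx' ⟨e, he, h3, h4⟩
      constructor
      · intro h
        rcases (h1.1 ⟨he', Or.inr ⟨hx, h⟩⟩).2 with h4 | h4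
        · exact absurd h4 h3
        · exact h4.2
      · intro h
        rcases (h1.2 ⟨he', Or.inr ⟨hx', h⟩⟩).2 with h4 | h4
        · exact absurd h4 h2
        · exact h4.2
  constructor
  · ext e
    constructor
    · intro h; exact (hFF e (hF h)).1 h
    · intro h; exact (hFF e (hF' h)).2 h
  · ext e
    constructor
    · intro h; exact (hHH e (hH h)).1 h
    · intro h; exact (hHH e (hH' h)).2 h

/-! ## the event in the dislocated plane -/

theorem mem_zp {e : Edg} : e ∈ zp ({0} : Set ℤ) ↔ dco e < 0 ∧ e.1 + e.2.1 + 1 = 0 := Iff.rfl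

/-- the link of a square through two opposite corners -/
theorem lz_iff {B G : Set Edg} {x y : ℤ × ℤ} : LZ ({0} : Set ℤ) B G x y ↔ ∃ (s d i k : ℤ),
    i = 0 ∧ (k = 0 ∨ k = 1) ∧ edz s d ∈ B ∧ ¬ (d < 0 ∧ s + 1 = 0) ∧
    (edz s d ∈ G ↔ ((s + d) % 2 = 0 ↔ i = k)) ∧
    x = nrm {0} d (s + i) (d + k) ∧ y = nrm {0} d (s + (1 - i)) (d + (1 - k)) := by
  constructor
  · rintro ⟨e, hB, hz, h⟩
    rw [mem_zp] at hz
    rcases h with ⟨hG, h⟩ | ⟨hG, h⟩
    · rcases h with h | h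
      · refine ⟨e.1 + e.2.1, dco e, 0, 0, rfl, Or.inl rfl, by rw [edz_eq]; exact hB, hz, ?_, ?_, ?_⟩
        · rw [edz_eq]; simp [hG, h]
        · simp
        · simp
      · refine ⟨e.1 + e.2.1, dco e, 0, 1, rfl, Or.inr rfl, by rw [edz_eq]; exact hB, hz, ?_, ?_, ?_⟩
        · rw [edz_eq]; simp [hG, h]
        · simp
        · simp
    · rcases h with h | h
      · refine ⟨e.1 + e.2.1, dco e, 0, 0, rfl, Or.inl rfl, by rw [edz_eq]; exact hB, hz, ?_, ?_, ?_⟩
        · rw [edz_eq]; simp [hG, h]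
        · simp
        · simp
      · refine ⟨e.1 + e.2.1, dco e, 0, 1, rfl, Or.inr rfl, by rw [edz_eq]; exact hB, hz, ?_, ?_, ?_⟩
        · rw [edz_eq]; simp [hG, h]
        · simp
        · simp
  · rintro ⟨s, d, i, k, rfl, hk, hB, hz, hG, rfl, rfl⟩
    refine ⟨edz s d, hB, ?_, ?_⟩
    · rw [mem_zp, edz_sum, dco_edz]; exact hz
    · have hm := Int.emod_two_eq_zero_or_one (s + d)
      by_cases h : edz s d ∈ G
      · left
        refine ⟨h, ?_⟩
        have h2 := hG.1 h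
        rcases hk with rfl | rfl
        · have h3 : (s + d) % 2 = 0 := h2.2 rfl
          have := Dg.rise (Z := ({0} : Set ℤ)) (c := 0) (e := edz s d)
            (by rw [edz_sum, dco_edz]; exact h3)
          rw [edz_sum, dco_edz] at this
          simpa using this
        · have h3 : ¬ (s + d) % 2 = 0 := fun h4 => by have := h2.1 h4; omega
          have := Dg.fall (Z := ({0} : Set ℤ)) (c := 0) (e := edz s d)
            (by rw [edz_sum, dco_edz]; omega)
          rw [edz_sum, dco_edz] at this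
          simpa using this
      · right
        refine ⟨h, ?_⟩
        have h2 : ¬ ((s + d) % 2 = 0 ↔ (0 : ℤ) = k) := fun h4 => h (hG.2 h4)
        rcases hk with rfl | rfl
        · have h3 : ¬ (s + d) % 2 = 0 := fun h4 => h2 ⟨fun _ => rfl, fun _ => h4⟩
          have := Dg.rise (Z := ({0} : Set ℤ)) (c := 1) (e := edz s d)
            (by rw [edz_sum, dco_edz]; omega)
          rw [edz_sum, dco_edz] at this
          simpa using this
        · have h3 : (s + d) % 2 = 0 := by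
            by_contra h4
            exact h2 ⟨fun h5 => absurd h5 h4, fun h5 => by omega⟩
          have := Dg.fall (Z := ({0} : Set ℤ)) (c := 1) (e := edz s d)
            (by rw [edz_sum, dco_edz]; omega)
          rw [edz_sum, dco_edz] at this
          simpa using this

/-- a corner of a square is an end of one of its diagonals -/
theorem cor_of {e : Edg} (hz : e ∉ zp ({0} : Set ℤ)) {i k : ℤ} (hi : i = 0 ∨ i = 1)
    (hk : k = 0 ∨ k = 1) :
    Cor {0} 0 e (nrm {0} (dco e) (e.1 + e.2.1 + i) (dco e + k)) ∨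
      Cor {0} 1 e (nrm {0} (dco e) (e.1 + e.2.1 + i) (dco e + k)) := by
  have hm := Int.emod_two_eq_zero_or_one (e.1 + e.2.1 + dco e)
  have r0 : (e.1 + e.2.1 + dco e) % 2 = 0 → Dg ({0} : Set ℤ) 0 e
    (nrm {0} (dco e) (e.1 + e.2.1) (dco e)) (nrm {0} (dco e) (e.1 + e.2.1 + 1) (dco e + 1)) :=
      fun h => Dg.rise h
  have r1 : (e.1 + e.2.1 + dco e) % 2 = 1 → Dg ({0} : Set ℤ) 1 e
    (nrm {0} (dco e) (e.1 + e.2.1) (dco e)) (nrm {0} (dco e) (e.1 + e.2.1 + 1) (dco e + 1)) :=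
      fun h => Dg.rise h
  have f0 : (e.1 + e.2.1 + dco e) % 2 = 1 → Dg ({0} : Set ℤ) 0 e
    (nrm {0} (dco e) (e.1 + e.2.1) (dco e + 1)) (nrm {0} (dco e) (e.1 + e.2.1 + 1) (dco e)) :=
      fun h => Dg.fall (by omega)
  have f1 : (e.1 + e.2.1 + dco e) % 2 = 0 → Dg ({0} : Set ℤ) 1 e
    (nrm {0} (dco e) (e.1 + e.2.1) (dco e + 1)) (nrm {0} (dco e) (e.1 + e.2.1 + 1) (dco e)) :=
      fun h => Dg.fall (by omega)
  rcases hi with rfl | rfl <;> rcases hk with rfl | rfl <;> rcases hm with h | h <;>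
    (try simp only [add_zero])
  · exact Or.inl ⟨hz, _, Or.inl (r0 h)⟩
  · exact Or.inr ⟨hz, _, Or.inl (r1 h)⟩
  · exact Or.inr ⟨hz, _, Or.inl (f1 h)⟩
  · exact Or.inl ⟨hz, _, Or.inl (f0 h)⟩
  · exact Or.inr ⟨hz, _, Or.inr (f1 h)⟩
  · exact Or.inl ⟨hz, _, Or.inr (f0 h)⟩
  · exact Or.inl ⟨hz, _, Or.inr (r0 h)⟩
  · exact Or.inr ⟨hz, _, Or.inr (r1 h)⟩

theorem nrm_snd' (d j t : ℤ) : (nrm ({0} : Set ℤ) d j t).2 = t := by
  unfold nrm; split_ifs <;> rfl

theorem nrm_fst' (d j t : ℤ) : |(nrm ({0} : Set ℤ) d j t).1| ≤ |j| + 1 := by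
  unfold nrm
  split_ifs
  · simp only
    rcases abs_cases j with h | h <;> rcases abs_cases (j - 1) with h2 | h2 <;> omega
  · simp only
    omega

theorem nm_le {R : ℕ} {F : Set Edg} {v : Vtx} (h : Reach (F ∩ bxz R) (0, 0) v) : nm v ≤ R := by
  induction h with
  | refl => simp [nm]
  | tail _ h2 _ =>
    obtain ⟨e, ⟨-, h3, h4⟩, h5⟩ := h2
    rcases h5 with ⟨-, rfl⟩ | ⟨rfl, -⟩
    · exact h4
    · exact h3

/-- a vertex of the cluster whose image is near the tip is inside the box -/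
theorem near {R : ℕ} {F : Set Edg} {m : ℤ × ℤ → ℤ} (D : Dt R F m) (hR : 20 ≤ R) {v : Vtx}
    (hv : ch v ∈ Wc R F) {s' d i k : ℤ} (hi : i = 0 ∨ i = 1) (hk : k = 0 ∨ k = 1)
    (hB : edz s' d ∈ bxz (R / 20 : ℕ)) (h : nrm {0} d (s' + i) (d + k) = Phi m (ch v)) :
    nm v < R := by
  have h1 := bxz_bound hB
  have h2 := D.b _ hv
  have h3 := nm_ch v
  have h4 := nm_le (mem_Wc.1 hv)
  have h5 : (Phi m (ch v)).2 = d + k := by rw [← h, nrm_snd']
  have h6 : |(Phi m (ch v)).1| ≤ |s' + i| + 1 := by rw [← h]; exact nrm_fst' _ _ _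
  have h7 : (Phi m (ch v)).2 = (ch v).2 := by unfold Phi; split_ifs <;> rfl
  have h8 : |(ch v).1| ≤ |(Phi m (ch v)).1| + |m (ch v)| + 1 := by
    unfold Phi unK
    split_ifs
    · simp only
      have := abs_add_le ((ch v).1 - m (ch v)) (m (ch v))
      rw [sub_add_cancel] at this
      omega
    · simp only
      have := abs_add_le ((ch v).1 - m (ch v)) (m (ch v))
      rw [sub_add_cancel] at this
      omega
    · simp only
      have := abs_add_le ((ch v).1 - m (ch v) + 1) (m (ch v) - 1)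
      have h9 := abs_sub (m (ch v)) 1
      rw [show (ch v).1 - m (ch v) + 1 + (m (ch v) - 1) = (ch v).1 by ring] at this
      simp only [abs_one] at h9
      omega
  have h9 : |s' + i| ≤ |s'| + 1 := by
    rcases hi with rfl | rfl
    · simp
    · have := abs_add_le s' 1
      simpa using this
  have h10 : |d + k| ≤ |d| + 1 := by
    rcases hk with rfl | rfl
    · simp
    · have := abs_add_le d 1
      simpa using this
  rw [h7] at h5
  rw [h5] at h3
  have h11 : ((R / 20 : ℕ) : ℤ) * 20 ≤ R := by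
    have := Nat.div_mul_le_self R 20
    exact_mod_cast this
  omega

theorem pq {a p q : Prop} (h : (q ↔ p) ↔ ((a ↔ p) ↔ q)) : a := by
  by_cases ha : a <;> by_cases hp : p <;> by_cases hq : q <;> simp [ha, hp, hq] at h ⊢

theorem nbr {R : ℕ} {v w : Vtx} (hn : nm v < R) {s d i k : ℤ} (hi : i = 0 ∨ i = 1)
    (hk : k = 0 ∨ k = 1) (h1 : ch v = (s + i, d + k)) (hw : ch w = (s + (1 - i), d + (1 - k)))
    (hst : (src (edz s d) = v ∧ tgt (edz s d) = w) ∨ (src (edz s d) = w ∧ tgt (edz s d) = v)) :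
    edz s d ∈ bxz R := by
  have hw2 : nm w ≤ R := by
    have a1 := nm_ch v
    have a2 := nm_ch w
    rw [hw] at a2
    rw [h1] at a1
    simp only at a1 a2
    have a3 : |s + (1 - i)| ≤ |s + i| + 1 := by
      rcases hi with rfl | rfl
      · have := abs_add_le s 1
        simpa using this
      · have := abs_add_le (s + 1) (-1)
        simpa using this
    have a4 : |d + (1 - k)| ≤ |d + k| + 1 := by
      rcases hk with rfl | rfl
      · have := abs_add_le d 1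
        simpa using this
      · have := abs_add_le (d + 1) (-1)
        simpa using this
    omega
  rcases hst with ⟨a, b⟩ | ⟨a, b⟩
  · exact ⟨by rw [a]; omega, by rw [b]; exact hw2⟩
  · exact ⟨by rw [a]; exact hw2, by rw [b]; omega⟩

/-- links of the small box at images of vertices -/
theorem tr (hD : S_DSQ) {R : ℕ} {F H : Finset Edg} {m : ℤ × ℤ → ℤ} (D : Dt R F m) (hR : 20 ≤ R)
    {v : Vtx} (hv : ch v ∈ Wc R F) {s' d i k : ℤ} (hi : i = 0 ∨ i = 1) (hk : k = 0 ∨ k = 1)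
    (hB : edz s' d ∈ bxz (R / 20 : ℕ)) (hz : ¬ (d < 0 ∧ s' + 1 = 0))
    (hG : edz s' d ∈ Gf R F m H ↔ ((s' + d) % 2 = 0 ↔ i = k))
    (h : nrm {0} d (s' + i) (d + k) = Phi m (ch v)) :
    ∃ w : Vtx, ch w ∈ Wc R F ∧ nrm {0} d (s' + (1 - i)) (d + (1 - k)) = Phi m (ch w) := by
  obtain ⟨q1, q2, q3, q4, q5, q6⟩ := hD _ m D.ev D.o D.g
  obtain ⟨s, h1, h2, h3, h4⟩ := q6 (ch v) s' d i k hv hi hk hz h
  have hn := near D hR hv hi hk hB h
  obtain ⟨w, hw, hst⟩ := end_of (v := v) (s := s) (d := d) hi hk (Prod.ext h1 h2)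
  have hW : Wit R F (ch v) (edz s d) := by
    refine ⟨hv, ?_, ?_⟩
    · rw [edz_sum, dco_edz]; unfold Cnr; omega
    · rw [dco_edz]; exact h3
  have hbox : edz s d ∈ bxz R := nbr hn hi hk (Prod.ext h1 h2) hw hst
  have hx : Ex R F (edz s d) := ⟨_, hW⟩
  have himg : img R F m (edz s d) = edz s' d := by
    rw [img_eq hD D hW, edz_sum, dco_edz, h4]
  have hm := mem_Gf hD (H := H) D hR (bxz_iff.1 hbox) hx
  rw [himg, hG] at hm
  have hpar1 : par (edz s d) ↔ (s + d) % 2 = 0 := by unfold par; rw [edz_sum, dco_edz]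
  have hpar2 : par (edz s' d) ↔ (s' + d) % 2 = 0 := by unfold par; rw [edz_sum, dco_edz]
  rw [hpar1, hpar2] at hm
  have hev := D.ev _ hv
  rw [h1, h2] at hev
  have hik : (s + d) % 2 = 0 ↔ i = k := by omega
  have heF : edz s d ∈ F := by
    rw [hik] at hm
    exact pq hm
  have hwW : ch w ∈ Wc R F := mem_Wc.2 ((mem_Wc.1 hv).tail ⟨edz s d, ⟨heF, hbox⟩, hst⟩)
  refine ⟨w, hwW, ?_⟩
  have hW2 := wit_of D.t3 (u := w) (w := v) heF hwW hst.symm
  have hc := hW2.2.1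
  have hne := hW2.2.2
  rw [edz_sum, dco_edz] at hc
  rw [dco_edz] at hne
  have h5 := (q5 (ch w) s d hwW hc hne).2.2
  have h6 : dsq m (ch w) s d = (s', d) := by
    rw [← h4]
    refine q1 _ _ _ _ hwW hv hc ?_ (fun hd => ⟨hne hd, h3 hd⟩)
    unfold Cnr; omega
  rw [h6] at h5
  rw [← h5, hw]
  simp only
  congr 1
  ring

/-- the cluster of the middle sector in the small box consists of images -/
theorem cl (hD : S_DSQ) {R : ℕ} {F H : Finset Edg} {m : ℤ × ℤ → ℤ} (D : Dt R F m) (hR : 20 ≤ R)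
    {x : ℤ × ℤ} (h : RZ {0} (bxz (R / 20 : ℕ)) (↑(Gf R F m H)) (0, 0) x) :
    ∃ v : Vtx, ch v ∈ Wc R F ∧ x = Phi m (ch v) := by
  have key : ∀ {x y : ℤ × ℤ}, RZ {0} (bxz (R / 20 : ℕ)) (↑(Gf R F m H)) x y →
      ((∃ v : Vtx, ch v ∈ Wc R F ∧ x = Phi m (ch v)) ↔
        ∃ v : Vtx, ch v ∈ Wc R F ∧ y = Phi m (ch v)) := by
    intro x y h
    induction h with
    | rel x y h =>
      rw [lz_iff] at h
      obtain ⟨s, d, i, k, hi, hk, hB, hz, hG, hx, hy⟩ := h
      have hG' : edz s d ∈ Gf R F m H ↔ ((s + d) % 2 = 0 ↔ i = k) := hG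
      constructor
      · rintro ⟨v, hv, h1⟩
        obtain ⟨w, hw, h2⟩ := tr hD D hR hv (Or.inl hi) hk hB hz hG' (by rw [← hx, h1])
        exact ⟨w, hw, by rw [hy, h2]⟩
      · rintro ⟨v, hv, h1⟩
        have hG2 : edz s d ∈ Gf R F m H ↔ ((s + d) % 2 = 0 ↔ 1 - i = 1 - k) := by
          rw [hG']
          have : (i = k) ↔ (1 - i = 1 - k) := by omega
          rw [this]
        obtain ⟨w, hw, h2⟩ := tr hD D hR hv (i := 1 - i) (k := 1 - k) (by omega) (by omega) hB hz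
          hG2 (by rw [← hy, h1])
        refine ⟨w, hw, ?_⟩
        rw [hx, ← h2]
        congr 1 <;> ring
    | refl x => exact Iff.rfl
    | symm x y _ ih => exact ih.symm
    | trans x y z _ _ ih1 ih2 => exact ih1.trans ih2
  refine (key h).1 ⟨(0, 0), D.o, ?_⟩
  have : ch (0, 0) = (0, 0) := rfl
  rw [this]
  unfold Phi
  simp [D.g.zero]

/-- the first exit of the small box -/
theorem far (hD : S_DSQ) {R : ℕ} {F H : Finset Edg} {m : ℤ × ℤ → ℤ} (D : Dt R F m) (hR : 20 ≤ R)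
    {v : Vtx} (h : Reach (↑F ∩ bxz R) (0, 0) v) :
    (∃ x : ℤ × ℤ, RZ {0} (bxz (R / 20 : ℕ)) (↑(Gf R F m H)) (0, 0) x ∧
      ∃ e ∉ bxz (R / 20 : ℕ), Cor {0} 0 e x ∨ Cor {0} 1 e x) ∨
    (RZ {0} (bxz (R / 20 : ℕ)) (↑(Gf R F m H)) (0, 0) (Phi m (ch v)) ∧
      (v = (0, 0) ∨ ∃ s' d i k : ℤ, (i = 0 ∨ i = 1) ∧ (k = 0 ∨ k = 1) ∧
        edz s' d ∈ bxz (R / 20 : ℕ) ∧ nrm {0} d (s' + i) (d + k) = Phi m (ch v))) := by
  obtain ⟨q1, q2, q3, q4, q5, q6⟩ := hD _ m D.ev D.o D.g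
  induction h with
  | refl =>
    right
    refine ⟨?_, Or.inl rfl⟩
    have h1 : Phi m (ch (0, 0)) = (0, 0) := by
      show Phi m (0, 0) = (0, 0)
      unfold Phi
      simp [D.g.zero]
    rw [h1]
    exact Relation.EqvGen.refl _
  | @tail u w h1 h2 ih =>
    rcases ih with ih | ⟨ih, -⟩
    · exact Or.inl ih
    obtain ⟨e, ⟨heF, heB⟩, hst⟩ := h2
    have heF' : e ∈ F := heF
    have huW : ch u ∈ Wc R F := mem_Wc.2 h1
    have hwW : ch w ∈ Wc R F := mem_Wc.2 (h1.tail ⟨e, ⟨heF, heB⟩, hst⟩)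
    have w1 := wit_of D.t3 heF' huW hst
    have w2 := wit_of D.t3 (u := w) (w := u) heF' hwW hst.symm
    obtain ⟨i, k, hi, hk, hu, hw⟩ : ∃ i k : ℤ, (i = 0 ∨ i = 1) ∧ (k = 0 ∨ k = 1) ∧
        ch u = (e.1 + e.2.1 + i, dco e + k) ∧ ch w = (e.1 + e.2.1 + (1 - i), dco e + (1 - k)) := by
      obtain ⟨i, k, hi, hk, h3, h4⟩ := corners e
      rcases hst with ⟨h, h'⟩ | ⟨h, h'⟩
      · exact ⟨i, k, hi, hk, by rw [← h, h3], by rw [← h', h4]⟩
      · exact ⟨1 - i, 1 - k, by omega, by omega, by rw [← h', h4],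
          by rw [← h, h3]; simp only [Prod.mk.injEq]; omega⟩
    obtain ⟨s', hs'⟩ : ∃ s', s' = (dsq m (ch u) (e.1 + e.2.1) (dco e)).1 := ⟨_, rfl⟩
    have e1 : dsq m (ch u) (e.1 + e.2.1) (dco e) = (s', dco e) :=
      Prod.ext hs'.symm (dsq_snd hD D w1)
    have e2 : dsq m (ch w) (e.1 + e.2.1) (dco e) = (s', dco e) := by
      rw [← e1]
      exact q1 _ _ _ _ hwW huW w2.2.1 w1.2.1 (fun hd => ⟨w2.2.2 hd, w1.2.2 hd⟩)
    have p1 := q5 (ch u) _ _ huW w1.2.1 w1.2.2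
    have p2 := (q5 (ch w) _ _ hwW w2.2.1 w2.2.2).2.2
    rw [e1] at p1
    rw [e2] at p2
    obtain ⟨-, hz, p1⟩ := p1
    rw [hu] at p1
    rw [hw] at p2
    simp only at p1 p2 hz
    have e3 : s' + (e.1 + e.2.1 + i - (e.1 + e.2.1)) = s' + i := by ring
    have e4 : s' + (e.1 + e.2.1 + (1 - i) - (e.1 + e.2.1)) = s' + (1 - i) := by ring
    rw [e3, ← hu] at p1
    rw [e4, ← hw] at p2
    have himg : img R F m e = edz s' (dco e) := by rw [img_eq hD D w1, e1]
    have hm := mem_Gf hD (H := H) D hR (bxz_iff.1 heB) ⟨_, w1⟩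
    rw [himg] at hm
    have hpar1 : par e ↔ i = k := by
      have := D.ev _ huW
      rw [hu] at this
      unfold par
      simp only at this
      omega
    have hpar2 : par (edz s' (dco e)) ↔ (s' + dco e) % 2 = 0 := by
      unfold par; rw [edz_sum, dco_edz]
    rw [hpar1, hpar2] at hm
    have hm2 : edz s' (dco e) ∈ Gf R F m H ↔ ((s' + dco e) % 2 = 0 ↔ i = k) := by
      rw [hm]
      constructor
      · intro h; exact ⟨fun h5 => (h.2 h5).1 heF', fun h5 => h.1 ⟨fun _ => h5, fun _ => heF'⟩⟩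
      · intro h; exact ⟨fun h5 => h.2 (h5.1 heF'), fun h5 => ⟨fun _ => h.1 h5, fun _ => heF'⟩⟩
    by_cases hB : edz s' (dco e) ∈ bxz (R / 20 : ℕ)
    · right
      refine ⟨ih.trans _ _ _ ?_, Or.inr ⟨s', dco e, 1 - i, 1 - k, by omega, by omega, hB, p2⟩⟩
      rcases hi with rfl | rfl
      · refine Relation.EqvGen.rel _ _ (lz_iff.2 ⟨s', dco e, 0, k, rfl, hk, hB, hz, hm2, p1.symm,
          p2.symm⟩)
      · refine Relation.EqvGen.symm _ _ (Relation.EqvGen.rel _ _ (lz_iff.2 ⟨s', dco e, 0, 1 - k,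
          rfl, by omega, hB, hz, ?_, ?_, ?_⟩))
        · show edz s' (dco e) ∈ Gf R F m H ↔ _
          rw [hm2]
          have : ((1 : ℤ) = k) ↔ (0 = 1 - k) := by omega
          rw [this]
        · rw [← p2]; ring_nf
        · rw [← p1]; ring_nf
    · left
      refine ⟨_, ih, edz s' (dco e), hB, ?_⟩
      have hz' : edz s' (dco e) ∉ zp ({0} : Set ℤ) := by
        rw [mem_zp, edz_sum, dco_edz]; exact hz
      have := cor_of hz' hi hk
      rw [edz_sum, dco_edz, p1] at this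
      exact this

theorem o1 (hD : S_DSQ) {R : ℕ} {F H : Finset Edg} {m : ℤ × ℤ → ℤ} (D : Dt R F m) (hR : 20 ≤ R) :
    O1 (R / 20 : ℕ) (↑(Gf R F m H) : Set Edg) := by
  obtain ⟨q1, q2, q3, q4, q5, q6⟩ := hD _ m D.ev D.o D.g
  refine ⟨?_, ?_, ?_⟩
  · obtain ⟨v, hv, hr⟩ := D.t3.2.1
    rcases far hD (H := H) D hR hr with h | ⟨-, h⟩
    · exact h
    · exfalso
      rcases h with h | ⟨s', d, i, k, hi, hk, hB, h⟩
      · rw [h] at hv
        simp only [nm] at hv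
        norm_num at hv
        omega
      · have := near D hR (mem_Wc.2 hr) hi hk hB h
        omega
  · intro h
    obtain ⟨v, hv, h2⟩ := cl hD D hR h
    exact (q4 _ hv).1 h2.symm
  · intro h
    obtain ⟨v, hv, h2⟩ := cl hD D hR h
    exact (q4 _ hv).2 h2.symm

/-! ## counting -/

theorem sum_ind (S : Finset Edg) (A : Finset Edg → Prop) [DecidablePred A] :
    ∑ F ∈ S.powerset, ind (A F) = ((S.powerset.filter A).card : ℝ) := by
  classical
  rw [Finset.card_filter]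
  push_cast
  refine Finset.sum_congr rfl fun F _ => ?_
  by_cases h : A F
  · rw [ind_of h, if_pos h]
  · rw [ind_not_of h, if_neg h]

/-- comparison by an injection -/
theorem count (E E' : Finset Edg) (A B : Finset Edg → Prop)
    (f : Finset Edg → Finset Edg → Finset Edg × Finset Edg)
    (h1 : ∀ F H, F ⊆ E → H ⊆ E' → A F → (f F H).1 ⊆ E' ∧ B (f F H).1 ∧ (f F H).2 ⊆ E)
    (h2 : ∀ F H F' H', F ⊆ E → H ⊆ E' → F' ⊆ E → H' ⊆ E' → A F → A F' → f F H = f F' H' →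
      F = F' ∧ H = H') :
    Pr (fun _ => (1 / 2 : ℝ)) E A ≤ Pr (fun _ => (1 / 2 : ℝ)) E' B := by
  classical
  rw [Pr_half, Pr_half, sum_ind, sum_ind]
  have hc : (E.powerset.filter A).card * E'.powerset.card ≤
      (E'.powerset.filter B).card * E.powerset.card := by
    rw [← Finset.card_product, ← Finset.card_product]
    refine Finset.card_le_card_of_injOn (fun p => f p.1 p.2) ?_ ?_
    · rintro ⟨F, H⟩ hp
      simp only [Finset.coe_product, Set.mem_prod, Finset.mem_coe, Finset.mem_filter,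
        Finset.mem_powerset] at hp ⊢
      obtain ⟨⟨h3, h4⟩, h5⟩ := hp
      obtain ⟨h6, h7, h8⟩ := h1 F H h3 h5 h4
      exact ⟨⟨h6, h7⟩, h8⟩
    · rintro ⟨F, H⟩ hp ⟨F', H'⟩ hp' he
      simp only [Finset.coe_product, Set.mem_prod, Finset.mem_coe, Finset.mem_filter,
        Finset.mem_powerset] at hp hp' he
      obtain ⟨h3, h4⟩ := h2 F H F' H' hp.1.1 hp.2 hp'.1.1 hp'.2 hp.1.2 hp'.1.2 he
      rw [h3, h4]
  rw [Finset.card_powerset, Finset.card_powerset] at hc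
  have hc' : ((E.powerset.filter A).card : ℝ) * 2 ^ E'.card ≤
      ((E'.powerset.filter B).card : ℝ) * 2 ^ E.card := by exact_mod_cast hc
  have e1 : (1 / 2 : ℝ) ^ E.card * 2 ^ E.card = 1 := by rw [← mul_pow]; norm_num
  have e2 : (1 / 2 : ℝ) ^ E'.card * 2 ^ E'.card = 1 := by rw [← mul_pow]; norm_num
  calc (1 / 2 : ℝ) ^ E.card * ((E.powerset.filter A).card : ℝ)
      = (1 / 2 : ℝ) ^ E.card * (1 / 2 : ℝ) ^ E'.card *
          (((E.powerset.filter A).card : ℝ) * 2 ^ E'.card) := by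
        rw [show (1 / 2 : ℝ) ^ E.card * (1 / 2 : ℝ) ^ E'.card *
          (((E.powerset.filter A).card : ℝ) * 2 ^ E'.card) = (1 / 2 : ℝ) ^ E.card *
            ((E.powerset.filter A).card : ℝ) * ((1 / 2 : ℝ) ^ E'.card * 2 ^ E'.card) by ring, e2,
          mul_one]
    _ ≤ (1 / 2 : ℝ) ^ E.card * (1 / 2 : ℝ) ^ E'.card *
          (((E'.powerset.filter B).card : ℝ) * 2 ^ E.card) :=
        mul_le_mul_of_nonneg_left hc' (by positivity)
    _ = (1 / 2 : ℝ) ^ E'.card * ((E'.powerset.filter B).card : ℝ) := by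
        rw [show (1 / 2 : ℝ) ^ E.card * (1 / 2 : ℝ) ^ E'.card *
          (((E'.powerset.filter B).card : ℝ) * 2 ^ E.card) = (1 / 2 : ℝ) ^ E'.card *
            ((E'.powerset.filter B).card : ℝ) * ((1 / 2 : ℝ) ^ E.card * 2 ^ E.card) by ring, e1,
          mul_one]

end TCMP

open TCMP in
/-- **comparison of the plane with the dislocated plane** -/
theorem t_CMP : S_GAU → S_GB → S_COR → S_DSQ → S_CMP := by
  classical
  intro hGA hGB hC hD R hR
  have hex : ∀ F : Finset Edg, T3 R (↑F : Set Edg) → ∃ m : ℤ × ℤ → ℤ, Dt R (↑F : Set Edg) m := by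
    intro F hF
    obtain ⟨h1, h2, h3, h4⟩ := hC R (↑F : Set Edg) (by exact_mod_cast (by omega : 1 ≤ R)) hF
    obtain ⟨m, hm⟩ := hGA _ h1 h2 h3
    refine ⟨m, ⟨hF, h1, h3.1, hm, ?_⟩⟩
    exact hGB _ m R h1 h3 hm (by exact_mod_cast (by omega : 1 ≤ R)) (fun u hu => by
      have := h4 u hu
      have := abs_nonneg u.2
      omega)
  obtain ⟨mf, hmf⟩ : ∃ mf : Finset Edg → ℤ × ℤ → ℤ, ∀ F : Finset Edg, T3 R (↑F : Set Edg) →
      Dt R (↑F : Set Edg) (mf F) := by
    refine ⟨fun F => if h : T3 R (↑F : Set Edg) then (hex F h).choose else 0, fun F hF => ?_⟩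
    simp only [dif_pos hF]
    exact (hex F hF).choose_spec
  refine count (boxE R) (boxE (4 * R)) _ _ (fun F H => (Gf R F (mf F) H, Kf R F (mf F) H)) ?_ ?_
  · intro F H hF hH hA
    exact ⟨Finset.filter_subset _ _, o1 hD (hmf F hA) hR, Finset.filter_subset _ _⟩
  · intro F H F' H' hF hH hF' hH' hA hA' he
    have h1 := congrArg Prod.fst he
    have h2 := congrArg Prod.snd he
    exact inj hD (hmf F hA) (hmf F' hA') hR hF hF' hH hH' h1 h2

end Pool.Agent.W801.OS
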