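import Pool.Agent.W801.OS.Stm

/-!
# The cluster of the three arm event
-/

set_option autoImplicit false

namespace Pool.Agent.W801.OS
open H974 H906.Cyl
open Pool.Agent.H160R2.ML (nm)
open Pool.Agent.W801.OU (RZ LZ Dg nrm zp Cor scz bxz SE3 uR)

namespace TCOR

/-- the point of a vertex -/
def pt (v : Vtx) : ℤ × ℤ := (v.1 + v.2, v.1 - v.2)

theorem pt_inj {v w : Vtx} (h : pt v = pt w) : v = w := by
  unfold pt at h
  rw [Prod.mk.injEq] at h
  refine Prod.ext ?_ ?_
  · omega
  · omega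

theorem mem_Wc {R : ℤ} {F : Set Edg} {v : Vtx} : pt v ∈ Wc R F ↔ Reach (F ∩ bxz R) (0, 0) v := by
  constructor
  · rintro ⟨w, h1, h2⟩
    have : v = w := pt_inj h2
    rw [this]
    exact h1
  · intro h
    exact ⟨v, h, rfl⟩

theorem nm_le {R : ℤ} {F : Set Edg} (hR : 1 ≤ R) {v : Vtx} (h : Reach (F ∩ bxz R) (0, 0) v) :
    nm v ≤ R := by
  induction h with
  | refl =>
    unfold nm
    simp only [abs_zero, max_self]
    omega
  | tail _ hs _ =>
    obtain ⟨e, he, h | h⟩ := hs
    · rw [← h.2]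
      exact he.2.2
    · rw [← h.1]
      exact he.2.1

theorem nm_lt {R : ℤ} {v : Vtx} (h : nm v ≤ R) : -R ≤ v.1 ∧ v.1 ≤ R ∧ -R ≤ v.2 ∧ v.2 ≤ R := by
  unfold nm at h
  have h1 := abs_le.1 ((le_max_left _ _).trans h)
  have h2 := abs_le.1 ((le_max_right _ _).trans h)
  exact ⟨h1.1, h1.2, h2.1, h2.2⟩

theorem out {R : ℤ} {F : Set Edg} (hR : 1 ≤ R) {v : Vtx}
    (h : v.1 < -R ∨ R < v.1 ∨ v.2 < -R ∨ R < v.2) : pt v ∉ Wc R F := by
  intro hv
  have := nm_lt (nm_le hR (mem_Wc.1 hv))
  omega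

/-- an edge gives a diagonal step -/
theorem adj_of {F : Set Edg} {v w : Vtx} (h : H974.Adj F v w) : Adj (pt v) (pt w) := by
  obtain ⟨⟨x, y, b⟩, _, ⟨h1, h2⟩ | ⟨h1, h2⟩⟩ := h <;> subst h1 <;> subst h2 <;> cases b <;>
    simp only [tgt_true, tgt_false, src_mk, pt, Adj] <;> constructor <;> omega

theorem Pa.trans {W : Set (ℤ × ℤ)} {a b c : ℤ × ℤ} (h1 : Pa W a b) (h2 : Pa W b c) : Pa W a c := by
  induction h2 with
  | nil _ => exact h1
  | cons v w _ hw ha ih => exact Pa.cons _ _ _ ih hw ha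

theorem Pa.one {W : Set (ℤ × ℤ)} {a b : ℤ × ℤ} (ha : a ∉ W) (hb : b ∉ W) (h : Adj a b) :
    Pa W a b := Pa.cons _ _ _ (Pa.nil a ha) hb h

theorem up {R : ℤ} {F : Set Edg} (hR : 1 ≤ R) {x y : ℤ} (hx : x < -R ∨ R < x) (n : ℕ) :
    Pa (Wc R F) (pt (x, y)) (pt (x, y + n)) := by
  induction n with
  | zero =>
    rw [Nat.cast_zero, add_zero]
    refine Pa.nil _ (out hR ?_)
    simp only
    omega
  | succ n ih =>
    refine Pa.cons _ _ _ ih (out hR ?_) ?_
    · simp only
      omega
    · unfold Adj pt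
      simp only
      push_cast
      constructor <;> omega

theorem right {R : ℤ} {F : Set Edg} (hR : 1 ≤ R) {x y : ℤ} (hy : y < -R ∨ R < y) (n : ℕ) :
    Pa (Wc R F) (pt (x, y)) (pt (x + n, y)) := by
  induction n with
  | zero =>
    rw [Nat.cast_zero, add_zero]
    refine Pa.nil _ (out hR ?_)
    simp only
    omega
  | succ n ih =>
    refine Pa.cons _ _ _ ih (out hR ?_) ?_
    · simp only
      omega
    · unfold Adj pt
      simp only
      push_cast
      constructor <;> omega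

/-- column to the corner -/
theorem up' {R : ℤ} {F : Set Edg} (hR : 1 ≤ R) {x y : ℤ} (hx : x < -R ∨ R < x) (hy : y ≤ R + 1) :
    Pa (Wc R F) (pt (x, y)) (pt (x, R + 1)) := by
  obtain ⟨n, hn⟩ := Int.eq_ofNat_of_zero_le (show 0 ≤ R + 1 - y by omega)
  have h := up (F := F) hR (x := x) (y := y) hx n
  have e : y + n = R + 1 := by omega
  rw [e] at h
  exact h

theorem right' {R : ℤ} {F : Set Edg} (hR : 1 ≤ R) {x y : ℤ} (hy : y < -R ∨ R < y) (hx : x ≤ R + 1) :
    Pa (Wc R F) (pt (x, y)) (pt (R + 1, y)) := by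
  obtain ⟨n, hn⟩ := Int.eq_ofNat_of_zero_le (show 0 ≤ R + 1 - x by omega)
  have h := right (F := F) hR (x := x) (y := y) hy n
  have e : x + n = R + 1 := by omega
  rw [e] at h
  exact h

/-- from the boundary of the box to the corner -/
theorem ring {R : ℤ} {F : Set Edg} (hR : 1 ≤ R) {q : Vtx} (hq : nm q = R) (hqW : pt q ∉ Wc R F) :
    Pa (Wc R F) (pt q) (pt (R + 1, R + 1)) := by
  obtain ⟨a, b⟩ := q
  have h1 := nm_lt (le_of_eq hq)
  simp only at h1
  have h2 : a = R ∨ a = -R ∨ b = R ∨ b = -R := by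
    unfold nm at hq
    simp only at hq
    rcases max_choice |a| |b| with h | h
    · rw [h] at hq
      rcases abs_eq (by omega : 0 ≤ R) |>.1 hq with h | h
      · exact Or.inl h
      · exact Or.inr (Or.inl h)
    · rw [h] at hq
      rcases abs_eq (by omega : 0 ≤ R) |>.1 hq with h | h
      · exact Or.inr (Or.inr (Or.inl h))
      · exact Or.inr (Or.inr (Or.inr h))
  rcases h2 with h2 | h2 | h2 | h2
  · have s1 : Pa (Wc R F) (pt (a, b)) (pt (R + 1, b)) := by
      refine Pa.one hqW (out hR ?_) ?_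
      · simp only
        omega
      · unfold Adj pt
        simp only
        constructor <;> omega
    exact Pa.trans s1 (up' hR (by omega) (by omega))
  · have s1 : Pa (Wc R F) (pt (a, b)) (pt (-R - 1, b)) := by
      refine Pa.one hqW (out hR ?_) ?_
      · simp only
        omega
      · unfold Adj pt
        simp only
        constructor <;> omega
    exact Pa.trans (Pa.trans s1 (up' hR (by omega) (by omega)))
      (right' hR (by omega) (by omega))
  · have s1 : Pa (Wc R F) (pt (a, b)) (pt (a, R + 1)) := by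
      refine Pa.one hqW (out hR ?_) ?_
      · simp only
        omega
      · unfold Adj pt
        simp only
        constructor <;> omega
    exact Pa.trans s1 (right' hR (by omega) (by omega))
  · have s1 : Pa (Wc R F) (pt (a, b)) (pt (a, -R - 1)) := by
      refine Pa.one hqW (out hR ?_) ?_
      · simp only
        omega
      · unfold Adj pt
        simp only
        constructor <;> omega
    exact Pa.trans (Pa.trans s1 (right' hR (by omega) (by omega)))
      (up' hR (by omega) (by omega))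

/-- a lattice path avoiding the cluster -/
theorem path {R : ℤ} {F : Set Edg} {p q : Vtx} (hp : ¬ Reach (F ∩ bxz R) (0, 0) p)
    (h : Reach {e | e ∈ bxz R ∧ ¬ Reach (F ∩ bxz R) (0, 0) (src e) ∧
      ¬ Reach (F ∩ bxz R) (0, 0) (tgt e)} p q) :
    Pa (Wc R F) (pt p) (pt q) ∧ pt q ∉ Wc R F := by
  induction h with
  | refl =>
    have : pt p ∉ Wc R F := fun h => hp (mem_Wc.1 h)
    exact ⟨Pa.nil _ this, this⟩
  | tail _ hs ih =>
    rename_i v w _
    have h1 : pt w ∉ Wc R F := by
      intro h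
      have h := mem_Wc.1 h
      obtain ⟨e, he, h2 | h2⟩ := hs
      · rw [← h2.2] at h
        exact he.2.2 h
      · rw [← h2.1] at h
        exact he.2.1 h
    exact ⟨Pa.cons _ _ _ ih.1 h1 (adj_of hs), h1⟩

/-- an allowed step -/
theorem ok {R : ℤ} {F : Set Edg} (hF : (((0 : ℤ), (0 : ℤ), false) : Edg) ∉ F ∧
    (((-1 : ℤ), (0 : ℤ), true) : Edg) ∉ F) {v w : Vtx} (h : H974.Adj (F ∩ bxz R) v w) :
    Ok2 (pt v) (pt w) := by
  refine ⟨adj_of h, ?_, ?_⟩
  · rintro ⟨h1, h2⟩
    obtain ⟨⟨x, y, b⟩, he, ⟨h3, h4⟩ | ⟨h3, h4⟩⟩ := h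
    · subst h3
      subst h4
      cases b
      · simp only [tgt_false, src_mk, pt, Prod.mk.injEq] at h1 h2
        have hx : x = 0 := by omega
        have hy : y = 0 := by omega
        subst hx
        subst hy
        exact hF.1 he.1
      · simp only [tgt_true, src_mk, pt, Prod.mk.injEq] at h1 h2
        omega
    · subst h3
      subst h4
      cases b
      · simp only [tgt_false, src_mk, pt, Prod.mk.injEq] at h1 h2
        omega
      · simp only [tgt_true, src_mk, pt, Prod.mk.injEq] at h1 h2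
        have hx : x = -1 := by omega
        have hy : y = 0 := by omega
        subst hx
        subst hy
        exact hF.2 he.1
  · rintro ⟨h1, h2⟩
    obtain ⟨⟨x, y, b⟩, he, ⟨h3, h4⟩ | ⟨h3, h4⟩⟩ := h
    · subst h3
      subst h4
      cases b
      · simp only [tgt_false, src_mk, pt, Prod.mk.injEq] at h1 h2
        omega
      · simp only [tgt_true, src_mk, pt, Prod.mk.injEq] at h1 h2
        have hx : x = -1 := by omega
        have hy : y = 0 := by omega
        subst hx
        subst hy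
        exact hF.2 he.1
    · subst h3
      subst h4
      cases b
      · simp only [tgt_false, src_mk, pt, Prod.mk.injEq] at h1 h2
        have hx : x = 0 := by omega
        have hy : y = 0 := by omega
        subst hx
        subst hy
        exact hF.1 he.1
      · simp only [tgt_true, src_mk, pt, Prod.mk.injEq] at h1 h2
        omega

theorem chain {R : ℤ} {F : Set Edg} (hF : (((0 : ℤ), (0 : ℤ), false) : Edg) ∉ F ∧
    (((-1 : ℤ), (0 : ℤ), true) : Edg) ∉ F) {v : Vtx} (h : Reach (F ∩ bxz R) (0, 0) v) :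
    ∃ φ, Ch (Wc R F) (0, 0) (pt v) φ := by
  induction h with
  | refl =>
    refine ⟨_, Ch.nil (0, 0) ⟨(0, 0), Reach.refl _ _, ?_⟩⟩
    simp
  | tail hr hs ih =>
    obtain ⟨φ, hφ⟩ := ih
    exact ⟨_, Ch.cons _ _ _ φ hφ (mem_Wc.2 (hr.tail hs)) (ok hF hs)⟩

theorem bound {R : ℤ} {F : Set Edg} (hR : 1 ≤ R) : ∀ u ∈ Wc R F, |u.1| + |u.2| ≤ 2 * R := by
  rintro u ⟨v, hv, rfl⟩
  have h := nm_lt (nm_le hR hv)
  simp only
  rcases abs_cases (v.1 + v.2) with h1 | h1 <;> rcases abs_cases (v.1 - v.2) with h2 | h2 <;> omega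

end TCOR

open TCOR in
theorem t_COR : S_COR := by
  rintro R F hR ⟨hF, _, p, q, hp, hq, hpn, hpq⟩
  refine ⟨?_, ?_, ⟨?_, ?_⟩, bound hR⟩
  · rintro u ⟨v, _, rfl⟩
    simp only
    omega
  · obtain ⟨h1, h2⟩ := path hpn hpq
    refine ⟨pt p, pt (R + 1, R + 1), ?_, TCOR.Pa.trans h1 (TCOR.ring hR hq h2), ?_⟩
    · rcases hp with rfl | rfl
      · left
        rfl
      · right
        rfl
    · intro u hu
      have h3 := bound hR u hu
      have h4 := le_abs_self u.1
      have h5 := abs_nonneg u.2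
      unfold pt
      simp only
      omega
  · exact ⟨(0, 0), Reach.refl _ _, by simp⟩
  · rintro u ⟨v, hv, rfl⟩
    exact chain hF hv

end Pool.Agent.W801.OS
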