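import Pool.Agent.W801.OS.Defs

/-!
# From the plane to the dislocated plane: the steps
(every step is a `Prop`; the file `T_X.lean` proves `t_X` from its hypotheses)
-/

set_option autoImplicit false

namespace Pool.Agent.W801.OS
open H974 H906.Cyl
open Pool.Agent.H160R2.ML (nm)
open Pool.Agent.W801.OU (RZ LZ Dg nrm zp Cor scz bxz SE3 uR S_UR3 S_TRIc)

/-! ## winding numbers -/

/-- **a walk of `W` between two points of the same row or of adjacent rows winds less than half as much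
as it would have to in the dislocated plane** -/
def S_KL : Prop := ∀ W : Set (ℤ × ℤ), Evn W → Corr W → ∀ (a b : ℤ × ℤ) (φ : ℤ × ℤ → ℤ), Ch W a b φ →
  (b.2 = a.2 ∨ b.2 = a.2 + 1) → ¬ (b = (0, 0) ∧ a.2 = -1) →
  (a.1 = b.1 ∧ φ (0, 0) + cr (0, 0) b a = 0) ∨ 2 * |φ (0, 0) + cr (0, 0) b a| + 1 ≤ |b.1 - a.1|

/-- existence of a gauge -/
def S_GAU : Prop := ∀ W : Set (ℤ × ℤ), Evn W → Corr W → Con W → ∃ m : ℤ × ℤ → ℤ, Gau W m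

/-- the gauge is bounded -/
def S_GB : Prop := ∀ (W : Set (ℤ × ℤ)) (m : ℤ × ℤ → ℤ) (R : ℤ), Evn W → Con W → Gau W m → 1 ≤ R →
  (∀ u ∈ W, |u.1| ≤ 2 * R) → ∀ v ∈ W, |m v| ≤ R ∧ |kap m v| ≤ R

/-- the cluster of the three arm event -/
def S_COR : Prop := ∀ (R : ℤ) (F : Set Edg), 1 ≤ R → T3 R F →
  Evn (Wc R F) ∧ Corr (Wc R F) ∧ Con (Wc R F) ∧ ∀ u ∈ Wc R F, |u.1| + |u.2| ≤ 2 * R

/-! ## the map -/

/-- the squares: compatibility, injectivity, corners -/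
def S_DSQ : Prop := ∀ (W : Set (ℤ × ℤ)) (m : ℤ × ℤ → ℤ), Evn W → (0, 0) ∈ W → Gau W m →
  (∀ (v v' : ℤ × ℤ) (s d : ℤ), v ∈ W → v' ∈ W → Cnr v s d → Cnr v' s d →
    (d < 0 → v ≠ (0, 0) ∧ v' ≠ (0, 0)) → dsq m v s d = dsq m v' s d) ∧
  (∀ (v v' : ℤ × ℤ) (s d s' d' : ℤ), v ∈ W → v' ∈ W → Cnr v s d → Cnr v' s' d' →
    (d < 0 → v ≠ (0, 0)) → (d' < 0 → v' ≠ (0, 0)) → dsq m v s d = dsq m v' s' d' →
    s = s' ∧ d = d') ∧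
  (∀ v v' : ℤ × ℤ, v ∈ W → v' ∈ W → Phi m v = Phi m v' → v = v') ∧
  (∀ v ∈ W, Phi m v ≠ (-1, 0) ∧ Phi m v ≠ (1, 0)) ∧
  (∀ (v : ℤ × ℤ) (s d : ℤ), v ∈ W → Cnr v s d → (d < 0 → v ≠ (0, 0)) →
    (dsq m v s d).2 = d ∧ ¬ (d < 0 ∧ (dsq m v s d).1 + 1 = 0) ∧
    nrm {0} d ((dsq m v s d).1 + (v.1 - s)) v.2 = Phi m v) ∧
  (∀ (v : ℤ × ℤ) (s' d i k : ℤ), v ∈ W → (i = 0 ∨ i = 1) → (k = 0 ∨ k = 1) →
    ¬ (d < 0 ∧ s' + 1 = 0) → nrm {0} d (s' + i) (d + k) = Phi m v →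
    ∃ s : ℤ, v.1 = s + i ∧ v.2 = d + k ∧ (d < 0 → v ≠ (0, 0)) ∧ dsq m v s d = (s', d))

/-- **comparison of the plane with the dislocated plane** -/
def S_CMP : Prop := ∀ R : ℕ, 20 ≤ R →
  Pr (fun _ => (1 / 2 : ℝ)) (boxE R) (fun F => T3 R (↑F : Set Edg)) ≤
    Pr (fun _ => (1 / 2 : ℝ)) (boxE (4 * R)) (fun G => O1 (R / 20 : ℕ) (↑G : Set Edg))

/-! ## one cluster is enough -/

/-- the two other sectors are not connected -/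
def S_D1a : Prop := ∀ (R : ℕ) (G : Set Edg), 1 ≤ R → O1 R G →
  ¬ RZ {0} (bxz R) G (-1, 0) (1, 0)

/-- pairwise not connected sectors reach the boundary -/
def S_D1b : Prop := ∀ (R : ℕ) (G : Set Edg), 1 ≤ R →
  (∀ c d : ℕ, c < 3 → d < 3 → c ≠ d → ¬ RZ {0} (bxz R) G (scz 0 0 c) (scz 0 0 d)) → SE3 R G

end Pool.Agent.W801.OS
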