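import Pool.Agent.W801.OU.T_TRIc
import Pool.Agent.W801.OS.Stm

/-! # The two other sectors are not connected -/

set_option autoImplicit false

namespace Pool.Agent.W801.OS
open H974 H906.Cyl
open Pool.Agent.H160R2.ML (nm)
open Pool.Agent.W801.OU (RZ LZ Dg nrm zp Cor scz bxz Zn RC Outw G3 Alt3 S_TRIc)
open Pool.Agent.W801.OU.TISO (Ri edz_sum dco_edz edz_eq LZ_iff per_edz Ri_per)

namespace D1aP

/-- the box in diagonal coordinates -/
def Bx (R s d : ℤ) : Prop :=
  ((s + d) % 2 = 0 ∧ -2 * R ≤ s + d ∧ s + d ≤ 2 * R - 2 ∧ -2 * R ≤ s - d ∧ s - d ≤ 2 * R) ∨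
  ((s + d) % 2 = 1 ∧ -2 * R ≤ s + d + 1 ∧ s + d + 1 ≤ 2 * R ∧ -2 * R ≤ s - d - 1 ∧
    s - d + 1 ≤ 2 * R)

theorem mem_bx (R s d : ℤ) : edz s d ∈ bxz R ↔ Bx R s d := by
  unfold edz bxz nm Bx
  split_ifs with h
  · simp only [Set.mem_ofPred_eq, src_mk, tgt_true, max_le_iff, abs_le]
    omega
  · simp only [Set.mem_ofPred_eq, src_mk, tgt_false, max_le_iff, abs_le]
    omega

/-- representative of a column between `-n` and `n` -/
def rp (n : ℕ) (s : ℤ) : ℤ := if s < n then s else s - 2 * n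

/-- the open edges of the band -/
def Cnd (n : ℕ) (R : ℤ) (G : Set Edg) (c : ℤ) (e : Edg) : Prop :=
  (Bx R (rp n (e.1 + e.2.1)) (dco e) ∧ edz (rp n (e.1 + e.2.1)) (dco e) ∈ G) ∨
    (¬ Bx R (rp n (e.1 + e.2.1)) (dco e) ∧ c = 0)

/-- the configuration of the band -/
noncomputable def Fb (n M : ℕ) (R : ℤ) (G : Set Edg) (c : ℤ) : Finset Edg :=
  @Finset.filter Edg (Cnd n R G c) (Classical.decPred _) (CE n M)

theorem mem_Fb (n M : ℕ) (R : ℤ) (G : Set Edg) (c : ℤ) (e : Edg) :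
    e ∈ Fb n M R G c ↔ e ∈ CE n M ∧ Cnd n R G c e := by
  unfold Fb
  exact @Finset.mem_filter _ _ (Classical.decPred _) _ _

theorem Fb_sub (n M : ℕ) (R : ℤ) (G : Set Edg) (c : ℤ) : Fb n M R G c ⊆ CE n M :=
  fun e he => ((mem_Fb n M R G c e).1 he).1

theorem per_iff (n M : ℕ) (R : ℤ) (G : Set Edg) (c : ℤ) (hn : 1 ≤ n) (s d : ℤ) (h1 : -(n : ℤ) ≤ s)
    (h2 : s < n) (h3 : -(M : ℤ) ≤ d) (h4 : d < M) :
    edz s d ∈ per n (Fb n M R G c) ↔ (Bx R s d ∧ edz s d ∈ G) ∨ (¬ Bx R s d ∧ c = 0) := by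
  rw [per_edz]
  have key : ∀ s' : ℤ, 0 ≤ s' → s' < 2 * n → rp n s' = s →
      (edz s' d ∈ Fb n M R G c ↔ (Bx R s d ∧ edz s d ∈ G) ∨ (¬ Bx R s d ∧ c = 0)) := by
    intro s' h5 h6 h7
    rw [mem_Fb, mem_CE]
    unfold Cnd
    rw [edz_sum, dco_edz, h7]
    constructor
    · exact fun h => h.2
    · exact fun h => ⟨⟨⟨h5, h6⟩, h3, h4⟩, h⟩
  by_cases hs : 0 ≤ s
  · have e1 : s / (2 * n : ℤ) = 0 := Int.ediv_eq_zero_of_lt hs (by omega)
    rw [e1]
    apply key
    · omega
    · omega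
    · unfold rp
      rw [if_pos (by omega)]
      omega
  · have e1 : s / (2 * n : ℤ) = -1 := by
      have : s = (s + 2 * n) + (2 * n) * (-1) := by ring
      rw [this, Int.add_mul_ediv_left _ _ (by omega), Int.ediv_eq_zero_of_lt (by omega) (by omega)]
      norm_num
    rw [e1]
    apply key
    · omega
    · omega
    · unfold rp
      rw [if_neg (by omega)]
      omega

/-- the squares outside the boxes are of class `c` -/
theorem Ri_out (n M : ℕ) (R : ℤ) (G : Set Edg) (c : ℤ) (hn : 1 ≤ n) (hc : c = 0 ∨ c = 1)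
    (s d : ℤ) (h3 : -(M : ℤ) ≤ d) (h4 : d < M)
    (hb : ¬ Bx R (s - 2 * n * ((s + n) / (2 * n))) d) :
    Ri (per n (Fb n M R G c)) s d ↔ (s + d) % 2 = c := by
  set q := (s + n) / (2 * n : ℤ) with hq
  have hm := Int.emod_nonneg (s + n) (show (2 * n : ℤ) ≠ 0 by omega)
  have hm' := Int.emod_lt_of_pos (s + n) (show (0 : ℤ) < 2 * n by omega)
  have hd := Int.mul_ediv_add_emod (s + n) (2 * n)
  rw [← hq] at hd
  have e0 : s = (s - 2 * n * q) + 2 * n * q := by ring
  have hr : Ri (per n (Fb n M R G c)) s d ↔ Ri (per n (Fb n M R G c)) (s - 2 * n * q) d := by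
    conv_lhs => rw [e0]
    rw [Ri_per hn]
  rw [hr]
  unfold Ri
  rw [per_iff n M R G c hn _ d (by linarith) (by linarith) h3 h4]
  have e3 : (s - 2 * n * q + d) % 2 = (s + d) % 2 := by
    rw [show s - 2 * n * q + d = (s + d) + 2 * (-(n * q)) by ring, Int.add_mul_emod_self_left]
  rw [e3]
  have hm2 := Int.emod_two_eq_zero_or_one (s + d)
  simp only [hb, false_and, not_false_eq_true, true_and, false_or]
  rcases hc with rfl | rfl
  · simp
  · simp only [one_ne_zero, false_iff]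
    omega

/-! ## shifts -/

theorem mem_Zn (n : ℕ) (j : ℤ) : j ∈ Zn n ↔ j % (2 * n : ℕ) = 0 := Iff.rfl

theorem mem_Zn_shift (n : ℕ) (j : ℤ) : j + 2 * n ∈ Zn n ↔ j ∈ Zn n := by
  rw [mem_Zn, mem_Zn]
  have : (j + 2 * n) % ((2 * n : ℕ) : ℤ) = j % ((2 * n : ℕ) : ℤ) := by
    push_cast
    exact Int.add_emod_right _ _
  rw [this]

theorem mem_Zn_small (n : ℕ) (j : ℤ) (h1 : -(2 * n : ℤ) < j) (h2 : j < 2 * n) :
    j ∈ Zn n ↔ j = 0 := by
  rw [mem_Zn]
  constructor
  · intro h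
    have hd : ((2 * n : ℕ) : ℤ) ∣ j := Int.dvd_of_emod_eq_zero h
    obtain ⟨k, hk⟩ := hd
    push_cast at hk
    have hn : (0 : ℤ) < 2 * n := by omega
    have h3 : k < 1 := by
      by_contra hh
      have : (1 : ℤ) ≤ k := by omega
      nlinarith
    have h4 : -1 < k := by
      by_contra hh
      have : k ≤ (-1 : ℤ) := by omega
      nlinarith
    have : k = 0 := by omega
    subst this
    simpa using hk
  · rintro rfl
    simp

theorem nrm_shift (n : ℕ) (d j t : ℤ) :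
    nrm (Zn n) d (j + 2 * n) t = ((nrm (Zn n) d j t).1 + 2 * n, (nrm (Zn n) d j t).2) := by
  unfold nrm
  by_cases h : d < 0 ∧ j ∈ Zn n
  · rw [if_pos h, if_pos ⟨h.1, (mem_Zn_shift n j).2 h.2⟩]
    simp only [Prod.mk.injEq, and_true]
    ring
  · rw [if_neg h, if_neg (fun h' => h ⟨h'.1, (mem_Zn_shift n j).1 h'.2⟩)]

theorem LZ_shift (n : ℕ) (hn : 1 ≤ n) (F : Finset Edg) (x y : ℤ × ℤ)
    (h : LZ (Zn n) Set.univ (per n F) x y) :
    LZ (Zn n) Set.univ (per n F) (x.1 + 2 * n, x.2) (y.1 + 2 * n, y.2) := by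
  rw [LZ_iff] at h ⊢
  obtain ⟨s, d, h1, h2⟩ := h
  refine ⟨s + 2 * n, d, ?_, ?_⟩
  · rw [show s + 2 * (n : ℤ) + 1 = (s + 1) + 2 * n by ring, mem_Zn_shift]
    exact h1
  · have hr : Ri (per n F) (s + 2 * n) d ↔ Ri (per n F) s d := by
      have := Ri_per hn F s 1 d
      rwa [mul_one] at this
    rw [hr, show s + 2 * (n : ℤ) + 1 = (s + 1) + 2 * n by ring]
    simp only [nrm_shift]
    rcases h2 with ⟨h3, rfl, rfl⟩ | ⟨h3, rfl, rfl⟩
    · exact Or.inl ⟨h3, rfl, rfl⟩
    · exact Or.inr ⟨h3, rfl, rfl⟩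

theorem RC_shift (n : ℕ) (hn : 1 ≤ n) (F : Finset Edg) (x y : ℤ × ℤ)
    (h : RC n (per n F) x y) : RC n (per n F) (x.1 + 2 * n, x.2) (y.1 + 2 * n, y.2) := by
  unfold RC RZ at h ⊢
  induction h with
  | rel x y h => exact Relation.EqvGen.rel _ _ (LZ_shift n hn F x y h)
  | refl x => exact Relation.EqvGen.refl _
  | symm x y _ ih => exact Relation.EqvGen.symm _ _ ih
  | trans x y z _ _ ih1 ih2 => exact Relation.EqvGen.trans _ _ _ ih1 ih2

/-! ## the box in the cylinder -/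

theorem Dg_congr (n : ℕ) (c : ℤ) (e : Edg) (x y : ℤ × ℤ) (h1 : -(2 * n : ℤ) < e.1 + e.2.1)
    (h2 : e.1 + e.2.1 + 1 < 2 * n) : Dg {0} c e x y → Dg (Zn n) c e x y := by
  have hk : ∀ d j t : ℤ, -(2 * n : ℤ) < j → j < 2 * n → nrm {0} d j t = nrm (Zn n) d j t := by
    intro d j t h3 h4
    unfold nrm
    by_cases h5 : d < 0 ∧ j = 0
    · rw [if_pos ⟨h5.1, h5.2⟩, if_pos ⟨h5.1, (mem_Zn_small n j h3 h4).2 h5.2⟩]
    · rw [if_neg (fun h6 => h5 ⟨h6.1, h6.2⟩),
        if_neg (fun h6 => h5 ⟨h6.1, (mem_Zn_small n j h3 h4).1 h6.2⟩)]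
  intro h
  rcases h with h | h
  · rw [hk _ _ _ h1 (by omega), hk _ _ _ (by omega) h2]
    exact Dg.rise h
  · rw [hk _ _ _ h1 (by omega), hk _ _ _ (by omega) h2]
    exact Dg.fall h

theorem box_incl (n M : ℕ) (R : ℤ) (G : Set Edg) (c : ℤ) (hR : 1 ≤ R) (hn : 4 * R + 4 ≤ n)
    (hM : 4 * R + 4 ≤ M) (x y : ℤ × ℤ) (h : RZ {0} (bxz R) G x y) :
    RC n (per n (Fb n M R G c)) x y := by
  unfold RC RZ at *
  induction h with
  | rel x y h =>
    refine Relation.EqvGen.rel _ _ ?_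
    obtain ⟨e, he, hz, h⟩ := h
    have hb : Bx R (e.1 + e.2.1) (dco e) := by
      rw [← mem_bx, edz_eq]; exact he
    have hb' := hb
    unfold Bx at hb'
    have hbd : -(2 * R) - 1 ≤ e.1 + e.2.1 ∧ e.1 + e.2.1 ≤ 2 * R + 1 ∧ -(2 * R) - 1 ≤ dco e ∧
        dco e ≤ 2 * R + 1 := by omega
    have hm : e ∈ per n (Fb n M R G c) ↔ e ∈ G := by
      have := per_iff n M R G c (by omega) (e.1 + e.2.1) (dco e) (by omega) (by omega) (by omega)
        (by omega)
      rw [edz_eq] at this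
      rw [this]
      simp only [hb, true_and, not_true_eq_false, false_and, or_false]
    refine ⟨e, trivial, ?_, ?_⟩
    · intro hz'
      apply hz
      refine ⟨hz'.1, ?_⟩
      have := (mem_Zn_small n (e.1 + e.2.1 + 1) (by omega) (by omega)).1 hz'.2
      exact this
    · rw [hm]
      rcases h with ⟨h1, h2⟩ | ⟨h1, h2⟩
      · exact Or.inl ⟨h1, Dg_congr n 0 e x y (by omega) (by omega) h2⟩
      · exact Or.inr ⟨h1, Dg_congr n 1 e x y (by omega) (by omega) h2⟩
  | refl x => exact Relation.EqvGen.refl _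
  | symm x y _ ih => exact Relation.EqvGen.symm _ _ ih
  | trans x y z _ _ ih1 ih2 => exact Relation.EqvGen.trans _ _ _ ih1 ih2

/-! ## walks outside the boxes -/

/-- the left corner of class `c` -/
noncomputable def Pl (n : ℕ) (c s d : ℤ) : ℤ × ℤ :=
  if (s + d) % 2 = c then nrm (Zn n) d s d else nrm (Zn n) d s (d + 1)

/-- the right corner of class `c` -/
noncomputable def Pr' (n : ℕ) (c s d : ℤ) : ℤ × ℤ :=
  if (s + d) % 2 = c then nrm (Zn n) d (s + 1) (d + 1) else nrm (Zn n) d (s + 1) d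

/-- a square which is not removed and whose diagonal is the one of class `c` -/
def Okk (n : ℕ) (H : Set Edg) (c s d : ℤ) : Prop :=
  ¬ (d < 0 ∧ s + 1 ∈ Zn n) ∧ (Ri H s d ↔ (s + d) % 2 = c)

theorem link {n : ℕ} {H : Set Edg} {c s d : ℤ} (h : Okk n H c s d) :
    RC n H (Pl n c s d) (Pr' n c s d) := by
  refine Relation.EqvGen.rel _ _ ?_
  rw [LZ_iff]
  refine ⟨s, d, h.1, ?_⟩
  unfold Pl Pr'
  by_cases h2 : (s + d) % 2 = c
  · rw [if_pos h2, if_pos h2]
    exact Or.inl ⟨h.2.2 h2, rfl, rfl⟩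
  · rw [if_neg h2, if_neg h2]
    exact Or.inr ⟨fun h3 => h2 (h.2.1 h3), rfl, rfl⟩

theorem hor1 {n : ℕ} {H : Set Edg} {c s d : ℤ} (hc : c = 0 ∨ c = 1) (h : Okk n H c s d) :
    RC n H (Pl n c s d) (Pl n c (s + 1) d) := by
  have h1 := link h
  have : Pr' n c s d = Pl n c (s + 1) d := by
    unfold Pr' Pl
    by_cases h2 : (s + d) % 2 = c
    · rw [if_pos h2, if_neg (by omega)]
    · rw [if_neg h2, if_pos (by omega)]
  rwa [this] at h1

theorem ver1 {n : ℕ} {H : Set Edg} {c s d : ℤ} (hc : c = 0 ∨ c = 1) (h : Okk n H c s d)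
    (h' : Okk n H c s (d + 1)) (hz : 0 ≤ d ∨ (s ∉ Zn n ∧ s + 1 ∉ Zn n)) :
    RC n H (Pl n c s d) (Pl n c s (d + 1)) := by
  have hk : ∀ j t : ℤ, (0 ≤ d ∨ j ∉ Zn n) → nrm (Zn n) (d + 1) j t = nrm (Zn n) d j t := by
    intro j t h
    unfold nrm
    rcases h with h | h
    · rw [if_neg (by omega), if_neg (by omega)]
    · rw [if_neg (fun h' => h h'.2), if_neg (fun h' => h h'.2)]
  have hz1 : 0 ≤ d ∨ s ∉ Zn n := hz.imp id (fun h => h.1)
  have hz2 : 0 ≤ d ∨ s + 1 ∉ Zn n := hz.imp id (fun h => h.2)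
  by_cases h2 : (s + d) % 2 = c
  · have e : Pr' n c s d = Pr' n c s (d + 1) := by
      unfold Pr'
      rw [if_pos h2, if_neg (by omega), hk _ _ hz2]
    have h3 := link h
    have h4 := link h'
    rw [← e] at h4
    exact Relation.EqvGen.trans _ _ _ h3 (Relation.EqvGen.symm _ _ h4)
  · have e : Pl n c s d = Pl n c s (d + 1) := by
      unfold Pl
      rw [if_neg h2, if_pos (by omega), hk _ _ hz1]
    rw [e]
    exact Relation.EqvGen.refl _

theorem horN {n : ℕ} {H : Set Edg} {c d : ℤ} (hc : c = 0 ∨ c = 1) (s : ℤ) (k : ℕ)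
    (h : ∀ i : ℤ, s ≤ i → i < s + k → Okk n H c i d) :
    RC n H (Pl n c s d) (Pl n c (s + k) d) := by
  induction k with
  | zero => simp only [Nat.cast_zero, add_zero]; exact Relation.EqvGen.refl _
  | succ k ih =>
    have h1 := ih (fun i hi hi' => h i hi (by push_cast; omega))
    have h2 := hor1 hc (h (s + k) (by omega) (by push_cast; omega))
    rw [show s + (k : ℤ) + 1 = s + ((k + 1 : ℕ) : ℤ) by push_cast; ring] at h2
    exact Relation.EqvGen.trans _ _ _ h1 h2

theorem hor {n : ℕ} {H : Set Edg} {c d : ℤ} (hc : c = 0 ∨ c = 1) (s s' : ℤ) (hs : s ≤ s')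
    (h : ∀ i : ℤ, s ≤ i → i < s' → Okk n H c i d) :
    RC n H (Pl n c s d) (Pl n c s' d) := by
  have := horN (H := H) (n := n) (d := d) hc s (s' - s).toNat (fun i hi hi' => h i hi (by omega))
  rwa [show s + ((s' - s).toNat : ℤ) = s' by omega] at this

theorem verN {n : ℕ} {H : Set Edg} {c s : ℤ} (hc : c = 0 ∨ c = 1) (d : ℤ) (k : ℕ)
    (h : ∀ i : ℤ, d ≤ i → i ≤ d + k → Okk n H c s i) (hz : 0 ≤ d ∨ (s ∉ Zn n ∧ s + 1 ∉ Zn n)) :
    RC n H (Pl n c s d) (Pl n c s (d + k)) := by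
  induction k with
  | zero => simp only [Nat.cast_zero, add_zero]; exact Relation.EqvGen.refl _
  | succ k ih =>
    have h1 := ih (fun i hi hi' => h i hi (by push_cast; omega))
    have h2 := ver1 hc (h (d + k) (by omega) (by push_cast; omega))
      (h (d + k + 1) (by omega) (by push_cast; omega)) (hz.imp (fun h => by omega) id)
    rw [show d + (k : ℤ) + 1 = d + ((k + 1 : ℕ) : ℤ) by push_cast; ring] at h2
    exact Relation.EqvGen.trans _ _ _ h1 h2

theorem ver {n : ℕ} {H : Set Edg} {c s : ℤ} (hc : c = 0 ∨ c = 1) (d d' : ℤ) (hd : d ≤ d')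
    (h : ∀ i : ℤ, d ≤ i → i ≤ d' → Okk n H c s i) (hz : 0 ≤ d ∨ (s ∉ Zn n ∧ s + 1 ∉ Zn n)) :
    RC n H (Pl n c s d) (Pl n c s d') := by
  have := verN (H := H) (n := n) (s := s) hc d (d' - d).toNat (fun i hi hi' => h i hi (by omega)) hz
  rwa [show d + ((d' - d).toNat : ℤ) = d' by omega] at this

theorem Bx_up {R s d : ℤ} (hd : 0 ≤ d) (h : ¬ Bx R s d) : ∀ k : ℕ, ¬ Bx R s (d + k) := by
  intro k
  induction k with
  | zero => simpa using h
  | succ k ih =>
    intro h2
    apply ih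
    push_cast at h2
    unfold Bx at h2 ⊢
    omega

theorem Bx_rt {R s d : ℤ} (hd : d < 0) (hs : 0 ≤ s) (h : ¬ Bx R s d) :
    ∀ k : ℕ, ¬ Bx R (s + k) d := by
  intro k
  induction k with
  | zero => simpa using h
  | succ k ih =>
    intro h2
    apply ih
    push_cast at h2
    unfold Bx at h2 ⊢
    omega

theorem Bx_lf {R s d : ℤ} (hd : d < 0) (hs : s ≤ -2) (h : ¬ Bx R s d) :
    ∀ k : ℕ, ¬ Bx R (s - k) d := by
  intro k
  induction k with
  | zero => simpa using h
  | succ k ih =>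
    intro h2
    apply ih
    push_cast at h2
    unfold Bx at h2 ⊢
    omega

/-- a square outside the box is connected to the upper row -/
theorem outside (n M : ℕ) (R : ℤ) (G : Set Edg) (c : ℤ) (hR : 1 ≤ R) (hc : c = 0 ∨ c = 1)
    (hn : 4 * R + 4 ≤ n) (hM : 4 * R + 4 ≤ M) (s d : ℤ) (hs : |s| < n) (hd : |d| < M)
    (hb : ¬ Bx R s d) (hz : ¬ (d < 0 ∧ s + 1 = 0)) :
    RC n (per n (Fb n M R G c)) (Pl n c s d) (Pl n c 0 (M - 1)) := by
  rw [abs_lt] at hs hd
  set H := per n (Fb n M R G c) with hH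
  have hok : ∀ i t : ℤ, -(n : ℤ) ≤ i → i < n → -(M : ℤ) ≤ t → t < M → ¬ Bx R i t →
      ¬ (t < 0 ∧ i + 1 = 0) → Okk n H c i t := by
    intro i t h1 h2 h3 h4 h5 h6
    refine ⟨?_, ?_⟩
    · rintro ⟨h7, h8⟩
      exact h6 ⟨h7, (mem_Zn_small n (i + 1) (by omega) (by omega)).1 h8⟩
    · apply Ri_out n M R G c (by omega) hc i t h3 h4
      have : (i + n) / (2 * n : ℤ) = 0 := Int.ediv_eq_zero_of_lt (by omega) (by omega)
      rw [this]
      simpa using h5
  -- the upper row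
  have hrow : ∀ i : ℤ, -(n : ℤ) ≤ i → i < n → RC n H (Pl n c i (M - 1)) (Pl n c 0 (M - 1)) := by
    intro i h1 h2
    have hfar : ∀ i' : ℤ, ¬ Bx R i' (M - 1) := by
      intro i'
      unfold Bx
      omega
    rcases le_or_gt i 0 with h | h
    · exact hor hc i 0 h (fun i' h3 h4 => hok i' (M - 1) (by omega) (by omega) (by omega) (by omega)
        (hfar i') (by omega))
    · exact Relation.EqvGen.symm _ _ (hor hc 0 i h.le (fun i' h3 h4 => hok i' (M - 1) (by omega)
        (by omega) (by omega) (by omega) (hfar i') (by omega)))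
  by_cases hd0 : 0 ≤ d
  · -- the upper half
    have h1 : RC n H (Pl n c s d) (Pl n c s (M - 1)) := by
      refine ver hc d (M - 1) (by omega) ?_ (Or.inl hd0)
      intro i h1 h2
      refine hok s i (by omega) (by omega) (by omega) (by omega) ?_ (by omega)
      have := Bx_up hd0 hb (i - d).toNat
      rwa [show d + ((i - d).toNat : ℤ) = i by omega] at this
    exact Relation.EqvGen.trans _ _ _ h1 (hrow s (by omega) (by omega))
  · push Not at hd0
    -- columns far from the tips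
    have hcol : ∀ i : ℤ, (i = n - 1 ∨ i = -(n : ℤ) + 1) →
        RC n H (Pl n c i d) (Pl n c 0 (M - 1)) := by
      intro i hi
      have hfar : ∀ t : ℤ, ¬ Bx R i t := by
        intro t
        unfold Bx
        omega
      have h1 : RC n H (Pl n c i d) (Pl n c i (M - 1)) := by
        refine ver hc d (M - 1) (by omega) ?_ (Or.inr ?_)
        · intro t h1 h2
          exact hok i t (by omega) (by omega) (by omega) (by omega) (hfar t) (by omega)
        · constructor
          · rw [mem_Zn_small n i (by omega) (by omega)]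
            omega
          · rw [mem_Zn_small n (i + 1) (by omega) (by omega)]
            omega
      exact Relation.EqvGen.trans _ _ _ h1 (hrow i (by omega) (by omega))
    by_cases hs0 : 0 ≤ s
    · have h1 : RC n H (Pl n c s d) (Pl n c (n - 1) d) := by
        refine hor hc s (n - 1) (by omega) ?_
        intro i h1 h2
        refine hok i d (by omega) (by omega) (by omega) (by omega) ?_ (by omega)
        have := Bx_rt hd0 hs0 hb (i - s).toNat
        rwa [show s + ((i - s).toNat : ℤ) = i by omega] at this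
      exact Relation.EqvGen.trans _ _ _ h1 (hcol _ (Or.inl rfl))
    · have hs2 : s ≤ -2 := by omega
      have h1 : RC n H (Pl n c (-(n : ℤ) + 1) d) (Pl n c s d) := by
        refine hor hc (-(n : ℤ) + 1) s (by omega) ?_
        intro i h1 h2
        refine hok i d (by omega) (by omega) (by omega) (by omega) ?_ (by omega)
        have := Bx_lf hd0 hs2 hb (s - i).toNat
        rwa [show s - ((s - i).toNat : ℤ) = i by omega] at this
      exact Relation.EqvGen.trans _ _ _ (Relation.EqvGen.symm _ _ h1) (hcol _ (Or.inr rfl))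

theorem Pl_shift (n : ℕ) (c s d : ℤ) :
    Pl n c (s + 2 * n) d = ((Pl n c s d).1 + 2 * n, (Pl n c s d).2) := by
  unfold Pl
  have : (s + 2 * n + d) % 2 = (s + d) % 2 := by omega
  rw [this]
  split_ifs
  · exact nrm_shift n d s d
  · exact nrm_shift n d s (d + 1)

end D1aP

open D1aP in
/-- **the two other sectors are not connected** -/
theorem t_D1a : Pool.Agent.W801.OU.S_TRIc → S_D1a := by
  intro hT R G hR hO h02
  obtain ⟨⟨x, hx, e, he, hcor⟩, hn0, hn2⟩ := hO
  have hR' : (1 : ℤ) ≤ R := by exact_mod_cast hR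
  -- the class
  obtain ⟨c, hc, hcor⟩ : ∃ c : ℤ, (c = 0 ∨ c = 1) ∧ Cor {0} c e x := by
    rcases hcor with h | h
    · exact ⟨0, Or.inl rfl, h⟩
    · exact ⟨1, Or.inr rfl, h⟩
  set n : ℕ := 4 * R + 8 + (e.1 + e.2.1).natAbs + (dco e).natAbs with hn
  have hn1 : 4 * (R : ℤ) + 4 ≤ n := by omega
  set F := Fb n n R G c with hF
  have hbox := fun x y => box_incl n n R G c hR' hn1 hn1 x y
  rw [← hF] at hbox
  have hb : ¬ Bx R (e.1 + e.2.1) (dco e) := by
    rw [← mem_bx, edz_eq]; exact he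
  have hz : ¬ (dco e < 0 ∧ e.1 + e.2.1 + 1 = 0) := hcor.1
  have hout := outside n n R G c hR' hc hn1 hn1 (e.1 + e.2.1) (dco e)
    (by rw [abs_lt]; omega) (by rw [abs_lt]; omega) hb hz
  rw [← hF] at hout
  -- the point x is a corner of e
  have hokk : Okk n (per n F) c (e.1 + e.2.1) (dco e) := by
    refine ⟨?_, ?_⟩
    · rintro ⟨h7, h8⟩
      exact hz ⟨h7, (mem_Zn_small n _ (by omega) (by omega)).1 h8⟩
    · apply Ri_out n n R G c (by omega) hc _ _ (by omega) (by omega)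
      have : (e.1 + e.2.1 + n) / (2 * n : ℤ) = 0 := Int.ediv_eq_zero_of_lt (by omega) (by omega)
      rw [this]
      simpa using hb
  have hxP : RC n (per n F) x (Pl n c (e.1 + e.2.1) (dco e)) := by
    obtain ⟨y, hy⟩ := hcor.2
    have hl := link hokk
    have key : ∀ u v : ℤ × ℤ, Dg {0} c e u v → u = Pl n c (e.1 + e.2.1) (dco e) ∧
        v = Pr' n c (e.1 + e.2.1) (dco e) := by
      intro u v h'
      replace h' := Dg_congr n c e u v (by omega) (by omega) h'
      unfold Pl Pr'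
      rcases h' with h | h
      · rw [if_pos h, if_pos h]
        exact ⟨rfl, rfl⟩
      · rw [if_neg (by omega), if_neg (by omega)]
        exact ⟨rfl, rfl⟩
    rcases hy with hy | hy
    · rw [(key _ _ hy).1]
      exact Relation.EqvGen.refl _
    · rw [(key _ _ hy).2]
      exact Relation.EqvGen.symm _ _ hl
  have h0x : RC n (per n F) (0, 0) (Pl n c 0 (n - 1)) :=
    Relation.EqvGen.trans _ _ _ (hbox _ _ hx) (Relation.EqvGen.trans _ _ _ hxP hout)
  -- the shifted one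
  have h1x := RC_shift n (by omega) F _ _ h0x
  rw [← Pl_shift] at h1x
  have hrow : RC n (per n F) (Pl n c 0 (n - 1)) (Pl n c (0 + 2 * n) (n - 1)) := by
    refine hor hc 0 (0 + 2 * n) (by omega) ?_
    intro i h1 h2
    refine ⟨by omega, ?_⟩
    apply Ri_out n n R G c (by omega) hc i _ (by omega) (by omega)
    unfold Bx
    omega
  have hO1 : Outw n (per n F) 1 := by
    refine ⟨1, one_ne_zero, 1, by norm_num, ?_⟩
    have e0 : scz n 0 1 = (0, 0) := by unfold scz; simp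
    have e1 : scz n 1 1 = (((0, 0) : ℤ × ℤ).1 + 2 * n, ((0, 0) : ℤ × ℤ).2) := by
      unfold scz; simp
    rw [e0, e1]
    exact Relation.EqvGen.trans _ _ _ h0x (Relation.EqvGen.trans _ _ _ hrow
      (Relation.EqvGen.symm _ _ h1x))
  have h02' : RC n (per n F) (scz n 0 0) (scz n 0 2) := by
    have e0 : scz n 0 0 = (-1, 0) := by unfold scz; simp
    have e2 : scz n 0 2 = (1, 0) := by unfold scz; simp
    rw [e0, e2]
    exact hbox _ _ h02
  have h20' := Relation.EqvGen.symm _ _ h02'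
  rcases hT n n (by omega) F (Fb_sub n n R G c) with h | h
  · exact h.1 0 2 (by norm_num) (by norm_num) (by norm_num) h02'
  · obtain ⟨t, a, b, ht, ha, hb, h1, h2, h3, h4, h5, h6, h7⟩ := h
    have ht1 : t ≠ 1 := by
      rintro rfl
      exact h6 hO1
    have htb : ¬ RC n (per n F) (scz n 0 t) (scz n 0 b) := by
      intro h
      exact h5 (Relation.EqvGen.trans _ _ _ h (Relation.EqvGen.symm _ _ h4))
    interval_cases t
    · interval_cases a
      · exact h1 rfl
      · interval_cases b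
        · exact h2 rfl
        · exact h3 rfl
        · exact htb h02'
      · exact h5 h02'
    · exact ht1 rfl
    · interval_cases a
      · exact h5 h20'
      · interval_cases b
        · exact htb h20'
        · exact h3 rfl
        · exact h2 rfl
      · exact h1 rfl

end Pool.Agent.W801.OS
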