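import Pool.Agent.W801.OS.Stm

/-!
# Pairwise disconnected sectors reach the boundary (helper591)

Double counting mod 2 of the pairs (square, side of it with one end in the cluster of `a` and the
other in the cluster of `b`).
-/

set_option autoImplicit false

namespace Pool.Agent.W801.OS
open H974 H906.Cyl
open Pool.Agent.H160R2.ML (nm)
open Pool.Agent.W801.OU (RZ LZ Dg nrm zp Cor scz bxz SE3 uR)

namespace TD1b

/-! ## the normal form -/

theorem nrm_nonneg {d : ℤ} (hd : 0 ≤ d) (j t : ℤ) : nrm {0} d j t = (j, t) := by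
  unfold nrm
  rw [if_neg]
  intro h
  omega

theorem nrm_ne {j : ℤ} (hj : j ≠ 0) (d t : ℤ) : nrm {0} d j t = (j, t) := by
  unfold nrm
  rw [if_neg]
  intro h
  exact hj h.2

theorem nrm_zero {d : ℤ} (hd : d < 0) (t : ℤ) : nrm {0} d 0 t = (-1, t) := by
  unfold nrm
  rw [if_pos ⟨hd, rfl⟩]
  rfl

/-! ## the squares -/

/-- the edge of the square `(s, d)` -/
def ed (s d : ℤ) : Edg :=
  if (s + d) % 2 = 0 then ((s + d) / 2, (s - d) / 2, true)
  else ((s + d + 1) / 2, (s - d - 1) / 2, false)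

theorem ed_sum (s d : ℤ) : (ed s d).1 + (ed s d).2.1 = s := by
  unfold ed; split_ifs <;> simp only <;> omega

theorem ed_dco (s d : ℤ) : dco (ed s d) = d := by
  unfold ed dco; split_ifs with h1 h2 h2 <;> simp at h2 ⊢ <;> omega

theorem ed_zp (s d : ℤ) (hz : ¬ (d < 0 ∧ s + 1 = 0)) : ed s d ∉ zp {0} := by
  intro h
  have h1 : dco (ed s d) < 0 ∧ (ed s d).1 + (ed s d).2.1 + 1 ∈ ({0} : Set ℤ) := h
  rw [ed_dco, ed_sum] at h1
  exact hz ⟨h1.1, h1.2⟩

theorem ed_box (R s d : ℤ) (h : ed s d ∈ bxz R) : |s| ≤ 2 * R ∧ |d| ≤ 2 * R + 1 := by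
  have h1 : nm (src (ed s d)) ≤ R := h.1
  unfold nm src at h1
  have h2 := ed_sum s d
  have h3 := ed_dco s d
  have h4 := abs_le.1 ((le_max_left _ _).trans h1)
  have h5 := abs_le.1 ((le_max_right _ _).trans h1)
  simp only at h4 h5
  unfold dco at h3
  constructor
  · rw [abs_le]
    constructor <;> omega
  · rw [abs_le]
    split_ifs at h3 <;> constructor <;> omega

theorem dg_rise (c s d : ℤ) (h : (s + d) % 2 = c) :
    Dg {0} c (ed s d) (nrm {0} d s d) (nrm {0} d (s + 1) (d + 1)) := by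
  have h1 := Dg.rise (Z := {0}) (c := c) (e := ed s d) (by rw [ed_sum, ed_dco]; exact h)
  rwa [ed_sum, ed_dco] at h1

theorem dg_fall (c s d : ℤ) (h : (s + d) % 2 = 1 - c) :
    Dg {0} c (ed s d) (nrm {0} d s (d + 1)) (nrm {0} d (s + 1) d) := by
  have h1 := Dg.fall (Z := {0}) (c := c) (e := ed s d) (by rw [ed_sum, ed_dco]; exact h)
  rwa [ed_sum, ed_dco] at h1

theorem link (R : ℤ) (G : Set Edg) (s d : ℤ) (hb : ed s d ∈ bxz R)
    (hz : ¬ (d < 0 ∧ s + 1 = 0)) :
    LZ {0} (bxz R) G (nrm {0} d s d) (nrm {0} d (s + 1) (d + 1)) ∨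
      LZ {0} (bxz R) G (nrm {0} d s (d + 1)) (nrm {0} d (s + 1) d) := by
  have hz' := ed_zp s d hz
  rcases Int.emod_two_eq_zero_or_one (s + d) with h | h
  · by_cases hG : ed s d ∈ G
    · exact Or.inl ⟨ed s d, hb, hz', Or.inl ⟨hG, dg_rise 0 s d h⟩⟩
    · exact Or.inr ⟨ed s d, hb, hz', Or.inr ⟨hG, dg_fall 1 s d (by omega)⟩⟩
  · by_cases hG : ed s d ∈ G
    · exact Or.inr ⟨ed s d, hb, hz', Or.inl ⟨hG, dg_fall 0 s d (by omega)⟩⟩
    · exact Or.inl ⟨ed s d, hb, hz', Or.inr ⟨hG, dg_rise 1 s d h⟩⟩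

/-- the four corners of the square `(s, d)` -/
def IsC (s d : ℤ) (x : ℤ × ℤ) : Prop :=
  x = nrm {0} d s d ∨ x = nrm {0} d (s + 1) d ∨ x = nrm {0} d s (d + 1) ∨
    x = nrm {0} d (s + 1) (d + 1)

theorem corner (s d : ℤ) (hz : ¬ (d < 0 ∧ s + 1 = 0)) (x : ℤ × ℤ) (hx : IsC s d x) :
    Cor {0} 0 (ed s d) x ∨ Cor {0} 1 (ed s d) x := by
  have hz' := ed_zp s d hz
  rcases Int.emod_two_eq_zero_or_one (s + d) with h | h
  · rcases hx with rfl | rfl | rfl | rfl
    · exact Or.inl ⟨hz', _, Or.inl (dg_rise 0 s d h)⟩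
    · exact Or.inr ⟨hz', _, Or.inr (dg_fall 1 s d (by omega))⟩
    · exact Or.inr ⟨hz', _, Or.inl (dg_fall 1 s d (by omega))⟩
    · exact Or.inl ⟨hz', _, Or.inr (dg_rise 0 s d h)⟩
  · rcases hx with rfl | rfl | rfl | rfl
    · exact Or.inr ⟨hz', _, Or.inl (dg_rise 1 s d h)⟩
    · exact Or.inl ⟨hz', _, Or.inr (dg_fall 0 s d (by omega))⟩
    · exact Or.inl ⟨hz', _, Or.inl (dg_fall 0 s d (by omega))⟩
    · exact Or.inr ⟨hz', _, Or.inr (dg_rise 1 s d h)⟩

/-! ## double counting -/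

theorem two (x : ZMod 2) : x + x = 0 := CharTwo.add_self_eq_zero x

theorem tele (f : ℕ → ZMod 2) (n : ℕ) :
    ∑ i ∈ Finset.range n, (f i + f (i + 1)) = f 0 + f n := by
  induction n with
  | zero => rw [Finset.sum_range_zero, two]
  | succ n ih =>
    rw [Finset.sum_range_succ, ih]
    linear_combination two (f n)

section

variable (α β : ℤ × ℤ → ZMod 2)

/-- one end of the side has colour `α`, the other `β` -/
def w (x y : ℤ × ℤ) : ZMod 2 := α x * β y + α y * β x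

theorem w_self (x : ℤ × ℤ) : w α β x x = 0 := two _

theorem w_zero {x y : ℤ × ℤ} (hx : α x = 0) (hy : α y = 0) : w α β x y = 0 := by
  rw [w, hx, hy, zero_mul, zero_mul, add_zero]

theorem w_congr {x y z : ℤ × ℤ} (h1 : α x = α y) (h2 : β x = β y) :
    w α β x z = w α β y z := by
  rw [w, w, h1, h2]

theorem w_comm (x y : ℤ × ℤ) : w α β x y = w α β y x := by
  rw [w, w]; ring

/-- vertical sides -/
noncomputable def Ve (j d : ℤ) : ZMod 2 := w α β (nrm {0} d j d) (nrm {0} d j (d + 1))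

/-- bottom sides -/
noncomputable def Hm (s d : ℤ) : ZMod 2 := w α β (nrm {0} d s d) (nrm {0} d (s + 1) d)

/-- top sides -/
noncomputable def Hp (s d : ℤ) : ZMod 2 :=
  w α β (nrm {0} d s (d + 1)) (nrm {0} d (s + 1) (d + 1))

theorem local_id (s d : ℤ) (h1 : ¬ (d < 0 ∧ s + 1 = 0) →
    (α (nrm {0} d s d) = α (nrm {0} d (s + 1) (d + 1)) ∧
      β (nrm {0} d s d) = β (nrm {0} d (s + 1) (d + 1))) ∨
    (α (nrm {0} d s (d + 1)) = α (nrm {0} d (s + 1) d) ∧
      β (nrm {0} d s (d + 1)) = β (nrm {0} d (s + 1) d)) ∨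
    (∀ x, IsC s d x → α x = 0)) :
    (Ve α β s d + Ve α β (s + 1) d) + (Hm α β s d + Hp α β s d) = 0 := by
  by_cases hz : d < 0 ∧ s + 1 = 0
  · obtain ⟨hd, hs⟩ := hz
    have hs' : s = -1 := by omega
    have e1 : Ve α β (s + 1) d = Ve α β s d := by
      rw [Ve, Ve, hs, nrm_zero hd, nrm_zero hd, nrm_ne (by omega), nrm_ne (by omega), hs']
    have e2 : Hm α β s d = 0 := by
      rw [Hm, hs, nrm_zero hd, nrm_ne (by omega), hs', w_self]
    have e3 : Hp α β s d = 0 := by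
      rw [Hp, hs, nrm_zero hd, nrm_ne (by omega), hs', w_self]
    rw [e1, e2, e3, two, add_zero, add_zero]
  · rcases h1 hz with ⟨ha, hb⟩ | ⟨ha, hb⟩ | h0
    · have e1 : Ve α β (s + 1) d = Hm α β s d := by
        rw [Ve, Hm, w_comm, w_congr α β ha.symm hb.symm]
      have e2 : Hp α β s d = Ve α β s d := by
        rw [Ve, Hp, w_comm, w_congr α β ha.symm hb.symm]
      rw [e1, e2]
      linear_combination two (Ve α β s d) + two (Hm α β s d)
    · have e1 : Ve α β (s + 1) d = Hp α β s d := by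
        rw [Ve, Hp, w_congr α β ha.symm hb.symm]
      have e2 : Hm α β s d = Ve α β s d := by
        rw [Ve, Hm, w_comm α β (nrm {0} d s d) (nrm {0} d (s + 1) d), w_congr α β ha.symm hb.symm,
          w_comm]
      rw [e1, e2]
      linear_combination two (Ve α β s d) + two (Hp α β s d)
    · have c1 := h0 _ (Or.inl rfl)
      have c2 := h0 _ (Or.inr (Or.inl rfl))
      have c3 := h0 _ (Or.inr (Or.inr (Or.inl rfl)))
      have c4 := h0 _ (Or.inr (Or.inr (Or.inr rfl)))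
      rw [Ve, Ve, Hm, Hp, w_zero α β c1 c3, w_zero α β c2 c4, w_zero α β c1 c2, w_zero α β c3 c4]
      simp

/-- the correction at the hole -/
noncomputable def co (s : ℤ) : ZMod 2 := Hp α β s (-1) + Hm α β s 0

theorem Hp_eq (s d : ℤ) : Hp α β s d = Hm α β s (d + 1) + if d = -1 then co α β s else 0 := by
  by_cases hd : d = -1
  · rw [if_pos hd, hd, co]
    have e : (-1 : ℤ) + 1 = 0 := by norm_num
    rw [e]
    linear_combination (-1 : ZMod 2) * two (Hm α β s 0)
  · rw [if_neg hd, add_zero, Hp, Hm]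
    have h : ∀ j t : ℤ, nrm {0} d j t = nrm {0} (d + 1) j t := by
      intro j t
      by_cases hd' : 0 ≤ d
      · rw [nrm_nonneg hd', nrm_nonneg (by omega)]
      · by_cases hj : j = 0
        · rw [hj, nrm_zero (by omega), nrm_zero (by omega)]
        · rw [nrm_ne hj, nrm_ne hj]
    rw [h, h]

theorem co_eq (s : ℤ) : co α β s = (if s = -1 then w α β (-1, 0) (0, 0) else 0) +
    (if s = 0 then w α β (-1, 0) (1, 0) + w α β (0, 0) (1, 0) else 0) := by
  rw [co, Hp, Hm]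
  have e : (-1 : ℤ) + 1 = 0 := by norm_num
  rw [e, nrm_nonneg le_rfl, nrm_nonneg le_rfl]
  by_cases h1 : s = -1
  · rw [if_pos h1, if_neg (by omega), h1, e, nrm_zero (by norm_num), nrm_ne (by norm_num), w_self]
    ring
  · rw [if_neg h1]
    by_cases h2 : s = 0
    · rw [if_pos h2, h2, nrm_zero (by norm_num), nrm_ne (by norm_num)]
      norm_num
    · rw [if_neg h2, nrm_ne h2, nrm_ne (by omega), two, add_zero]

theorem comb (L : ℕ) (hL : 2 ≤ L)
    (h1 : ∀ s d : ℤ, ¬ (d < 0 ∧ s + 1 = 0) →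
      (α (nrm {0} d s d) = α (nrm {0} d (s + 1) (d + 1)) ∧
        β (nrm {0} d s d) = β (nrm {0} d (s + 1) (d + 1))) ∨
      (α (nrm {0} d s (d + 1)) = α (nrm {0} d (s + 1) d) ∧
        β (nrm {0} d s (d + 1)) = β (nrm {0} d (s + 1) d)) ∨
      (∀ x, IsC s d x → α x = 0))
    (h2 : ∀ s d : ℤ, ¬ (d < 0 ∧ s + 1 = 0) → ((L : ℤ) ≤ |s| ∨ (L : ℤ) ≤ |d|) →
      ∀ x, IsC s d x → α x = 0) :
    w α β (-1, 0) (0, 0) + (w α β (-1, 0) (1, 0) + w α β (0, 0) (1, 0)) = 0 := by
  have hLabs : (L : ℤ) ≤ |(L : ℤ)| := le_abs_self _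
  have hLabs' : (L : ℤ) ≤ |(-L : ℤ)| := by rw [abs_neg]; exact le_abs_self _
  -- the sum over all squares
  have htot : ∑ i ∈ Finset.range (2 * L), ∑ k ∈ Finset.range (2 * L),
      ((Ve α β ((i : ℤ) - L) ((k : ℤ) - L) + Ve α β ((i : ℤ) - L + 1) ((k : ℤ) - L)) +
        (Hm α β ((i : ℤ) - L) ((k : ℤ) - L) + Hp α β ((i : ℤ) - L) ((k : ℤ) - L))) = 0 :=
    Finset.sum_eq_zero fun i _ => Finset.sum_eq_zero fun k _ => local_id α β _ _ (h1 _ _)
  simp only [Finset.sum_add_distrib (f := fun k : ℕ => Ve α β _ _ + Ve α β _ _)] at htot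
  rw [Finset.sum_add_distrib] at htot
  -- vertical sides
  have hV : ∑ i ∈ Finset.range (2 * L), ∑ k ∈ Finset.range (2 * L),
      (Ve α β ((i : ℤ) - L) ((k : ℤ) - L) + Ve α β ((i : ℤ) - L + 1) ((k : ℤ) - L)) = 0 := by
    rw [Finset.sum_comm]
    refine Finset.sum_eq_zero fun k _ => ?_
    have h3 := tele (fun i : ℕ => Ve α β ((i : ℤ) - L) ((k : ℤ) - L)) (2 * L)
    have h4 : ∀ i : ℕ, ((i + 1 : ℕ) : ℤ) - L = (i : ℤ) - L + 1 := by
      intro i; push_cast; ring
    simp only [h4] at h3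
    rw [h3]
    have e1 : Ve α β (((0 : ℕ) : ℤ) - L) ((k : ℤ) - L) = 0 := by
      have e : ((0 : ℕ) : ℤ) - L = -L := by push_cast; ring
      rw [e, Ve]
      have h5 := h2 (-L) ((k : ℤ) - L) (by omega) (Or.inl hLabs')
      exact w_zero α β (h5 _ (Or.inl rfl)) (h5 _ (Or.inr (Or.inr (Or.inl rfl))))
    have e2 : Ve α β (((2 * L : ℕ) : ℤ) - L) ((k : ℤ) - L) = 0 := by
      have e : ((2 * L : ℕ) : ℤ) - L = L := by push_cast; ring
      rw [e, Ve]
      have h5 := h2 L ((k : ℤ) - L) (by omega) (Or.inl hLabs)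
      exact w_zero α β (h5 _ (Or.inl rfl)) (h5 _ (Or.inr (Or.inr (Or.inl rfl))))
    rw [e1, e2, add_zero]
  rw [hV, zero_add] at htot
  -- horizontal sides
  have hH : ∀ i ∈ Finset.range (2 * L), ∑ k ∈ Finset.range (2 * L),
      (Hm α β ((i : ℤ) - L) ((k : ℤ) - L) + Hp α β ((i : ℤ) - L) ((k : ℤ) - L)) =
        co α β ((i : ℤ) - L) := by
    intro i _
    simp only [Hp_eq, ← add_assoc]
    rw [Finset.sum_add_distrib]
    have h3 := tele (fun k : ℕ => Hm α β ((i : ℤ) - L) ((k : ℤ) - L)) (2 * L)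
    have h4 : ∀ k : ℕ, ((k + 1 : ℕ) : ℤ) - L = (k : ℤ) - L + 1 := by
      intro k; push_cast; ring
    simp only [h4] at h3
    rw [h3]
    have e1 : Hm α β ((i : ℤ) - L) (((0 : ℕ) : ℤ) - L) = 0 := by
      have e : ((0 : ℕ) : ℤ) - L = -L := by push_cast; ring
      rw [e, Hm]
      by_cases hz : (i : ℤ) - L + 1 = 0
      · rw [hz, nrm_zero (by omega), nrm_ne (by omega)]
        have e' : (i : ℤ) - L = -1 := by omega
        rw [e', w_self]
      · have h5 := h2 ((i : ℤ) - L) (-L) (fun h => hz h.2) (Or.inr hLabs')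
        exact w_zero α β (h5 _ (Or.inl rfl)) (h5 _ (Or.inr (Or.inl rfl)))
    have e2 : Hm α β ((i : ℤ) - L) (((2 * L : ℕ) : ℤ) - L) = 0 := by
      have e : ((2 * L : ℕ) : ℤ) - L = L := by push_cast; ring
      rw [e, Hm]
      have h5 := h2 ((i : ℤ) - L) L (by omega) (Or.inr hLabs)
      exact w_zero α β (h5 _ (Or.inl rfl)) (h5 _ (Or.inr (Or.inl rfl)))
    rw [e1, e2, add_zero, zero_add]
    rw [Finset.sum_eq_single (L - 1)]
    · rw [if_pos (by omega)]
    · intro k _ hk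
      rw [if_neg (by omega)]
    · intro hk
      exact absurd (Finset.mem_range.2 (by omega)) hk
  rw [Finset.sum_congr rfl hH] at htot
  simp only [co_eq] at htot
  rw [Finset.sum_add_distrib] at htot
  have hs1 : ∑ i ∈ Finset.range (2 * L), (if (i : ℤ) - L = -1 then w α β (-1, 0) (0, 0) else 0) =
      w α β (-1, 0) (0, 0) := by
    rw [Finset.sum_eq_single (L - 1)]
    · rw [if_pos (by omega)]
    · intro k _ hk
      rw [if_neg (by omega)]
    · intro hk
      exact absurd (Finset.mem_range.2 (by omega)) hk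
  have hs2 : ∑ i ∈ Finset.range (2 * L), (if (i : ℤ) - L = 0 then
      w α β (-1, 0) (1, 0) + w α β (0, 0) (1, 0) else 0) =
      w α β (-1, 0) (1, 0) + w α β (0, 0) (1, 0) := by
    rw [Finset.sum_eq_single L]
    · rw [if_pos (by omega)]
    · intro k _ hk
      rw [if_neg (by omega)]
    · intro hk
      exact absurd (Finset.mem_range.2 (by omega)) hk
  rw [hs1, hs2] at htot
  exact htot

end

open Classical in
/-- indicator of the cluster of `a` -/
noncomputable def al (R : ℤ) (G : Set Edg) (a x : ℤ × ℤ) : ZMod 2 :=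
  if RZ {0} (bxz R) G a x then 1 else 0

theorem al_pos {R : ℤ} {G : Set Edg} {a x : ℤ × ℤ} (h : RZ {0} (bxz R) G a x) :
    al R G a x = 1 := by
  unfold al
  rw [if_pos h]

theorem al_neg {R : ℤ} {G : Set Edg} {a x : ℤ × ℤ} (h : ¬ RZ {0} (bxz R) G a x) :
    al R G a x = 0 := by
  unfold al
  rw [if_neg h]

theorem al_congr {R : ℤ} {G : Set Edg} {a x y : ℤ × ℤ} (h : LZ {0} (bxz R) G x y) :
    al R G a x = al R G a y := by
  have h1 : RZ {0} (bxz R) G x y := Relation.EqvGen.rel _ _ h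
  by_cases hx : RZ {0} (bxz R) G a x
  · rw [al_pos hx, al_pos (Relation.EqvGen.trans _ _ _ hx h1)]
  · rw [al_neg hx, al_neg fun hy =>
      hx (Relation.EqvGen.trans _ _ _ hy (Relation.EqvGen.symm _ _ h1))]

theorem key (R : ℕ) (G : Set Edg) (a b : ℤ × ℤ)
    (hK : ¬ ∃ x : ℤ × ℤ, RZ {0} (bxz R) G a x ∧ ∃ e ∉ bxz R, Cor {0} 0 e x ∨ Cor {0} 1 e x) :
    w (al R G a) (al R G b) (-1, 0) (0, 0) + (w (al R G a) (al R G b) (-1, 0) (1, 0) +
      w (al R G a) (al R G b) (0, 0) (1, 0)) = 0 := by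
  have hout : ∀ s d : ℤ, ¬ (d < 0 ∧ s + 1 = 0) → ed s d ∉ bxz R → ∀ x, IsC s d x →
      al R G a x = 0 := by
    intro s d hz hb x hx
    exact al_neg fun h => hK ⟨x, h, ed s d, hb, corner s d hz x hx⟩
  refine comb _ _ (2 * R + 2) (by omega) ?_ ?_
  · intro s d hz
    by_cases hb : ed s d ∈ bxz R
    · rcases link R G s d hb hz with h | h
      · exact Or.inl ⟨al_congr h, al_congr h⟩
      · exact Or.inr (Or.inl ⟨al_congr h, al_congr h⟩)
    · exact Or.inr (Or.inr (hout s d hz hb))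
  · intro s d hz hL
    refine hout s d hz fun hb => ?_
    have h := ed_box R s d hb
    push_cast at hL
    omega

end TD1b

open TD1b in
theorem t_D1b : S_D1b := by
  intro R G hR h
  refine ⟨h, fun c hc => ?_⟩
  by_contra hcon
  have hP : scz 0 0 0 = (-1, 0) := by simp [scz]
  have hO : scz 0 0 1 = (0, 0) := by simp [scz]
  have hQ : scz 0 0 2 = (1, 0) := by simp [scz]
  have r : ∀ x : ℤ × ℤ, RZ {0} (bxz R) G x x := fun x => Relation.EqvGen.refl x
  have h01 := h 0 1 (by norm_num) (by norm_num) (by norm_num)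
  have h02 := h 0 2 (by norm_num) (by norm_num) (by norm_num)
  have h10 := h 1 0 (by norm_num) (by norm_num) (by norm_num)
  have h12 := h 1 2 (by norm_num) (by norm_num) (by norm_num)
  have h20 := h 2 0 (by norm_num) (by norm_num) (by norm_num)
  have h21 := h 2 1 (by norm_num) (by norm_num) (by norm_num)
  rw [hP, hO] at h01 h10
  rw [hP, hQ] at h02 h20
  rw [hO, hQ] at h12 h21
  interval_cases c
  · rw [hP] at hcon
    have k := key R G (-1, 0) (0, 0) hcon
    simp only [w, al_pos (r _), al_neg h01, al_neg h02, al_neg h10, al_neg h12] at k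
    norm_num at k
  · rw [hO] at hcon
    have k := key R G (0, 0) (-1, 0) hcon
    simp only [w, al_pos (r _), al_neg h01, al_neg h02, al_neg h10, al_neg h12] at k
    norm_num at k
  · rw [hQ] at hcon
    have k := key R G (1, 0) (-1, 0) hcon
    simp only [w, al_pos (r _), al_neg h01, al_neg h02, al_neg h20, al_neg h21] at k
    norm_num at k

end Pool.Agent.W801.OS
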