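import Pool.Agent.W801.OS.Stm

/-!
# The map to the dislocated plane on squares
-/

set_option autoImplicit false

namespace Pool.Agent.W801.OS
open H974 H906.Cyl
open Pool.Agent.H160R2.ML (nm)
open Pool.Agent.W801.OU (RZ LZ Dg nrm zp Cor scz bxz SE3 uR)

namespace TDSQ

theorem abs_sp {a b : ℤ} (h : 2 * |a| + 1 ≤ |b|) :
    (2 * a + 1 ≤ b ∧ -(2 * a) + 1 ≤ b) ∨ (2 * a + 1 ≤ -b ∧ -(2 * a) + 1 ≤ -b) := by
  have h1 := le_abs_self a
  have h2 := neg_le_abs a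
  rcases abs_cases b with h3 | h3
  · left; omega
  · right; omega

theorem unS_sp (k : ℤ) : (k ≤ -2 ∧ unS k = k) ∨ (-1 ≤ k ∧ unS k = k + 1) := by
  unfold unS
  split_ifs with h
  · left; omega
  · right; omega

theorem unK_sp (k : ℤ) : (k ≤ -1 ∧ unK k = k) ∨ (0 ≤ k ∧ unK k = k + 1) := by
  unfold unK
  split_ifs with h
  · left; omega
  · right; omega

theorem kap_sp (m : ℤ × ℤ → ℤ) (x y : ℤ) :
    ((y = 0 ∧ 0 < x) ∧ kap m (x, y) = m (x, y) + 1) ∨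
    (¬ (y = 0 ∧ 0 < x) ∧ kap m (x, y) = m (x, y)) := by
  unfold kap
  split_ifs with h
  · left; exact ⟨h, rfl⟩
  · right; exact ⟨h, by ring⟩

theorem Phi_sp (m : ℤ × ℤ → ℤ) (x y : ℤ) :
    (0 ≤ y ∧ Phi m (x, y) = (x - m (x, y), y)) ∨
    (y < 0 ∧ Phi m (x, y) = (unK (x - m (x, y)), y)) := by
  unfold Phi
  split_ifs with h
  · left; exact ⟨h, rfl⟩
  · right; exact ⟨not_le.1 h, rfl⟩

theorem dsq_sp (m : ℤ × ℤ → ℤ) (v : ℤ × ℤ) (s d : ℤ) :
    (0 ≤ d ∧ dsq m v s d = (s - m v, d)) ∨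
    (d < 0 ∧ dsq m v s d = (unS (s - kap m v), d)) := by
  unfold dsq
  split_ifs with h
  · left; exact ⟨h, rfl⟩
  · right; exact ⟨not_le.1 h, rfl⟩

theorem nrm_sp (d j t : ℤ) :
    ((d < 0 ∧ j = 0) ∧ nrm {0} d j t = (-1, t)) ∨ (¬ (d < 0 ∧ j = 0) ∧ nrm {0} d j t = (j, t)) := by
  unfold nrm
  simp only [Set.mem_singleton_iff]
  split_ifs with h
  · left
    refine ⟨h, ?_⟩
    rw [h.2]
    rfl
  · right; exact ⟨h, rfl⟩

theorem pair_ne {x y : ℤ} (h : ((x, y) : ℤ × ℤ) ≠ (0, 0)) : ¬ (x = 0 ∧ y = 0) := by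
  rintro ⟨rfl, rfl⟩
  exact h rfl

/-- the inequality of the gauge, explicitly -/
theorem K1 {W : Set (ℤ × ℤ)} {m : ℤ × ℤ → ℤ} (hg : Gau W m) {x y x' y' : ℤ}
    (h : (x, y) ∈ W) (h' : (x', y') ∈ W) (hy : y' = y ∨ y' = y + 1)
    (h0 : ¬ ((x' = 0 ∧ y' = 0) ∧ y = -1)) :
    ∃ c : ℤ, ((y' = 0 ∧ y = -1 ∧ 0 < x') ∧ c = 1 ∨ ¬ (y' = 0 ∧ y = -1 ∧ 0 < x') ∧ c = 0) ∧
      ((x = x' ∧ m (x', y') - m (x, y) + c = 0) ∨
       (2 * (m (x', y') - m (x, y) + c) + 1 ≤ x' - x ∧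
        -(2 * (m (x', y') - m (x, y) + c)) + 1 ≤ x' - x) ∨
       (2 * (m (x', y') - m (x, y) + c) + 1 ≤ -(x' - x) ∧
        -(2 * (m (x', y') - m (x, y) + c)) + 1 ≤ -(x' - x))) := by
  have h1 := hg.kl (x, y) (x', y') h h' hy (by
    rintro ⟨h2, h3⟩
    rw [Prod.mk.injEq] at h2
    exact h0 ⟨h2, h3⟩)
  refine ⟨cr (0, 0) (x', y') (x, y), ?_, ?_⟩
  · unfold cr
    simp only
    split_ifs with h2 h3
    · left
      refine ⟨⟨h2.1, ?_, h2.2.2⟩, rfl⟩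
      omega
    · exfalso
      omega
    · right
      refine ⟨?_, rfl⟩
      rintro ⟨h4, h5, h6⟩
      exact h2 ⟨h4, by omega, h6⟩
  · rcases h1 with h1 | h1
    · exact Or.inl h1
    · exact Or.inr (abs_sp h1)

/-- comparison of two vertices in rows `≥ 0` -/
theorem KU {W : Set (ℤ × ℤ)} {m : ℤ × ℤ → ℤ} (hg : Gau W m) {x y x' y' : ℤ}
    (h : (x, y) ∈ W) (h' : (x', y') ∈ W) (hy0 : 0 ≤ y) (hy0' : 0 ≤ y')
    (hy : y' = y ∨ y' = y + 1 ∨ y = y' + 1) :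
    (x = x' ∧ m (x', y') = m (x, y)) ∨
    (2 * (m (x', y') - m (x, y)) + 1 ≤ x' - x ∧ -(2 * (m (x', y') - m (x, y))) + 1 ≤ x' - x) ∨
    (2 * (m (x', y') - m (x, y)) + 1 ≤ -(x' - x) ∧
      -(2 * (m (x', y') - m (x, y))) + 1 ≤ -(x' - x)) := by
  rcases hy with hy | hy | hy
  · obtain ⟨c, h1, h2⟩ := K1 hg h h' (Or.inl hy) (by omega)
    have hc : c = 0 := by omega
    subst hc
    omega
  · obtain ⟨c, h1, h2⟩ := K1 hg h h' (Or.inr hy) (by omega)
    have hc : c = 0 := by omega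
    subst hc
    omega
  · obtain ⟨c, h1, h2⟩ := K1 hg h' h (Or.inr hy) (by omega)
    have hc : c = 0 := by omega
    subst hc
    omega

/-- the same row -/
theorem KS {W : Set (ℤ × ℤ)} {m : ℤ × ℤ → ℤ} (hg : Gau W m) {x y x' : ℤ}
    (h : (x, y) ∈ W) (h' : (x', y) ∈ W) :
    (x = x' ∧ m (x', y) = m (x, y)) ∨
    (2 * (m (x', y) - m (x, y)) + 1 ≤ x' - x ∧ -(2 * (m (x', y) - m (x, y))) + 1 ≤ x' - x) ∨
    (2 * (m (x', y) - m (x, y)) + 1 ≤ -(x' - x) ∧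
      -(2 * (m (x', y) - m (x, y))) + 1 ≤ -(x' - x)) := by
  obtain ⟨c, h1, h2⟩ := K1 hg h h' (Or.inl rfl) (by omega)
  have hc : c = 0 := by omega
  subst hc
  omega

/-- comparison with the origin -/
theorem K0 {W : Set (ℤ × ℤ)} {m : ℤ × ℤ → ℤ} (hg : Gau W m) (h0 : ((0 : ℤ), (0 : ℤ)) ∈ W)
    (hE : Evn W) {x : ℤ} (h : (x, 0) ∈ W) : (x = 0 ∧ m (x, 0) = 0) ∨
    (2 * m (x, 0) + 2 ≤ x ∧ -(2 * m (x, 0)) + 2 ≤ x) ∨
    (2 * m (x, 0) + 2 ≤ -x ∧ -(2 * m (x, 0)) + 2 ≤ -x) := by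
  have h1 := KS hg h0 h
  have h2 := hE _ h
  have h3 := hg.zero
  simp only at h2
  rw [h3] at h1
  omega

/-- comparison of two vertices in rows `≤ 0` with the lower gauge -/
theorem KL {W : Set (ℤ × ℤ)} {m : ℤ × ℤ → ℤ} (hg : Gau W m)
    (hE : Evn W) {x y x' y' : ℤ}
    (h : (x, y) ∈ W) (h' : (x', y') ∈ W) (hy0 : y ≤ 0) (hy0' : y' ≤ 0)
    (hn : ¬ (x = 0 ∧ y = 0)) (hn' : ¬ (x' = 0 ∧ y' = 0))
    (hy : y' = y ∨ y' = y + 1 ∨ y = y' + 1) :
    (x = x' ∧ kap m (x', y') = kap m (x, y)) ∨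
    (2 * (kap m (x', y') - kap m (x, y)) + 1 ≤ x' - x ∧
      -(2 * (kap m (x', y') - kap m (x, y))) + 1 ≤ x' - x) ∨
    (2 * (kap m (x', y') - kap m (x, y)) + 1 ≤ -(x' - x) ∧
      -(2 * (kap m (x', y') - kap m (x, y))) + 1 ≤ -(x' - x)) ∨
    (y = 0 ∧ y' = 0 ∧ ((2 ≤ x' ∧ x ≤ -2 ∧
      kap m (x', y') - kap m (x, y) + 2 ≤ x' - x) ∨ (x' ≤ -2 ∧ 2 ≤ x ∧
      kap m (x, y) - kap m (x', y') + 2 ≤ x - x'))) := by
  have k1 := kap_sp m x y
  have k2 := kap_sp m x' y'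
  have e1 := hE _ h
  have e2 := hE _ h'
  simp only at e1 e2
  rcases hy with hy | hy | hy
  · subst hy
    have h1 := KS hg h h'
    by_cases hz : y' = 0
    · subst hz
      omega
    · omega
  · obtain ⟨c, h1, h2⟩ := K1 hg h h' (Or.inr hy) (by omega)
    omega
  · obtain ⟨c, h1, h2⟩ := K1 hg h' h (Or.inr hy) (by omega)
    omega

end TDSQ

open TDSQ in
theorem t_DSQ : S_DSQ := by
  intro W m hE h0 hg
  refine ⟨?_, ?_, ?_, ?_, ?_, ?_⟩
  · rintro ⟨x, y⟩ ⟨x', y'⟩ s d hv hv' hc hc' hd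
    unfold Cnr at hc hc'
    simp only at hc hc'
    have e1 := hE _ hv
    have e2 := hE _ hv'
    simp only at e1 e2
    rcases dsq_sp m (x, y) s d with ⟨a1, a2⟩ | ⟨a1, a2⟩
    · rcases dsq_sp m (x', y') s d with ⟨b1, b2⟩ | ⟨b1, b2⟩
      · rw [a2, b2]
        have := KU hg hv hv' (by omega) (by omega) (by omega)
        have e : m (x', y') = m (x, y) := by omega
        rw [e]
      · omega
    · rcases dsq_sp m (x', y') s d with ⟨b1, b2⟩ | ⟨b1, b2⟩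
      · omega
      · rw [a2, b2]
        have n1 := pair_ne (hd a1).1
        have n2 := pair_ne (hd a1).2
        have := KL hg hE hv hv' (by omega) (by omega) n1 n2 (by omega)
        have e : kap m (x', y') = kap m (x, y) := by omega
        rw [e]
  · rintro ⟨x, y⟩ ⟨x', y'⟩ s d s' d' hv hv' hc hc' hd hd' heq
    unfold Cnr at hc hc'
    simp only at hc hc'
    rcases dsq_sp m (x, y) s d with ⟨a1, a2⟩ | ⟨a1, a2⟩
    · rcases dsq_sp m (x', y') s' d' with ⟨b1, b2⟩ | ⟨b1, b2⟩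
      · rw [a2, b2, Prod.mk.injEq] at heq
        obtain ⟨h1, rfl⟩ := heq
        have := KU hg hv hv' (by omega) (by omega) (by omega)
        omega
      · rw [a2, b2, Prod.mk.injEq] at heq
        omega
    · rcases dsq_sp m (x', y') s' d' with ⟨b1, b2⟩ | ⟨b1, b2⟩
      · rw [a2, b2, Prod.mk.injEq] at heq
        omega
      · rw [a2, b2, Prod.mk.injEq] at heq
        obtain ⟨h1, rfl⟩ := heq
        have n1 := pair_ne (hd a1)
        have n2 := pair_ne (hd' a1)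
        have := KL hg hE hv hv' (by omega) (by omega) n1 n2 (by omega)
        have u1 := unS_sp (s - kap m (x, y))
        have u2 := unS_sp (s' - kap m (x', y'))
        omega
  · rintro ⟨x, y⟩ ⟨x', y'⟩ hv hv' heq
    have hy : y = y' := by
      rcases Phi_sp m x y with ⟨a1, a2⟩ | ⟨a1, a2⟩ <;>
      rcases Phi_sp m x' y' with ⟨b1, b2⟩ | ⟨b1, b2⟩ <;>
      · rw [a2, b2, Prod.mk.injEq] at heq
        exact heq.2
    subst hy
    have h1 := KS hg hv hv'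
    have u1 := unK_sp (x - m (x, y))
    have u2 := unK_sp (x' - m (x', y))
    have hx : x = x' := by
      rcases Phi_sp m x y with ⟨a1, a2⟩ | ⟨a1, a2⟩ <;>
      rcases Phi_sp m x' y with ⟨b1, b2⟩ | ⟨b1, b2⟩ <;>
      · rw [a2, b2, Prod.mk.injEq] at heq
        omega
    rw [hx]
  · rintro ⟨x, y⟩ hv
    have key : y = 0 → x - m (x, y) ≠ 1 ∧ x - m (x, y) ≠ -1 := by
      rintro rfl
      have := K0 hg h0 hE hv
      omega
    rcases Phi_sp m x y with ⟨a1, a2⟩ | ⟨a1, a2⟩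
    · rw [a2]
      refine ⟨?_, ?_⟩
      · intro h
        rw [Prod.mk.injEq] at h
        exact (key h.2).2 h.1
      · intro h
        rw [Prod.mk.injEq] at h
        exact (key h.2).1 h.1
    · rw [a2]
      refine ⟨?_, ?_⟩ <;>
      · intro h
        rw [Prod.mk.injEq] at h
        omega
  · rintro ⟨x, y⟩ s d hv hc hd
    unfold Cnr at hc
    simp only at hc
    have k1 := kap_sp m x y
    have u1 := unS_sp (s - kap m (x, y))
    have u2 := unK_sp (x - m (x, y))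
    rcases dsq_sp m (x, y) s d with ⟨a1, a2⟩ | ⟨a1, a2⟩
    · rw [a2]
      refine ⟨rfl, by omega, ?_⟩
      simp only
      rcases nrm_sp d (s - m (x, y) + (x - s)) y with ⟨c1, c2⟩ | ⟨c1, c2⟩
      · omega
      · rw [c2]
        rcases Phi_sp m x y with ⟨b1, b2⟩ | ⟨b1, b2⟩
        · rw [b2, Prod.mk.injEq]
          exact ⟨by ring, rfl⟩
        · omega
    · rw [a2]
      have n1 := pair_ne (hd a1)
      have k0 : y = 0 → (2 ≤ x ∧ 2 ≤ x - m (x, y)) ∨ (x ≤ -2 ∧ x - m (x, y) ≤ -2) := by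
        rintro rfl
        have := K0 hg h0 hE hv
        omega
      refine ⟨rfl, by simp only; omega, ?_⟩
      simp only
      rcases nrm_sp d (unS (s - kap m (x, y)) + (x - s)) y with ⟨c1, c2⟩ | ⟨c1, c2⟩
      · rw [c2]
        rcases Phi_sp m x y with ⟨b1, b2⟩ | ⟨b1, b2⟩
        · rw [b2, Prod.mk.injEq]
          refine ⟨?_, rfl⟩
          have := k0 (by omega)
          omega
        · rw [b2, Prod.mk.injEq]
          refine ⟨?_, rfl⟩
          omega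
      · rw [c2]
        rcases Phi_sp m x y with ⟨b1, b2⟩ | ⟨b1, b2⟩
        · rw [b2, Prod.mk.injEq]
          refine ⟨?_, rfl⟩
          have := k0 (by omega)
          omega
        · rw [b2, Prod.mk.injEq]
          refine ⟨?_, rfl⟩
          omega
  · rintro ⟨x, y⟩ s' d i k hv hi hk hs heq
    have k1 := kap_sp m x y
    have u1 := unS_sp (x - i - kap m (x, y))
    have u2 := unK_sp (x - m (x, y))
    have k0 : y = 0 → (x = 0 ∧ m (x, y) = 0) ∨ (2 ≤ x ∧ 2 ≤ x - m (x, y)) ∨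
        (x ≤ -2 ∧ x - m (x, y) ≤ -2) := by
      rintro rfl
      have := K0 hg h0 hE hv
      omega
    have hy : y = d + k := by
      rcases nrm_sp d (s' + i) (d + k) with ⟨c1, c2⟩ | ⟨c1, c2⟩ <;>
      rcases Phi_sp m x y with ⟨b1, b2⟩ | ⟨b1, b2⟩ <;>
      · rw [c2, b2, Prod.mk.injEq] at heq
        exact heq.2.symm
    have hn : d < 0 → ¬ (x = 0 ∧ y = 0) := by
      rintro hd ⟨hx0, hy0⟩
      rcases nrm_sp d (s' + i) (d + k) with ⟨c1, c2⟩ | ⟨c1, c2⟩ <;>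
      rcases Phi_sp m x y with ⟨b1, b2⟩ | ⟨b1, b2⟩ <;>
      · rw [c2, b2, Prod.mk.injEq] at heq
        have := k0 hy0
        omega
    refine ⟨x - i, by simp, hy, fun hd h => ?_, ?_⟩
    · rw [Prod.mk.injEq] at h
      exact hn hd h
    · rcases dsq_sp m (x, y) (x - i) d with ⟨a1, a2⟩ | ⟨a1, a2⟩
      · rw [a2, Prod.mk.injEq]
        refine ⟨?_, rfl⟩
        rcases nrm_sp d (s' + i) (d + k) with ⟨c1, c2⟩ | ⟨c1, c2⟩
        · omega
        · rcases Phi_sp m x y with ⟨b1, b2⟩ | ⟨b1, b2⟩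
          · rw [c2, b2, Prod.mk.injEq] at heq
            omega
          · omega
      · rw [a2, Prod.mk.injEq]
        refine ⟨?_, rfl⟩
        have hn := hn a1
        rcases nrm_sp d (s' + i) (d + k) with ⟨c1, c2⟩ | ⟨c1, c2⟩
        · rcases Phi_sp m x y with ⟨b1, b2⟩ | ⟨b1, b2⟩
          · rw [c2, b2, Prod.mk.injEq] at heq
            have := k0 (by omega)
            omega
          · rw [c2, b2, Prod.mk.injEq] at heq
            omega
        · rcases Phi_sp m x y with ⟨b1, b2⟩ | ⟨b1, b2⟩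
          · rw [c2, b2, Prod.mk.injEq] at heq
            have := k0 (by omega)
            omega
          · rw [c2, b2, Prod.mk.injEq] at heq
            omega

end Pool.Agent.W801.OS
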