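import Pool.Agent.W801.OS.Stm

/-!
# Existence and boundedness of the gauge
-/

set_option autoImplicit false

namespace Pool.Agent.W801.OS

namespace GauPriv

theorem cr_swap (p u v : ℤ × ℤ) : cr p v u = - cr p u v := by
  unfold cr
  split_ifs <;> omega

theorem cr_self (p v : ℤ × ℤ) : cr p v v = 0 := by
  unfold cr
  split_ifs <;> omega

theorem ok_symm {u v : ℤ × ℤ} (h : Ok2 u v) : Ok2 v u := by
  obtain ⟨⟨h1, h2⟩, h3, h4⟩ := h
  exact ⟨⟨by omega, by omega⟩, h4, h3⟩

theorem app {W : Set (ℤ × ℤ)} {u v w : ℤ × ℤ} {φ ψ : ℤ × ℤ → ℤ} (h1 : Ch W u v φ)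
    (h2 : Ch W v w ψ) : Ch W u w (fun p => φ p + ψ p) := by
  induction h2 with
  | nil hu =>
    have e : (fun p => φ p + 0) = φ := by funext p; simp
    rw [e]
    exact h1
  | cons b c χ _ hc hok ih =>
    have e : (fun p => φ p + (χ p + cr p b c)) = fun p => (φ p + χ p) + cr p b c := by
      funext p; ring
    rw [e]
    exact Ch.cons _ _ _ _ ih hc hok

theorem mem_r {W : Set (ℤ × ℤ)} {u v : ℤ × ℤ} {φ : ℤ × ℤ → ℤ} (h : Ch W u v φ) : v ∈ W := by
  cases h with
  | nil hu => exact hu
  | cons _ _ _ _ hc _ => exact hc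

theorem rev {W : Set (ℤ × ℤ)} {u v : ℤ × ℤ} {φ : ℤ × ℤ → ℤ} (h : Ch W u v φ) :
    Ch W v u (fun p => - φ p) := by
  induction h with
  | nil hu =>
    have e : (fun _ : ℤ × ℤ => - (0 : ℤ)) = fun _ => 0 := by funext p; simp
    rw [e]
    exact Ch.nil u hu
  | cons b c χ h1 hc hok ih =>
    have h2 : Ch W c b (fun p => (fun _ => (0 : ℤ)) p + cr p c b) :=
      Ch.cons c c b (fun _ => 0) (Ch.nil c hc) (mem_r h1) (ok_symm hok)
    have h3 := app h2 ih
    have e : (fun p => - (χ p + cr p b c)) =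
        fun p => ((fun _ => (0 : ℤ)) p + cr p c b) + - χ p := by
      funext p
      rw [cr_swap p b c]
      ring
    rw [e]
    exact h3

end GauPriv

open GauPriv

theorem t_GAU : S_KL → S_GAU := by
  classical
  intro hKL W hE hC hcon
  obtain ⟨h0, hw⟩ := hcon
  choose Φ hΦ using hw
  obtain ⟨m, hm⟩ : ∃ m : ℤ × ℤ → ℤ, ∀ v (h : v ∈ W), m v = Φ v h (0, 0) :=
    ⟨fun v => if h : v ∈ W then Φ v h (0, 0) else 0, fun v h => by simp only [dif_pos h]⟩
  have uniq : ∀ (v : ℤ × ℤ) (ψ : ℤ × ℤ → ℤ), Ch W (0, 0) v ψ → ψ (0, 0) = m v := by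
    intro v ψ hψ
    have hv := mem_r hψ
    have h1 := app (rev (hΦ v hv)) hψ
    rcases hKL W hE hC v v _ h1 (Or.inl rfl) (by
      rintro ⟨h2, h3⟩
      rw [h2] at h3
      simp at h3) with ⟨_, h2⟩ | h2
    · rw [cr_self] at h2
      rw [hm v hv]
      linarith
    · rw [sub_self, abs_zero] at h2
      have := abs_nonneg (-Φ v hv (0, 0) + ψ (0, 0) + cr (0, 0) v v)
      linarith
  refine ⟨m, ⟨?_, ?_, ?_⟩⟩
  · exact (uniq (0, 0) _ (Ch.nil _ h0)).symm
  · intro u v hu hv hok
    have h1 := uniq v _ (Ch.cons _ _ _ _ (hΦ u hu) hv hok)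
    rw [← h1, hm u hu]
  · intro a b ha hb hrow hne
    have h1 := app (rev (hΦ a ha)) (hΦ b hb)
    have h2 := hKL W hE hC a b _ h1 hrow hne
    rw [hm a ha, hm b hb]
    have e : -Φ a ha (0, 0) + Φ b hb (0, 0) + cr (0, 0) b a =
        Φ b hb (0, 0) - Φ a ha (0, 0) + cr (0, 0) b a := by ring
    simp only [e] at h2
    exact h2

theorem t_GB : S_GB := by
  intro W m R hE hcon hG hR hb
  obtain ⟨h0, hw⟩ := hcon
  have row0 : ∀ v ∈ W, v.2 = 0 → |m v| ≤ R ∧ |kap m v| ≤ R := by
    intro v hv h2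
    by_cases hv0 : v = (0, 0)
    · subst hv0
      unfold kap
      rw [hG.zero]
      simp
      omega
    · have h3 := hG.kl (0, 0) v h0 hv (Or.inl h2) (fun h => hv0 h.1)
      have h4 : cr (0, 0) v (0, 0) = 0 := by
        unfold cr
        simp only
        split_ifs <;> omega
      rw [h4, hG.zero] at h3
      rcases h3 with ⟨h5, _⟩ | h5
      · exfalso
        apply hv0
        apply Prod.ext
        · exact h5.symm
        · exact h2
      · have h6 := hb v hv
        simp only [sub_zero, add_zero] at h5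
        have h7 : |m v| + 1 ≤ R := by omega
        refine ⟨by omega, ?_⟩
        unfold kap
        split_ifs
        · refine (abs_add_le _ _).trans ?_
          rw [abs_one]
          exact h7
        · rw [add_zero]
          omega
  have key : ∀ (v : ℤ × ℤ) (φ : ℤ × ℤ → ℤ), Ch W (0, 0) v φ → |m v| ≤ R ∧ |kap m v| ≤ R := by
    intro v φ h
    induction h with
    | nil hu => exact row0 _ hu rfl
    | cons u w χ h1 hw' hok ih =>
      have ih' := ih
      have hu := mem_r h1
      by_cases h2 : w.2 = 0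
      · exact row0 w hw' h2
      · have h3 := hG.step u w hu hw' hok
        have hk : kap m w = m w := by
          unfold kap
          rw [if_neg (fun h => h2 h.1), add_zero]
        rw [hk]
        have h4 : m w = m u ∨ m w = kap m u := by
          unfold kap
          unfold cr at h3
          simp only at h3
          split_ifs at h3 ⊢ <;> omega
        rcases h4 with h4 | h4
        · rw [h4]
          exact ⟨ih'.1, ih'.1⟩
        · rw [h4]
          exact ⟨ih'.2, ih'.2⟩
  intro v hv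
  obtain ⟨φ, hφ⟩ := hw v hv
  exact key v φ hφ

end Pool.Agent.W801.OS
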