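import Pool.Agent.W801.OS.Stm2
import Pool.Agent.H974R2.Split

/-!
# From annuli of inner radius one to the origin
(proof of `S_TIP`)
-/

set_option autoImplicit false

namespace Pool.Agent.W801.OS
open H974 H906.Cyl H12S Finset
open Pool.Agent.H160R2.ML (nm)
open Pool.Agent.W801.OU (RZ LZ Dg nrm zp Cor scz bxz SE3 uR S_UR3 S_TRIc)
open Pool.Agent.W424.OD (A3v)

namespace TipAux

theorem nm_le {v : Vtx} {r : ℤ} : nm v ≤ r ↔ (-r ≤ v.1 ∧ v.1 ≤ r) ∧ (-r ≤ v.2 ∧ v.2 ≤ r) := by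
  unfold nm
  rw [max_le_iff, abs_le, abs_le]

theorem nm_eq {v : Vtx} {r : ℤ} (hr : 0 ≤ r) : nm v = r ↔ ((-r ≤ v.1 ∧ v.1 ≤ r) ∧ (-r ≤ v.2 ∧ v.2 ≤ r)) ∧
    (v.1 = -r ∨ v.1 = r ∨ v.2 = -r ∨ v.2 = r) := by
  rw [le_antisymm_iff, nm_le]
  refine and_congr_right fun h => ?_
  unfold nm
  rw [le_max_iff, le_abs, le_abs]
  omega

/-- edges of the box of radius `R` around `w` -/
def bx (w : Vtx) (R : ℤ) : Set Edg :=
  {e | nm ((src e).1 - w.1, (src e).2 - w.2) ≤ R ∧ nm ((tgt e).1 - w.1, (tgt e).2 - w.2) ≤ R}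

theorem mem_bx {w : Vtx} {R : ℤ} {e : Edg} :
    e ∈ bx w R ↔ e ∈ RE (w.1 - R) (w.1 + R) (w.2 - R) (w.2 + R) := by
  obtain ⟨x, y, _ | _⟩ := e
  · simp only [bx, Set.mem_setOf_eq, nm_le, src_mk, tgt_false, mem_RE_false]
    omega
  · simp only [bx, Set.mem_setOf_eq, nm_le, src_mk, tgt_true, mem_RE_true]
    omega

theorem mem_bxz {R : ℤ} {e : Edg} : e ∈ bxz R ↔ e ∈ bx (0, 0) R := by
  obtain ⟨x, y, _ | _⟩ := e <;> simp [bxz, bx]

theorem bxz_coe {R : ℕ} : bxz R = (↑(boxE R) : Set Edg) := by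
  ext e
  rw [mem_bxz, mem_bx, Finset.mem_coe, boxE]
  simp

/-! ## composition of symmetries -/

/-- composition -/
def cmp (g h : LSym) : LSym where
  φ := h.φ.trans g.φ
  ψ := h.ψ.trans g.ψ
  compat := by
    intro e
    have h1 := h.compat e
    have h2 := g.compat (h.φ e)
    simp only [Equiv.trans_apply]
    rcases h1 with ⟨a, b⟩ | ⟨a, b⟩ <;> rcases h2 with ⟨c, d⟩ | ⟨c, d⟩ <;> rw [a] at * <;> rw [b] at * <;>
      simp [c, d]

/-- sends `w` to the origin and preserves the distances -/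
structure Nice (g : LSym) (w : Vtx) : Prop where
  zero : g.ψ w = (0, 0)
  dist : ∀ v, nm (g.ψ v) = nm (v.1 - w.1, v.2 - w.2)

theorem nice_edge {g : LSym} {w : Vtx} (hg : Nice g w) (R : ℤ) (e : Edg) :
    g.φ e ∈ bxz R ↔ e ∈ bx w R := by
  unfold bxz bx
  simp only [Set.mem_setOf_eq]
  rcases g.compat e with ⟨h1, h2⟩ | ⟨h1, h2⟩
  · rw [h1, h2, hg.dist, hg.dist]
  · rw [h1, h2, hg.dist, hg.dist, and_comm]

theorem nice_inter {g : LSym} {w : Vtx} (hg : Nice g w) (R : ℤ) (F : Set Edg) :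
    (g.φ '' F) ∩ bxz R = g.φ '' (F ∩ bx w R) := by
  ext e
  constructor
  · rintro ⟨⟨e', he', rfl⟩, h⟩
    exact ⟨e', ⟨he', (nice_edge hg R e').mp h⟩, rfl⟩
  · rintro ⟨e', ⟨he', h⟩, rfl⟩
    exact ⟨⟨e', he', rfl⟩, (nice_edge hg R e').mpr h⟩

/-- the three arm event at `w` -/
theorem transport {g : LSym} {w : Vtx} (hg : Nice g w) (R : ℤ) (F : Set Edg) (p : Vtx)
    (h1 : g.φ.symm (0, 0, false) ∉ F) (h2 : g.φ.symm (-1, 0, true) ∉ F)
    (hp : g.ψ p = (0, 1) ∨ g.ψ p = (-1, 0))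
    (h3 : ∃ v : Vtx, nm (v.1 - w.1, v.2 - w.2) = R ∧ Reach (F ∩ bx w R) w v)
    (h4 : ¬ Reach (F ∩ bx w R) w p)
    (h5 : ∃ q : Vtx, nm (q.1 - w.1, q.2 - w.2) = R ∧
      Reach {e | e ∈ bx w R ∧ ¬ Reach (F ∩ bx w R) w (src e) ∧ ¬ Reach (F ∩ bx w R) w (tgt e)} p q) :
    T3 R (g.φ '' F) := by
  have key : ∀ v, Reach (g.φ '' F ∩ bxz R) (0, 0) (g.ψ v) ↔ Reach (F ∩ bx w R) w v := by
    intro v
    rw [nice_inter hg, ← hg.zero, g.reach_iff]
  refine ⟨⟨?_, ?_⟩, ?_, ?_⟩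
  · rintro ⟨e, he, h⟩
    apply h1
    rw [← h]
    simpa using he
  · rintro ⟨e, he, h⟩
    apply h2
    rw [← h]
    simpa using he
  · obtain ⟨v, hv, hr⟩ := h3
    exact ⟨g.ψ v, by rw [hg.dist]; exact hv, (key v).mpr hr⟩
  · obtain ⟨q, hq, hr⟩ := h5
    refine ⟨g.ψ p, g.ψ q, hp, by rw [hg.dist]; exact hq, fun h => h4 ((key p).mp h), ?_⟩
    refine (g.reach hr).mono ?_
    rintro _ ⟨e, ⟨he1, he2, he3⟩, rfl⟩
    refine ⟨(nice_edge hg R e).mpr he1, ?_⟩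
    rcases g.compat e with ⟨k1, k2⟩ | ⟨k1, k2⟩
    · rw [k1, k2, key, key]
      exact ⟨he2, he3⟩
    · rw [k1, k2, key, key]
      exact ⟨he3, he2⟩

/-! ## the ring -/

/-- the ring around the origin -/
def rg (m : Fin 8) : Vtx :=
  match m with
  | 0 => (1, 0) | 1 => (1, 1) | 2 => (0, 1) | 3 => (-1, 1)
  | 4 => (-1, 0) | 5 => (-1, -1) | 6 => (0, -1) | 7 => (1, -1)

/-- the ring around `c` -/
def ri (c : Vtx) (m : Fin 8) : Vtx := (c.1 + (rg m).1, c.2 + (rg m).2)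

/-- the symmetry -/
def sy (c : Vtx) (m : Fin 8) : LSym :=
  match m with
  | 0 => cmp (rfy (ri c 0).2) (trl (-(ri c 0).1) 0)
  | 1 => cmp (rfy (ri c 1).2) (trl (-(ri c 1).1) 0)
  | 2 => cmp (rfy (ri c 2).2) (rfx (ri c 2).1)
  | 3 => cmp (rfy (ri c 3).2) (rfx (ri c 3).1)
  | 4 => cmp (rfx (ri c 4).1) (trl 0 (-(ri c 4).2))
  | 5 => cmp (rfx (ri c 5).1) (trl 0 (-(ri c 5).2))
  | 6 => trl (-(ri c 6).1) (-(ri c 6).2)
  | 7 => trl (-(ri c 7).1) (-(ri c 7).2)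

theorem sy_nice (c : Vtx) (m : Fin 8) : Nice (sy c m) (ri c m) := by
  constructor
  · fin_cases m <;> simp [sy, cmp, ri, rg]
  · rintro ⟨a, b⟩
    have e1 : ∀ x y : ℤ, |x - y| = |y - x| := fun x y => abs_sub_comm x y
    fin_cases m
    · change max |a + -(ri c 0).1| |(ri c 0).2 - (b + 0)| = max |a - (ri c 0).1| |b - (ri c 0).2|
      rw [add_zero, e1 (ri c 0).2 b, ← sub_eq_add_neg]
    · change max |a + -(ri c 1).1| |(ri c 1).2 - (b + 0)| = max |a - (ri c 1).1| |b - (ri c 1).2|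
      rw [add_zero, e1 (ri c 1).2 b, ← sub_eq_add_neg]
    · change max |(ri c 2).1 - a| |(ri c 2).2 - b| = max |a - (ri c 2).1| |b - (ri c 2).2|
      rw [e1 (ri c 2).1 a, e1 (ri c 2).2 b]
    · change max |(ri c 3).1 - a| |(ri c 3).2 - b| = max |a - (ri c 3).1| |b - (ri c 3).2|
      rw [e1 (ri c 3).1 a, e1 (ri c 3).2 b]
    · change max |(ri c 4).1 - (a + 0)| |b + -(ri c 4).2| = max |a - (ri c 4).1| |b - (ri c 4).2|
      rw [add_zero, e1 (ri c 4).1 a, ← sub_eq_add_neg]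
    · change max |(ri c 5).1 - (a + 0)| |b + -(ri c 5).2| = max |a - (ri c 5).1| |b - (ri c 5).2|
      rw [add_zero, e1 (ri c 5).1 a, ← sub_eq_add_neg]
    · change max |a + -(ri c 6).1| |b + -(ri c 6).2| = max |a - (ri c 6).1| |b - (ri c 6).2|
      rw [← sub_eq_add_neg, ← sub_eq_add_neg]
    · change max |a + -(ri c 7).1| |b + -(ri c 7).2| = max |a - (ri c 7).1| |b - (ri c 7).2|
      rw [← sub_eq_add_neg, ← sub_eq_add_neg]


theorem sy_zero (c : Vtx) (m : Fin 8) : (sy c (m + 1)).ψ (ri c m) = (0, 1) ∨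
    (sy c (m + 1)).ψ (ri c m) = (-1, 0) := by
  fin_cases m <;> simp [sy, cmp, ri, rg]

theorem sy_e1 (c : Vtx) (m : Fin 8) : (sy c m).φ.symm (0, 0, false) ∈ blk c 1 := by
  fin_cases m <;> simp [sy, cmp, ri, rg, blk] <;> omega

theorem sy_e2 (c : Vtx) (m : Fin 8) : (sy c m).φ.symm (-1, 0, true) ∈ blk c 1 := by
  fin_cases m <;> simp [sy, cmp, ri, rg, blk] <;> omega

/-- the edges of the ring -/
def re (c : Vtx) (m : Fin 8) : Edg :=
  match m with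
  | 0 => (c.1 + 1, c.2, false) | 1 => (c.1, c.2 + 1, true) | 2 => (c.1 - 1, c.2 + 1, true)
  | 3 => (c.1 - 1, c.2, false) | 4 => (c.1 - 1, c.2 - 1, false) | 5 => (c.1 - 1, c.2 - 1, true)
  | 6 => (c.1, c.2 - 1, true) | 7 => (c.1 + 1, c.2 - 1, false)

theorem re_mem (c : Vtx) (m : Fin 8) : re c m ∈ blk c 1 := by
  fin_cases m <;> simp [re, blk] <;> omega

theorem re_ends (c : Vtx) (m : Fin 8) : (src (re c m) = ri c m ∧ tgt (re c m) = ri c (m + 1)) ∨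
    (src (re c m) = ri c (m + 1) ∧ tgt (re c m) = ri c m) := by
  fin_cases m <;> simp [re, ri, rg] <;> omega

theorem ring_all {c v : Vtx} (h : v ∈ bdB c 1) : ∃ m, v = ri c m := by
  obtain ⟨a, b⟩ := v
  simp only [bdB, Set.mem_setOf_eq, abs_le, Nat.cast_one, abs_eq (zero_le_one' ℤ)] at h
  have h1 : a - c.1 = -1 ∨ a - c.1 = 0 ∨ a - c.1 = 1 := by omega
  have h2 : b - c.2 = -1 ∨ b - c.2 = 0 ∨ b - c.2 = 1 := by omega
  rcases h1 with h1 | h1 | h1 <;> rcases h2 with h2 | h2 | h2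
  · exact ⟨5, by simp [ri, rg]; omega⟩
  · exact ⟨4, by simp [ri, rg]; omega⟩
  · exact ⟨3, by simp [ri, rg]; omega⟩
  · exact ⟨6, by simp [ri, rg]; omega⟩
  · omega
  · exact ⟨2, by simp [ri, rg]; omega⟩
  · exact ⟨7, by simp [ri, rg]; omega⟩
  · exact ⟨0, by simp [ri, rg]; omega⟩
  · exact ⟨1, by simp [ri, rg]; omega⟩

theorem walk (P Q : Fin 8 → Prop) (i0 j0 : Fin 8) (h0 : ¬ P i0) (hj : P j0) (hq : Q i0)
    (hs : ∀ m, Q m → ¬ P m → ¬ P (m + 1) → Q (m + 1)) : ∃ m, P (m + 1) ∧ ¬ P m ∧ Q m := by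
  by_contra hne
  have key : ∀ n : ℕ, ¬ P (i0 + Fin.ofNat 8 n) ∧ Q (i0 + Fin.ofNat 8 n) := by
    intro n
    induction n with
    | zero =>
      have e : i0 + Fin.ofNat 8 0 = i0 := by
        change i0 + 0 = i0
        rw [add_zero]
      rw [e]
      exact ⟨h0, hq⟩
    | succ n ih =>
      have e : i0 + Fin.ofNat 8 (n + 1) = (i0 + Fin.ofNat 8 n) + 1 := by
        rw [add_assoc]
        congr 1
        apply Fin.ext
        simp [Fin.ofNat, Fin.val_add]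
      rw [e]
      have h1 : ¬ P (i0 + Fin.ofNat 8 n + 1) := fun h => hne ⟨_, h, ih.1, ih.2⟩
      exact ⟨h1, hs _ ih.2 ih.1 h1⟩
  have h2 := (key (j0 - i0).val).1
  have e : i0 + Fin.ofNat 8 (j0 - i0).val = j0 := by
    have : Fin.ofNat 8 (j0 - i0).val = j0 - i0 := by
      apply Fin.ext
      simp [Fin.ofNat]
    rw [this, add_sub_cancel]
  rw [e] at h2
  exact h2 hj

theorem ri_near (c : Vtx) (m : Fin 8) : (-1 ≤ (ri c m).1 - c.1 ∧ (ri c m).1 - c.1 ≤ 1) ∧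
    (-1 ≤ (ri c m).2 - c.2 ∧ (ri c m).2 - c.2 ≤ 1) := by
  fin_cases m <;> simp [ri, rg]

theorem bx_coe (w : Vtx) (R : ℤ) : bx w R = ↑(RE (w.1 - R) (w.1 + R) (w.2 - R) (w.2 + R)) := by
  ext e
  rw [mem_bx, Finset.mem_coe]

/-- first exit of a box around `w` -/
theorem exit {G : Set Edg} {w v : Vtx} {R k : ℕ} {c z : Vtx} (hz : (-(R : ℤ) ≤ z.1 - w.1 ∧ z.1 - w.1 ≤ R) ∧
    (-(R : ℤ) ≤ z.2 - w.2 ∧ z.2 - w.2 ≤ R)) (hk : R + 1 = k)
    (hw : (-1 ≤ w.1 - c.1 ∧ w.1 - c.1 ≤ 1) ∧ (-1 ≤ w.2 - c.2 ∧ w.2 - c.2 ≤ 1))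
    (hv : v ∈ bdB c k) (h : Reach G z v) :
    ∃ q : Vtx, nm (q.1 - w.1, q.2 - w.2) = R ∧ Reach (G ∩ bx w R) z q := by
  obtain ⟨a, b⟩ := v
  simp only [bdB, Set.mem_setOf_eq, abs_le, abs_eq (Int.natCast_nonneg k)] at hv
  obtain ⟨q, h1, h2, h3⟩ := first_exit (a := w.1 - R) (b := w.1 + R) (c := w.2 - R) (d := w.2 + R)
    (by unfold inR; omega) h (by simp only; omega)
  refine ⟨q, ?_, ?_⟩
  · rw [nm_eq (Int.natCast_nonneg R)]
    unfold inR at h1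
    simp only
    omega
  · rw [bx_coe]
    exact h3

theorem det (c : Vtx) (k : ℕ) (hk : 2 ≤ k) (F : Set Edg) (hF : ∀ e ∈ F, e ∉ blk c 1)
    (h : A3v c 1 k F) : ∃ m : Fin 8, T3 ((k - 1 : ℕ) : ℤ) ((sy c m).φ '' F) := by
  obtain ⟨u, hu, ⟨w0, hw0, hw0u⟩, x, hx, y, hy, hxy⟩ := h
  obtain ⟨R, rfl⟩ : ∃ R, k = R + 1 := ⟨k - 1, by omega⟩
  have hR : 1 ≤ R := by omega
  rw [Nat.add_sub_cancel]
  set K : Set Vtx := Pool.Agent.W424.OD.Cl c 1 (R + 1) F u with hK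
  have hKu : u ∈ K := Reach.refl _ _
  have hxK : x ∉ K := by
    rcases Relation.ReflTransGen.cases_head hxy with h | ⟨z, ⟨e, he, he'⟩, _⟩
    · exfalso
      rw [← h] at hy
      simp only [bdB, Set.mem_setOf_eq, Nat.cast_one, abs_le, abs_eq (zero_le_one' ℤ),
        abs_eq (Int.natCast_nonneg (R + 1))] at hx hy
      push_cast at hy
      omega
    · rcases he' with ⟨a, b⟩ | ⟨a, b⟩
      · rw [← a]; exact he.2.1
      · rw [← b]; exact he.2.2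
  set N : Set Edg := {e | e ∈ blk c (R + 1) ∧ src e ∉ K ∧ tgt e ∉ K} with hN
  have hb1 : blk c 1 ⊆ blk c (R + 1) := by
    unfold blk
    apply RE_subset <;> push_cast <;> omega
  have hNy : Reach N x y := by
    refine hxy.mono ?_
    rintro e ⟨h1, h2, h3⟩
    exact ⟨(Finset.mem_sdiff.mp h1).1, h2, h3⟩
  obtain ⟨i0, rfl⟩ := ring_all hx
  obtain ⟨j0, rfl⟩ := ring_all hu
  obtain ⟨m, hm1, hm2, hm3⟩ := walk (fun m => ri c m ∈ K) (fun m => Reach N (ri c m) (ri c i0)) i0 j0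
    hxK hKu (Reach.refl _ _) (by
      intro m h1 h2 h3
      refine Reach.trans (H974.Adj.reach ?_) h1
      refine ⟨re c m, ⟨hb1 (re_mem c m), ?_⟩, ?_⟩
      · rcases re_ends c m with ⟨a, b⟩ | ⟨a, b⟩
        · rw [a, b]; exact ⟨h2, h3⟩
        · rw [a, b]; exact ⟨h3, h2⟩
      · exact (re_ends c m).symm)
  refine ⟨m + 1, ?_⟩
  have hw := ri_near c (m + 1)
  -- clusters in the small box are contained in `K`
  have hcl : ∀ v, Reach (F ∩ bx (ri c (m + 1)) R) (ri c (m + 1)) v → v ∈ K := by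
    intro v hv
    refine Reach.trans hm1 (hv.mono ?_)
    rintro e ⟨he1, he2⟩
    refine ⟨he1, ?_⟩
    rw [mem_bx] at he2
    unfold Pool.Agent.W424.OD.AE
    rw [Finset.mem_coe, Finset.mem_sdiff]
    refine ⟨?_, hF e he1⟩
    unfold blk
    refine RE_subset ?_ ?_ ?_ ?_ he2 <;> push_cast <;> omega
  refine transport (sy_nice c (m + 1)) R F (ri c m) (fun h => hF _ h (sy_e1 c _))
    (fun h => hF _ h (sy_e2 c _)) (sy_zero c m) ?_ (fun h => hm2 (hcl _ h)) ?_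
  · have h1 : Reach F (ri c (m + 1)) w0 :=
      (Reach.trans (Reach.symm hm1) hw0u).mono Set.inter_subset_left
    exact exit (by omega) rfl hw hw0 h1
  · have h1 : Reach N (ri c m) y := hm3.trans hNy
    have hp := ri_near c m
    have hpw : (-1 ≤ (ri c m).1 - (ri c (m + 1)).1 ∧ (ri c m).1 - (ri c (m + 1)).1 ≤ 1) ∧
        (-1 ≤ (ri c m).2 - (ri c (m + 1)).2 ∧ (ri c m).2 - (ri c (m + 1)).2 ≤ 1) := by
      fin_cases m <;> simp [ri, rg]
    obtain ⟨q, hq1, hq2⟩ := exit (w := ri c (m + 1)) (R := R) (by omega) rfl hw hy h1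
    refine ⟨q, hq1, hq2.mono ?_⟩
    rintro e ⟨⟨_, he1, he2⟩, he3⟩
    exact ⟨he3, fun h => he1 (hcl _ h), fun h => he2 (hcl _ h)⟩

/-! ## probabilities -/

theorem T3_local {R : ℤ} (hR : 1 ≤ R) (F : Set Edg) : T3 R F ↔ T3 R (F ∩ bxz R) := by
  have e1 : (F ∩ bxz R) ∩ bxz R = F ∩ bxz R := by rw [Set.inter_assoc, Set.inter_self]
  have m1 : (((0 : ℤ), (0 : ℤ), false) : Edg) ∈ bxz R := by
    simp [bxz, nm]; omega
  have m2 : (((-1 : ℤ), (0 : ℤ), true) : Edg) ∈ bxz R := by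
    simp [bxz, nm]; omega
  unfold T3
  rw [e1]
  simp only [Set.mem_inter_iff, m1, m2, and_true]

theorem A3v_local (c : Vtx) (k : ℕ) (F : Set Edg) :
    A3v c 1 k F ↔ A3v c 1 k (F ∩ ↑(blk c k \ blk c 1)) := by
  have : ∀ u, Pool.Agent.W424.OD.Cl c 1 k (F ∩ ↑(blk c k \ blk c 1)) u =
      Pool.Agent.W424.OD.Cl c 1 k F u := by
    intro u
    unfold Pool.Agent.W424.OD.Cl Pool.Agent.W424.OD.AE
    rw [Set.inter_assoc, Set.inter_self]
  unfold A3v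
  simp only [this]

theorem pr_empty (T : Finset Edg) :
    Pr (fun _ => (1 / 2 : ℝ)) T (fun F => F = ∅) = (1 / 2 : ℝ) ^ T.card := by
  unfold Pr Ex
  rw [Finset.sum_eq_single (∅ : Finset Edg)]
  · simp only [Finset.prod_empty, Finset.sdiff_empty, Finset.prod_const, ind_of, one_mul, mul_one]
    norm_num
  · intro F _ hF
    simp only [ind_not_of hF, mul_zero]
  · intro h
    exact absurd (Finset.empty_mem_powerset T) h

theorem card_blk (c : Vtx) : (blk c 1).card = (RE (-1) 1 (-1) 1).card := by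
  have : blk c 1 = (trl c.1 c.2).mp (RE (-1) 1 (-1) 1) := by
    rw [trl_RE]
    unfold blk
    push_cast
    congr 1 <;> ring
  rw [this]
  exact Finset.card_map _

theorem okh : H974.Ok (fun _ : Edg => (1 / 2 : ℝ)) := okq (by norm_num) (by norm_num)

theorem t3_le {c : Vtx} {k : ℕ} (hk : 2 ≤ k) {S : Finset Edg} (hS : blk c k ⊆ S) (m : Fin 8) :
    Pr (fun _ => (1 / 2 : ℝ)) S (fun F => T3 ((k - 1 : ℕ) : ℤ) (↑((sy c m).mp F) : Set Edg)) =
      Pr (fun _ => (1 / 2 : ℝ)) (boxE (k - 1)) (fun F => T3 ((k - 1 : ℕ) : ℤ) (↑F : Set Edg)) := by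
  rw [← LSym.pr (sy c m) (1 / 2) S (fun F => T3 ((k - 1 : ℕ) : ℤ) (↑F : Set Edg))]
  apply Pr_local
  · intro e he
    rw [LSym.mem_mp]
    apply hS
    have h1 : e ∈ bxz ((k - 1 : ℕ) : ℤ) := by rw [bxz_coe]; exact he
    have h2 : (sy c m).φ ((sy c m).φ.symm e) ∈ bxz ((k - 1 : ℕ) : ℤ) := by
      rw [Equiv.apply_symm_apply]; exact h1
    rw [nice_edge (sy_nice c m), mem_bx] at h2
    have hw := ri_near c m
    unfold blk
    have hk' : (((k - 1 : ℕ) : ℤ)) + 1 = k := by omega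
    refine RE_subset ?_ ?_ ?_ ?_ h2 <;> omega
  · intro F _
    rw [T3_local (by omega), bxz_coe, Finset.coe_inter]

end TipAux

open TipAux in
/-- **from annuli of inner radius `1` to the origin** -/
theorem t_TIP : S_TIP := by
  refine ⟨2 ^ (RE (-1) 1 (-1) 1).card * 8, by positivity, ?_⟩
  intro c k hk S hS
  set P := Pr (fun _ => (1 / 2 : ℝ)) (boxE (k - 1)) (fun F => T3 (k - 1 : ℕ) (↑F : Set Edg)) with hP
  have hb1 : blk c 1 ⊆ blk c k := by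
    unfold blk
    apply RE_subset <;> push_cast <;> omega
  -- independence
  have h1 : Pr (fun _ => (1 / 2 : ℝ)) S (fun F => A3v c 1 k ↑F ∧ F ∩ blk c 1 = ∅) =
      Pr (fun _ => (1 / 2 : ℝ)) S (fun F => A3v c 1 k ↑F) *
        Pr (fun _ => (1 / 2 : ℝ)) S (fun F => F ∩ blk c 1 = ∅) := by
    apply Pr_indep (S := blk c k \ blk c 1) (T := blk c 1) (Finset.sdiff_subset.trans hS)
      (hb1.trans hS) Finset.sdiff_disjoint
    · intro F _
      rw [A3v_local, Finset.coe_inter]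
    · intro F _
      rw [Finset.inter_assoc, Finset.inter_self]
  have h2 : Pr (fun _ => (1 / 2 : ℝ)) S (fun F => F ∩ blk c 1 = ∅) =
      (1 / 2 : ℝ) ^ (RE (-1) 1 (-1) 1).card := by
    rw [← card_blk c, ← pr_empty]
    rw [Pr_local (hb1.trans hS) (A := fun F => F ∩ blk c 1 = ∅)
      (fun F _ => by rw [Finset.inter_assoc, Finset.inter_self])]
    apply Pr_congr
    intro F hF
    rw [Finset.inter_eq_left.mpr hF]
  have h3 : Pr (fun _ => (1 / 2 : ℝ)) S (fun F => A3v c 1 k ↑F ∧ F ∩ blk c 1 = ∅) ≤ 8 * P := by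
    refine le_trans (Pr_mono okh (B := fun F => ∃ m ∈ (Finset.univ : Finset (Fin 8)),
      T3 ((k - 1 : ℕ) : ℤ) (↑((sy c m).mp F) : Set Edg)) ?_) ?_
    · rintro F _ ⟨hA, hE⟩
      obtain ⟨m, hm⟩ := det c k hk (↑F) (by
        intro e he hb
        have : e ∈ F ∩ blk c 1 := Finset.mem_inter.mpr ⟨he, hb⟩
        rw [hE] at this
        exact absurd this (Finset.notMem_empty e)) hA
      exact ⟨m, Finset.mem_univ m, by rw [LSym.coe_mp]; exact hm⟩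
    · refine le_trans (Pr_exists_le okh S _ _) ?_
      rw [Finset.sum_congr rfl (fun m _ => t3_le hk hS m)]
      simp [hP]
  rw [h1, h2] at h3
  have h4 : (0 : ℝ) < 2 ^ (RE (-1) 1 (-1) 1).card := by positivity
  have h5 : (2 : ℝ) ^ (RE (-1) 1 (-1) 1).card * (1 / 2) ^ (RE (-1) 1 (-1) 1).card = 1 := by
    rw [← mul_pow]; norm_num
  have h6 := mul_le_mul_of_nonneg_left h3 h4.le
  calc PQ (1 / 2) S (fun F => A3v c 1 k ↑F)
      = 2 ^ (RE (-1) 1 (-1) 1).card * (Pr (fun _ => (1 / 2 : ℝ)) S (fun F => A3v c 1 k ↑F) *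
          (1 / 2) ^ (RE (-1) 1 (-1) 1).card) := by
        rw [show PQ (1 / 2) S (fun F => A3v c 1 k ↑F) =
          Pr (fun _ => (1 / 2 : ℝ)) S (fun F => A3v c 1 k ↑F) from rfl]
        linear_combination (-Pr (fun _ => (1 / 2 : ℝ)) S (fun F => A3v c 1 k ↑F)) * h5
    _ ≤ _ := by
        refine h6.trans (le_of_eq ?_)
        ring

end Pool.Agent.W801.OS
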