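import Pool.Agent.W801.OS.T_KL
import Pool.Agent.W801.OS.T_GAU
import Pool.Agent.W801.OS.T_COR
import Pool.Agent.W801.OS.T_DSQ
import Pool.Agent.W801.OS.T_D1a
import Pool.Agent.W801.OS.T_D1b
import Pool.Agent.W801.OS.T_TIP
import Pool.Agent.W801.OS.T_CMP
import Pool.Agent.W801.OU.T_TRIc

/-! # From the plane to the dislocated plane: assembly -/

set_option autoImplicit false

namespace Pool.Agent.W801.OS
open H974 H906.Cyl H12S Finset
open Pool.Agent.H160R2.ML (nm)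
open Pool.Agent.W801.OU (RZ LZ Dg nrm zp Cor scz bxz SE3 uR S_UR3 S_TRIc)
open Pool.Agent.W424.OD (A3v)

theorem a_GAU : S_GAU := t_GAU t_KL
theorem a_CMP : S_CMP := t_CMP a_GAU t_GB t_COR t_DSQ
theorem a_D1a : S_D1a := t_D1a Pool.Agent.W801.OU.t_TRIc

/-- one cluster is enough -/
theorem o1_se3 (R : ℕ) (G : Set Edg) (hR : 1 ≤ R) (h : O1 R G) : SE3 R G := by
  refine t_D1b R G hR ?_
  have h1 := a_D1a R G hR h
  obtain ⟨-, h2, h3⟩ := h
  have s0 : scz 0 0 0 = (-1, 0) := by simp [scz]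
  have s1 : scz 0 0 1 = (0, 0) := by simp [scz]
  have s2 : scz 0 0 2 = (1, 0) := by simp [scz]
  intro c d hc hd hcd h
  have hsym := Relation.EqvGen.symm _ _ h
  interval_cases c <;> interval_cases d <;> simp only [s0, s1, s2] at h hsym
  · exact hcd rfl
  · exact h2 hsym
  · exact h1 h
  · exact h2 h
  · exact hcd rfl
  · exact h3 h
  · exact h1 hsym
  · exact h3 hsym
  · exact hcd rfl

/-- locality -/
theorem lz_local (r : ℕ) (G : Finset Edg) :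
    LZ ({0} : Set ℤ) (bxz r) (↑G : Set Edg) = LZ {0} (bxz r) (↑(G ∩ boxE r) : Set Edg) := by
  funext x y
  unfold LZ
  refine propext (exists_congr fun e => and_congr_right fun he => ?_)
  have h1 : e ∈ boxE r := TCMP.bxz_iff.1 he
  have h2 : e ∈ (↑(G ∩ boxE r) : Set Edg) ↔ e ∈ (↑G : Set Edg) := by
    rw [Finset.mem_coe, Finset.mem_coe, Finset.mem_inter]
    exact ⟨fun h => h.1, fun h => ⟨h, h1⟩⟩
  rw [h2]

theorem se3_local (r : ℕ) (G : Finset Edg) :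
    SE3 r (↑G : Set Edg) ↔ SE3 r (↑(G ∩ boxE r) : Set Edg) := by
  unfold SE3 RZ
  rw [lz_local]

/-- the three arm event at the origin -/
theorem t3_le (R : ℕ) (hR : 20 ≤ R) :
    Pr (fun _ => (1 / 2 : ℝ)) (boxE R) (fun F => T3 R (↑F : Set Edg)) ≤ uR (R / 20) := by
  refine (a_CMP R hR).trans ?_
  have hsub : boxE (R / 20) ⊆ boxE (4 * R) := by
    intro e he
    rw [← TCMP.bxz_iff] at he ⊢
    obtain ⟨h1, h2⟩ := he
    have h3 : ((R / 20 : ℕ) : ℤ) ≤ ((4 * R : ℕ) : ℤ) := by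
      have := Nat.div_le_self R 20
      omega
    exact ⟨h1.trans h3, h2.trans h3⟩
  have h1 : Pr (fun _ => (1 / 2 : ℝ)) (boxE (4 * R)) (fun G => O1 (R / 20 : ℕ) (↑G : Set Edg)) ≤
      Pr (fun _ => (1 / 2 : ℝ)) (boxE (4 * R)) (fun G => SE3 (R / 20 : ℕ) (↑G : Set Edg)) := by
    refine Pr_mono (okq (by norm_num) (by norm_num)) (fun G _ h => ?_)
    rcases Nat.eq_zero_or_pos (R / 20) with h0 | h0
    · omega
    · exact o1_se3 (R / 20) _ h0 h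
  refine h1.trans (le_of_eq ?_)
  unfold uR
  exact Pr_local hsub fun G _ => se3_local _ _

/-- **upper bound at the origin** -/
theorem t3_ub (h : S_UR3) : ∃ C : ℝ, 0 < C ∧ ∀ R : ℕ, 1 ≤ R →
    Pr (fun _ => (1 / 2 : ℝ)) (boxE R) (fun F => T3 R (↑F : Set Edg)) ≤
      C * (R : ℝ) ^ (-(2 / 3 : ℝ)) := by
  obtain ⟨C, hC, h⟩ := h
  have hpos : ∀ x : ℝ, 0 < x → 0 < x ^ (-(2 / 3 : ℝ)) := fun x hx => Real.rpow_pos_of_pos hx _
  refine ⟨C * (1 / 40 : ℝ) ^ (-(2 / 3 : ℝ)) + (20 : ℝ) ^ (2 / 3 : ℝ), by positivity, fun R hR => ?_⟩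
  have hR0 : (0 : ℝ) < R := by exact_mod_cast hR
  rcases Nat.lt_or_ge R 20 with h1 | h1
  · refine (Pr_le_one (okq (by norm_num) (by norm_num)) _ _).trans ?_
    have h2 : (1 : ℝ) ≤ (20 : ℝ) ^ (2 / 3 : ℝ) * (R : ℝ) ^ (-(2 / 3 : ℝ)) := by
      rw [Real.rpow_neg hR0.le, ← div_eq_mul_inv, one_le_div (Real.rpow_pos_of_pos hR0 _)]
      exact Real.rpow_le_rpow hR0.le (by exact_mod_cast h1.le) (by norm_num)
    rw [add_mul]
    have h3 : 0 ≤ C * (1 / 40 : ℝ) ^ (-(2 / 3 : ℝ)) * (R : ℝ) ^ (-(2 / 3 : ℝ)) := by positivity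
    linarith
  · refine (t3_le R h1).trans ((h (R / 20) (by omega)).trans ?_)
    have h2 : (R : ℝ) / 40 ≤ ((R / 20 : ℕ) : ℝ) := by
      rw [div_le_iff₀ (by norm_num)]
      exact_mod_cast (by omega : R ≤ R / 20 * 40)
    have h3 : ((R / 20 : ℕ) : ℝ) ^ (-(2 / 3 : ℝ)) ≤ ((R : ℝ) / 40) ^ (-(2 / 3 : ℝ)) :=
      Real.rpow_le_rpow_of_nonpos (by positivity) h2 (by norm_num)
    have h4 : ((R : ℝ) / 40) ^ (-(2 / 3 : ℝ)) = (1 / 40 : ℝ) ^ (-(2 / 3 : ℝ)) *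
        (R : ℝ) ^ (-(2 / 3 : ℝ)) := by
      rw [← Real.mul_rpow (by norm_num) hR0.le]
      congr 1
      ring
    rw [add_mul]
    have h5 : 0 ≤ (20 : ℝ) ^ (2 / 3 : ℝ) * (R : ℝ) ^ (-(2 / 3 : ℝ)) := by positivity
    have h6 := mul_le_mul_of_nonneg_left (h3.trans h4.le) hC.le
    linarith

/-- **upper bound for the three arm event of the plane** -/
theorem t_HON (h : S_UR3) : S_HON := by
  obtain ⟨C, hC, h⟩ := t3_ub h
  obtain ⟨D, hD, hT⟩ := t_TIP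
  have hpos : ∀ x : ℝ, 0 < x → 0 < x ^ (-(2 / 3 : ℝ)) := fun x hx => Real.rpow_pos_of_pos hx _
  refine ⟨D * C * (1 / 2 : ℝ) ^ (-(2 / 3 : ℝ)) + 1, by positivity, fun c k hk S hS => ?_⟩
  have hk0 : (0 : ℝ) < k := by exact_mod_cast hk
  have hx := hpos k hk0
  rcases Nat.lt_or_ge k 2 with h1 | h1
  · have : k = 1 := by omega
    subst this
    refine (Pr_le_one (okq (by norm_num) (by norm_num)) _ _).trans ?_
    have h3 : 0 ≤ D * C * (1 / 2 : ℝ) ^ (-(2 / 3 : ℝ)) := by positivity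
    simp only [Nat.cast_one, Real.one_rpow, mul_one]
    linarith
  · refine (hT c k h1 S hS).trans ?_
    have h4 := mul_le_mul_of_nonneg_left (h (k - 1) (by omega)) hD.le
    refine h4.trans ?_
    have h2 : (k : ℝ) / 2 ≤ ((k - 1 : ℕ) : ℝ) := by
      rw [div_le_iff₀ (by norm_num)]
      exact_mod_cast (by omega : k ≤ (k - 1) * 2)
    have h3 : ((k - 1 : ℕ) : ℝ) ^ (-(2 / 3 : ℝ)) ≤ ((k : ℝ) / 2) ^ (-(2 / 3 : ℝ)) :=
      Real.rpow_le_rpow_of_nonpos (by positivity) h2 (by norm_num)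
    have h5 : ((k : ℝ) / 2) ^ (-(2 / 3 : ℝ)) = (1 / 2 : ℝ) ^ (-(2 / 3 : ℝ)) *
        (k : ℝ) ^ (-(2 / 3 : ℝ)) := by
      rw [← Real.mul_rpow (by norm_num) hk0.le]
      congr 1
      ring
    have h6 := mul_le_mul_of_nonneg_left (h3.trans h5.le) (by positivity : 0 ≤ D * C)
    rw [add_mul]
    nlinarith [h6]

end Pool.Agent.W801.OS
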