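import Pool.Agent.W801.OS.Stm

/-!
# The winding number inequality for the cluster of the origin

A walk of `W` between two points of the same row or of adjacent rows, closed by a direct step, winds
around the points of the corridor; the winding number changes along the corridor only at the points
strictly between the two end points.
-/

set_option autoImplicit false

namespace Pool.Agent.W801.OS

namespace KLpriv

/-- indicator of the half-line to the right of `p` -/
def g (p u : ℤ × ℤ) : ℤ := if u.2 = p.2 ∧ p.1 < u.1 then 1 else 0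

/-- upward move -/
def Up (W : Set (ℤ × ℤ)) (p p' : ℤ × ℤ) : Prop :=
  (p.1 + p.2) % 2 = 0 ∧ p ∉ W ∧ p'.2 = p.2 + 1 ∧ (p'.1 = p.1 + 1 ∨ p'.1 = p.1 - 1) ∧
    (p' ∉ W ∨ p' = (0, 0))

lemma ch_end {W : Set (ℤ × ℤ)} {a b : ℤ × ℤ} {φ : ℤ × ℤ → ℤ} (h : Ch W a b φ) : b ∈ W := by
  cases h with
  | nil hu => exact hu
  | cons v w φ h hw ho => exact hw

lemma ch_start {W : Set (ℤ × ℤ)} {a b : ℤ × ℤ} {φ : ℤ × ℤ → ℤ} (h : Ch W a b φ) : a ∈ W := by
  induction h with
  | nil hu => exact hu
  | cons v w φ h hw ho ih => exact ih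

lemma cr_down {x u v : ℤ × ℤ} (h : v.2 = u.2 - 1) : cr x u v = g x u := by
  unfold cr g
  by_cases h1 : u.2 = x.2 ∧ x.1 < u.1
  · rw [if_pos ⟨h1.1, by omega, h1.2⟩, if_pos h1]
  · rw [if_neg (fun q => h1 ⟨q.1, q.2.2⟩), if_neg (by rintro ⟨q1, q2, q3⟩; omega), if_neg h1]

lemma cr_up {x u v : ℤ × ℤ} (h : v.2 = u.2 + 1) : cr x u v = - g x v := by
  unfold cr g
  by_cases h1 : v.2 = x.2 ∧ x.1 < v.1
  · rw [if_neg (by rintro ⟨q1, q2, q3⟩; omega), if_pos ⟨h1.1, by omega, h1.2⟩, if_pos h1]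
  · rw [if_neg (by rintro ⟨q1, q2, q3⟩; omega), if_neg (fun q => h1 ⟨q.1, q.2.2⟩), if_neg h1]
    rfl

lemma cr_flat {x u v : ℤ × ℤ} (h : u.2 = v.2) : cr x u v = 0 := by
  unfold cr
  rw [if_neg (by rintro ⟨q1, q2, q3⟩; omega), if_neg (by rintro ⟨q1, q2, q3⟩; omega)]

lemma core {W : Set (ℤ × ℤ)} (hE : Evn W) {p p' x y : ℤ × ℤ} (hp : Up W p p') (hx : x ∈ W)
    (hy : y ∈ W) (h2 : x.2 = y.2 + 1) (h1 : x.1 = y.1 + 1 ∨ x.1 = y.1 - 1)
    (h0 : ¬ (x = (0, 0) ∧ y.2 = -1)) : g p' x = g p y := by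
  obtain ⟨hpar, hpW, k2, k1, k3⟩ := hp
  have ex := hE x hx
  have ey := hE y hy
  have hpy : ¬ (y.1 = p.1 ∧ y.2 = p.2) := by
    rintro ⟨q1, q2⟩
    exact hpW (by rw [← show y = p from Prod.ext q1 q2]; exact hy)
  have hpx : ¬ (x.1 = p'.1 ∧ x.2 = p'.2) := by
    rintro ⟨q1, q2⟩
    have q3 : x = p' := Prod.ext q1 q2
    rcases k3 with k3 | k3
    · exact k3 (q3 ▸ hx)
    · refine h0 ⟨q3.trans k3, ?_⟩
      rw [q3, k3] at h2
      have : (0 : ℤ) = y.2 + 1 := h2
      omega
  unfold g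
  by_cases hr : y.2 = p.2
  · have hr' : x.2 = p'.2 := by omega
    have hy1 : y.1 ≠ p.1 := fun q => hpy ⟨q, hr⟩
    have hx1 : x.1 ≠ p'.1 := fun q => hpx ⟨q, hr'⟩
    have : p'.1 < x.1 ↔ p.1 < y.1 := by
      rcases h1 with h1 | h1 <;> rcases k1 with k1 | k1 <;> constructor <;> intro q <;> omega
    by_cases hq : p.1 < y.1
    · rw [if_pos ⟨hr', this.mpr hq⟩, if_pos ⟨hr, hq⟩]
    · rw [if_neg (fun q => hq (this.mp q.2)), if_neg (fun q => hq q.2)]
  · rw [if_neg (by rintro ⟨q1, q2⟩; omega), if_neg (fun q => hr q.1)]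

lemma step {W : Set (ℤ × ℤ)} (hE : Evn W) {p p' u v : ℤ × ℤ} (hp : Up W p p') (hu : u ∈ W)
    (hv : v ∈ W) (ho : Ok2 u v) : cr p' u v - cr p u v = g p v - g p u := by
  obtain ⟨⟨a1, a2⟩, o1, o2⟩ := ho
  rcases a2 with a2 | a2
  · rw [cr_up a2, cr_up a2, core hE hp hv hu a2 a1 o2]
    ring
  · rw [cr_down a2, cr_down a2, core hE hp hu hv (by omega) (by omega) o1]

lemma chain {W : Set (ℤ × ℤ)} (hE : Evn W) {p p' : ℤ × ℤ} (hp : Up W p p') {a b : ℤ × ℤ}
    {φ : ℤ × ℤ → ℤ} (h : Ch W a b φ) : φ p' - φ p = g p b - g p a := by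
  induction h with
  | nil hu => simp
  | cons v w φ h hw ho ih =>
    have h1 := step hE hp (ch_end h) hw ho
    show (φ p' + cr p' v w) - (φ p + cr p v w) = g p w - g p a
    linarith

lemma ivt (f : ℤ × ℤ → ℤ) (A : Finset ℤ) (R : ℤ × ℤ → ℤ × ℤ → Prop)
    (hR : ∀ u v, R u v → f u = f v ∨ (f v = f u + 1 ∧ f u ∈ A) ∨ (f u = f v + 1 ∧ f v ∈ A))
    (u v : ℤ × ℤ) (h : Relation.ReflTransGen R u v) : |f u - f v| ≤ A.card := by
  have key : ∀ n : ℤ, n ∉ A → (n < f u ↔ n < f v) := by
    intro n hn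
    induction h with
    | refl => rfl
    | tail h1 h2 ih =>
      rename_i x y
      rw [ih]
      rcases hR x y h2 with h3 | ⟨h3, h4⟩ | ⟨h3, h4⟩
      · rw [h3]
      · have : n ≠ f x := fun q => hn (q ▸ h4)
        omega
      · have : n ≠ f y := fun q => hn (q ▸ h4)
        omega
  rcases le_total (f u) (f v) with h1 | h1
  · have hs : Finset.Ico (f u) (f v) ⊆ A := by
      intro n hn
      rw [Finset.mem_Ico] at hn
      by_contra hA
      have := key n hA
      omega
    have hc := Finset.card_le_card hs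
    rw [Int.card_Ico] at hc
    rw [abs_of_nonpos (by omega)]
    omega
  · have hs : Finset.Ico (f v) (f u) ⊆ A := by
      intro n hn
      rw [Finset.mem_Ico] at hn
      by_contra hA
      have := key n hA
      omega
    have hc := Finset.card_le_card hs
    rw [Int.card_Ico] at hc
    rw [abs_of_nonneg (by omega)]
    omega

/-- change of the winding number along an upward move -/
lemma upf {W : Set (ℤ × ℤ)} (hE : Evn W) {p p' : ℤ × ℤ} (hp : Up W p p') {a b : ℤ × ℤ}
    {φ : ℤ × ℤ → ℤ} (h : Ch W a b φ) (hab : b.2 = a.2 ∨ b.2 = a.2 + 1)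
    (h0 : ¬ (b = (0, 0) ∧ a.2 = -1)) :
    (φ p' + cr p' b a = φ p + cr p b a) ∨
    (p.2 = a.2 ∧ (p.1 - a.1) % 2 = 0 ∧ a.1 < p.1 ∧ p.1 < b.1 ∧
      φ p' + cr p' b a = φ p + cr p b a + 1) ∨
    (p.2 = a.2 ∧ (p.1 - a.1) % 2 = 0 ∧ b.1 < p.1 ∧ p.1 < a.1 ∧
      φ p' + cr p' b a = φ p + cr p b a - 1) := by
  have h1 := chain hE hp h
  obtain ⟨hpar, hpW, h2, h3, h4⟩ := hp
  have ha := ch_start h
  have hb := ch_end h
  have ea := hE a ha
  have eb := hE b hb
  have hpa : ¬ (a.1 = p.1 ∧ a.2 = p.2) := by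
    rintro ⟨q1, q2⟩
    exact hpW (by rw [← show a = p from Prod.ext q1 q2]; exact ha)
  have hpb : ¬ (b.1 = p.1 ∧ b.2 = p.2) := by
    rintro ⟨q1, q2⟩
    exact hpW (by rw [← show b = p from Prod.ext q1 q2]; exact hb)
  rcases hab with hab | hab
  · rw [cr_flat hab, cr_flat hab]
    by_cases hr : a.2 = p.2
    · have hg : ∀ x : ℤ × ℤ, x.2 = p.2 → g p x = if p.1 < x.1 then 1 else 0 := by
        intro x hx
        unfold g
        by_cases hq : p.1 < x.1
        · rw [if_pos ⟨hx, hq⟩, if_pos hq]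
        · rw [if_neg (fun q => hq q.2), if_neg hq]
      rw [hg b (hab.trans hr), hg a hr] at h1
      have ha1 : a.1 ≠ p.1 := fun q => hpa ⟨q, hr⟩
      have hb1 : b.1 ≠ p.1 := fun q => hpb ⟨q, hab.trans hr⟩
      split_ifs at h1 <;> omega
    · left
      have hg : ∀ x : ℤ × ℤ, x.2 ≠ p.2 → g p x = 0 := by
        intro x hx
        unfold g
        rw [if_neg (fun q => hx q.1)]
      rw [hg b (by omega), hg a hr] at h1
      omega
  · have hba : a.2 = b.2 - 1 := by omega
    rw [cr_down hba, cr_down hba]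
    by_cases hr : a.2 = p.2
    · have hbr : b.2 = p'.2 := by omega
      have ha1 : a.1 ≠ p.1 := fun q => hpa ⟨q, hr⟩
      have hb1 : b.1 ≠ p'.1 := by
        intro q
        have q3 : b = p' := Prod.ext q hbr
        rcases h4 with h4 | h4
        · exact h4 (q3 ▸ hb)
        · refine h0 ⟨q3.trans h4, ?_⟩
          rw [q3, h4] at hab
          have : (0 : ℤ) = a.2 + 1 := hab
          omega
      have hg1 : g p' b = if p'.1 < b.1 then 1 else 0 := by
        unfold g
        by_cases hq : p'.1 < b.1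
        · rw [if_pos ⟨hbr, hq⟩, if_pos hq]
        · rw [if_neg (fun q => hq q.2), if_neg hq]
      have hg2 : g p a = if p.1 < a.1 then 1 else 0 := by
        unfold g
        by_cases hq : p.1 < a.1
        · rw [if_pos ⟨hr, hq⟩, if_pos hq]
        · rw [if_neg (fun q => hq q.2), if_neg hq]
      rw [hg1]
      rw [hg2] at h1
      rcases h3 with h3 | h3 <;> split_ifs at h1 ⊢ <;> omega
    · left
      have hg1 : g p' b = 0 := by
        unfold g
        rw [if_neg (by rintro ⟨q1, q2⟩; omega)]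
      have hg2 : g p a = 0 := by
        unfold g
        rw [if_neg (fun q => hr q.1)]
      rw [hg1]
      rw [hg2] at h1
      omega

/-- moves of the corridor -/
def Mv (W : Set (ℤ × ℤ)) (u v : ℤ × ℤ) : Prop := Up W u v ∨ Up W v u

lemma pa_mv {W : Set (ℤ × ℤ)} {p q : ℤ × ℤ} (h : Pa W p q) (hp : (p.1 + p.2) % 2 = 0) :
    Relation.ReflTransGen (Mv W) p q ∧ q ∉ W ∧ (q.1 + q.2) % 2 = 0 := by
  induction h with
  | nil hu => exact ⟨Relation.ReflTransGen.refl, hu, hp⟩
  | cons v w h hw ha ih =>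
    obtain ⟨i1, i2, i3⟩ := ih
    obtain ⟨a1, a2⟩ := ha
    have i4 : (w.1 + w.2) % 2 = 0 := by omega
    refine ⟨i1.tail ?_, hw, i4⟩
    rcases a2 with a2 | a2
    · left
      exact ⟨i3, i2, a2, a1, Or.inl hw⟩
    · right
      exact ⟨i4, hw, by omega, by omega, Or.inl i2⟩

lemma phi_zero {W : Set (ℤ × ℤ)} {q a b : ℤ × ℤ} {φ : ℤ × ℤ → ℤ} (hq : ∀ u ∈ W, u.1 ≤ q.1)
    (h : Ch W a b φ) : φ q = 0 := by
  induction h with
  | nil hu => rfl
  | cons v w φ h hw ho ih =>
    show φ q + cr q v w = 0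
    have h1 := hq v (ch_end h)
    have h2 := hq w hw
    rw [ih]
    unfold cr
    rw [if_neg (by rintro ⟨q1, q2, q3⟩; omega), if_neg (by rintro ⟨q1, q2, q3⟩; omega)]
    rfl

end KLpriv

open KLpriv in
theorem t_KL : S_KL := by
  intro W hE hC a b φ h hab h0
  obtain ⟨p, q, hp, hpq, hq⟩ := hC
  have hppar : (p.1 + p.2) % 2 = 0 := by
    rcases hp with hp | hp <;> rw [hp] <;> norm_num
  obtain ⟨m1, -, -⟩ := pa_mv hpq hppar
  have hpW : p ∉ W := by
    have : ∀ {x y : ℤ × ℤ}, Pa W x y → x ∉ W := by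
      intro x y hxy
      induction hxy with
      | nil hu => exact hu
      | cons v w h hw ha ih => exact ih
    exact this hpq
  have m0 : Mv W (0, 0) p := by
    right
    refine ⟨hppar, hpW, ?_, ?_, Or.inr rfl⟩
    · rcases hp with hp | hp <;> rw [hp] <;> norm_num
    · rcases hp with hp | hp <;> rw [hp] <;> norm_num
  have m2 : Relation.ReflTransGen (Mv W) (0, 0) q := Relation.ReflTransGen.head m0 m1
  set f : ℤ × ℤ → ℤ := fun x => φ x + cr x b a with hf
  set M : ℤ := (|b.1 - a.1| - 1) / 2 with hM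
  have hfq : f q = 0 := by
    show φ q + cr q b a = 0
    have h1 := hq b (ch_end h)
    have h2 := hq a (ch_start h)
    rw [phi_zero hq h]
    unfold cr
    rw [if_neg (by rintro ⟨q1, q2, q3⟩; omega), if_neg (by rintro ⟨q1, q2, q3⟩; omega)]
    rfl
  have hbound : |f (0, 0) - f q| ≤ (M.toNat : ℤ) := by
    rcases le_total a.1 b.1 with hle | hle
    · set A : Finset ℤ := (Finset.Icc (1 : ℤ) M).image (fun j => f (a.1 + 2 * j, a.2)) with hA
      have hAc : (A.card : ℤ) ≤ M.toNat := by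
        have h1 : A.card ≤ (Finset.Icc (1 : ℤ) M).card := Finset.card_image_le
        rw [Int.card_Icc] at h1
        have h2 : (M + 1 - 1).toNat = M.toNat := by congr 1; ring
        rw [h2] at h1
        exact_mod_cast h1
      refine le_trans (ivt f A (Mv W) ?_ _ _ m2) hAc
      have key : ∀ u v, Up W u v → f u = f v ∨ (f v = f u + 1 ∧ f u ∈ A) := by
        intro u v huv
        rcases upf hE huv h hab h0 with h1 | ⟨h1, h2, h3, h4, h5⟩ | ⟨h1, h2, h3, h4, h5⟩
        · left
          exact h1.symm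
        · right
          refine ⟨h5, ?_⟩
          rw [hA, Finset.mem_image]
          refine ⟨(u.1 - a.1) / 2, ?_, ?_⟩
          · rw [Finset.mem_Icc, hM, abs_of_nonneg (by omega)]
            omega
          · have : ((a.1 + 2 * ((u.1 - a.1) / 2), a.2) : ℤ × ℤ) = u := by
              apply Prod.ext
              · show a.1 + 2 * ((u.1 - a.1) / 2) = u.1
                omega
              · exact h1.symm
            rw [this]
        · omega
      intro u v huv
      rcases huv with huv | huv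
      · rcases key u v huv with h1 | h1
        · exact Or.inl h1
        · exact Or.inr (Or.inl h1)
      · rcases key v u huv with h1 | h1
        · exact Or.inl h1.symm
        · exact Or.inr (Or.inr h1)
    · set A : Finset ℤ := (Finset.Icc (1 : ℤ) M).image (fun j => f (a.1 - 2 * j, a.2) - 1) with hA
      have hAc : (A.card : ℤ) ≤ M.toNat := by
        have h1 : A.card ≤ (Finset.Icc (1 : ℤ) M).card := Finset.card_image_le
        rw [Int.card_Icc] at h1
        have h2 : (M + 1 - 1).toNat = M.toNat := by congr 1; ring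
        rw [h2] at h1
        exact_mod_cast h1
      refine le_trans (ivt f A (Mv W) ?_ _ _ m2) hAc
      have key : ∀ u v, Up W u v → f u = f v ∨ (f u = f v + 1 ∧ f v ∈ A) := by
        intro u v huv
        rcases upf hE huv h hab h0 with h1 | ⟨h1, h2, h3, h4, h5⟩ | ⟨h1, h2, h3, h4, h5⟩
        · left
          exact h1.symm
        · omega
        · right
          have h6 : f v = f u - 1 := h5
          refine ⟨by omega, ?_⟩
          rw [hA, Finset.mem_image]
          refine ⟨(a.1 - u.1) / 2, ?_, ?_⟩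
          · rw [Finset.mem_Icc, hM, abs_of_nonpos (by omega)]
            omega
          · have : ((a.1 - 2 * ((a.1 - u.1) / 2), a.2) : ℤ × ℤ) = u := by
              apply Prod.ext
              · show a.1 - 2 * ((a.1 - u.1) / 2) = u.1
                omega
              · exact h1.symm
            rw [this, h6]
      intro u v huv
      rcases huv with huv | huv
      · rcases key u v huv with h1 | h1
        · exact Or.inl h1
        · exact Or.inr (Or.inr h1)
      · rcases key v u huv with h1 | h1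
        · exact Or.inl h1.symm
        · exact Or.inr (Or.inl h1)
  rw [hfq, sub_zero] at hbound
  have hf0 : f (0, 0) = φ (0, 0) + cr (0, 0) b a := rfl
  rw [← hf0]
  by_cases hd : a.1 = b.1
  · left
    refine ⟨hd, ?_⟩
    have h1 : M.toNat = 0 := by
      rw [hM, hd, sub_self, abs_zero]
      rfl
    rw [h1] at hbound
    have h2 : |f (0, 0)| ≤ 0 := by exact_mod_cast hbound
    exact abs_nonpos_iff.mp h2
  · right
    have h1 : 1 ≤ |b.1 - a.1| := Int.one_le_abs (by omega)
    have h2 : (M.toNat : ℤ) = M := Int.toNat_of_nonneg (by omega)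
    rw [h2] at hbound
    omega

end Pool.Agent.W801.OS
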