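import Pool.Agent.W801.OS.Stm3

set_option autoImplicit false

/-!
# The rotated box inside the annulus
-/

namespace Pool.Agent.W801.OS
open H974 H906.Cyl H12S Finset
open Pool.Agent.H160R2.ML (nm)
open Pool.Agent.W801.OU (RZ LZ Dg nrm zp Cor scz bxz SE3 uR S_UR3 S_TRIc)
open Pool.Agent.W424.OD (A3v)

namespace TDIA

theorem nm_le_nd (v : Vtx) : nm v ≤ nd v := by
  unfold nm nd
  have h1 := abs_nonneg v.1
  have h2 := abs_nonneg v.2
  apply max_le <;> linarith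

theorem nd_le (v : Vtx) : nd v ≤ 2 * nm v := by
  unfold nm nd
  have h1 := le_max_left |v.1| |v.2|
  have h2 := le_max_right |v.1| |v.2|
  linarith

theorem edge_cases (e : Edg) : (src e = (e.1, e.2.1)) ∧
    (tgt e = (e.1 + 1, e.2.1) ∨ tgt e = (e.1, e.2.1 + 1)) := by
  obtain ⟨x, y, b⟩ := e
  cases b
  · exact ⟨rfl, Or.inr rfl⟩
  · exact ⟨rfl, Or.inl rfl⟩

theorem abs_step (x : ℤ) : |x + 1| ≤ |x| + 1 ∧ |x| ≤ |x + 1| + 1 := by
  constructor
  · calc |x + 1| ≤ |x| + |1| := abs_add_le _ _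
      _ = |x| + 1 := by norm_num
  · calc |x| = |(x + 1) + (-1)| := by ring_nf
      _ ≤ |x + 1| + |(-1 : ℤ)| := abs_add_le _ _
      _ = |x + 1| + 1 := by norm_num

theorem nd_step (e : Edg) : nd (tgt e) ≤ nd (src e) + 1 ∧ nd (src e) ≤ nd (tgt e) + 1 := by
  obtain ⟨h1, h2⟩ := edge_cases e
  rw [h1]
  rcases h2 with h | h
  · rw [h]
    unfold nd
    have := abs_step e.1
    constructor <;> simp only <;> linarith [this.1, this.2]
  · rw [h]
    unfold nd
    have := abs_step e.2.1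
    constructor <;> simp only <;> linarith [this.1, this.2]

theorem nm_step (e : Edg) : nm (tgt e) ≤ nm (src e) + 1 ∧ nm (src e) ≤ nm (tgt e) + 1 := by
  obtain ⟨h1, h2⟩ := edge_cases e
  rw [h1]
  have m1 := le_max_left |e.1| |e.2.1|
  have m2 := le_max_right |e.1| |e.2.1|
  rcases h2 with h | h
  · rw [h]
    unfold nm
    have := abs_step e.1
    have m3 := le_max_left |e.1 + 1| |e.2.1|
    have m4 := le_max_right |e.1 + 1| |e.2.1|
    constructor
    · exact max_le (by simp only; linarith [this.1]) (by simp only; linarith)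
    · exact max_le (by simp only; linarith [this.2]) (by simp only; linarith)
  · rw [h]
    unfold nm
    have := abs_step e.2.1
    have m3 := le_max_left |e.1| |e.2.1 + 1|
    have m4 := le_max_right |e.1| |e.2.1 + 1|
    constructor
    · exact max_le (by simp only; linarith) (by simp only; linarith [this.1])
    · exact max_le (by simp only; linarith) (by simp only; linarith [this.2])

theorem adj_nd {G : Set Edg} {u v : Vtx} (h : H974.Adj G u v) : nd v ≤ nd u + 1 := by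
  obtain ⟨e, _, ⟨rfl, rfl⟩ | ⟨rfl, rfl⟩⟩ := h
  · exact (nd_step e).1
  · exact (nd_step e).2

theorem adj_nm {G : Set Edg} {u v : Vtx} (h : H974.Adj G u v) : nm v ≤ nm u + 1 := by
  obtain ⟨e, _, ⟨rfl, rfl⟩ | ⟨rfl, rfl⟩⟩ := h
  · exact (nm_step e).1
  · exact (nm_step e).2

/-- the last vertex in the rotated box -/
theorem last_exit {G : Set Edg} {ρ : ℤ} {u w : Vtx} (h : Reach G u w) (hw : ρ < nd w) :
    (ρ < nd u ∧ Reach (G \ Dd ρ) u w) ∨
      ∃ u₁, nd u₁ = ρ ∧ Reach G u u₁ ∧ Reach (G \ Dd ρ) u₁ w := by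
  induction h using Relation.ReflTransGen.head_induction_on with
  | refl => exact Or.inl ⟨hw, Reach.refl _ _⟩
  | head hs ht ih =>
    rename_i a c
    rcases ih with ⟨h1, h2⟩ | ⟨u₁, h1, h2, h3⟩
    · have hn := adj_nd hs.symm
      have hn' := adj_nd hs
      have hadj : H974.Adj (G \ Dd ρ) a c := by
        obtain ⟨e, he, hh⟩ := hs
        refine ⟨e, ⟨he, ?_⟩, hh⟩
        intro hD
        rcases hh with ⟨_, h4⟩ | ⟨h4, _⟩
        · have := hD.2
          rw [h4] at this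
          exact absurd h1 (not_lt.2 this)
        · have := hD.1
          rw [h4] at this
          exact absurd h1 (not_lt.2 this)
      by_cases hu : ρ < nd a
      · exact Or.inl ⟨hu, Relation.ReflTransGen.head hadj h2⟩
      · refine Or.inr ⟨a, by omega, Reach.refl _ _, Relation.ReflTransGen.head hadj h2⟩
    · exact Or.inr ⟨u₁, h1, Relation.ReflTransGen.head hs h2, h3⟩

/-- the first vertex outside of a box -/
theorem first_exit {G : Set Edg} {r : ℤ} {u w : Vtx} (h : Reach G u w) (hw : r ≤ nm w)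
    (hu : nm u ≤ r) : ∃ w₁, nm w₁ = r ∧ Reach (G ∩ bxz r) u w₁ := by
  induction h using Relation.ReflTransGen.head_induction_on with
  | refl => exact ⟨w, le_antisymm hu hw, Reach.refl _ _⟩
  | head hs ht ih =>
    rename_i a c
    by_cases h1 : nm a = r
    · exact ⟨a, h1, Reach.refl _ _⟩
    · have hn := adj_nm hs
      have hc : nm c ≤ r := by omega
      obtain ⟨w₁, h2, h3⟩ := ih hc
      refine ⟨w₁, h2, Relation.ReflTransGen.head ?_ h3⟩
      obtain ⟨e, he, hh⟩ := hs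
      refine ⟨e, ⟨he, ?_⟩, hh⟩
      rcases hh with ⟨h4, h5⟩ | ⟨h4, h5⟩
      · exact ⟨by rw [h4]; exact hu, by rw [h5]; exact hc⟩
      · exact ⟨by rw [h4]; exact hc, by rw [h5]; exact hu⟩

theorem blk_iff {k : ℕ} {e : Edg} : e ∈ blk (0, 0) k ↔ e ∈ bxz (k : ℤ) := by
  obtain ⟨x, y, b⟩ := e
  unfold blk bxz nm
  cases b
  · simp only [Set.mem_ofPred_eq, src_mk, tgt_false, RE, Finset.mem_filter, Finset.mem_product,
      Finset.mem_Icc, Finset.mem_univ, and_true, max_le_iff, abs_le]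
    simp only [Bool.false_eq_true, if_false]
    omega
  · simp only [Set.mem_ofPred_eq, src_mk, tgt_true, RE, Finset.mem_filter, Finset.mem_product,
      Finset.mem_Icc, Finset.mem_univ, and_true, max_le_iff, abs_le]
    simp only [if_true]
    omega

theorem bdB_iff {k : ℕ} {v : Vtx} (h : v ∈ bdB (0, 0) k) : nm v = k := by
  unfold bdB at h
  simp only [Set.mem_ofPred_eq, sub_zero] at h
  obtain ⟨h1, h2, h3⟩ := h
  unfold nm
  apply le_antisymm (max_le h1 h2)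
  rcases h3 with h | h
  · rw [← h]; exact le_max_left _ _
  · rw [← h]; exact le_max_right _ _

theorem rn_symm {ρ R : ℤ} {F : Set Edg} {u v : Vtx} (h : Rn ρ R F u v) : Rn ρ R F v u :=
  Reach.symm h

theorem rn_trans {ρ R : ℤ} {F : Set Edg} {u v w : Vtx} (h : Rn ρ R F u v) (h' : Rn ρ R F v w) :
    Rn ρ R F u w := Reach.trans h h'

theorem reach_mono {G G' : Set Edg} (h : G ⊆ G') {u v : Vtx} (hr : Reach G u v) : Reach G' u v := by
  induction hr with
  | refl => exact Reach.refl _ _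
  | tail _ hs ih => exact Relation.ReflTransGen.tail ih (H974.Adj.mono h hs)

/-- transfer of the three-arm event to another vertex of the cluster -/
theorem a3u_congr {ρ R : ℤ} {F : Set Edg} {u u' : Vtx} (h : Rn ρ R F u u') (hu' : nd u' = ρ)
    (hA : A3u ρ R u F) : A3u ρ R u' F := by
  obtain ⟨_, ⟨w, h1, h2⟩, x, y, h3, h4, h5, h6⟩ := hA
  have hiff : ∀ v, Rn ρ R F u' v → Rn ρ R F u v := fun v hv => rn_trans h hv
  refine ⟨hu', ⟨w, h1, rn_trans (rn_symm h) h2⟩, x, y, h3, h4, fun hx => h5 (hiff _ hx), ?_⟩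
  refine reach_mono ?_ h6
  rintro e ⟨he, h7, h8⟩
  exact ⟨he, fun hx => h7 (hiff _ hx), fun hx => h8 (hiff _ hx)⟩

/-- the first vertex -/
theorem first_vertex {ρ r : ℤ} {F : Set Edg} {u₁ w₁ : Vtx} (h1 : nd u₁ = ρ) (h2 : nm w₁ = r)
    (h3 : Rn ρ r F u₁ w₁) : ∃ u, CEu ρ r u F ∧ Rn ρ r F u₁ u := by
  classical
  let S : Finset Vtx := ((Finset.Icc (-ρ) ρ) ×ˢ (Finset.Icc (-ρ) ρ)).filter
    (fun u => nd u = ρ ∧ Rn ρ r F u₁ u)
  have hmem : ∀ u, nd u = ρ → Rn ρ r F u₁ u → u ∈ S := by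
    intro u hu hr
    have ha : |u.1| + |u.2| = ρ := hu
    have hb1 := abs_nonneg u.1
    have hb2 := abs_nonneg u.2
    have hc1 : |u.1| ≤ ρ := by linarith
    have hc2 : |u.2| ≤ ρ := by linarith
    rw [abs_le] at hc1 hc2
    simp only [S, Finset.mem_filter, Finset.mem_product, Finset.mem_Icc]
    exact ⟨⟨hc1, hc2⟩, hu, hr⟩
  have hne : S.Nonempty := ⟨u₁, hmem u₁ h1 (Reach.refl _ _)⟩
  obtain ⟨u, hu, hmin⟩ := Finset.exists_min_image S (fun u => toLex u) hne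
  have hu' := (Finset.mem_filter.1 hu).2
  refine ⟨u, ⟨hu'.1, ⟨w₁, h2, rn_trans (rn_symm hu'.2) h3⟩, fun v hv hr => ?_⟩, hu'.2⟩
  have := hmin v (hmem v hv (rn_trans hu'.2 hr))
  rw [Prod.Lex.toLex_le_toLex] at this
  exact this

end TDIA

open TDIA in
/-- deterministic: the first vertex of the cluster -/
theorem t_DIA : S_DIA := by
  intro d k F hd hdk hA
  obtain ⟨u₀, hu₀, ⟨w, hw, hcl⟩, x₀, hx₀, y₀, hy₀, hcor⟩ := hA
  have hu₀' := bdB_iff hu₀
  have hw' := bdB_iff hw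
  have hx₀' := bdB_iff hx₀
  have hy₀' := bdB_iff hy₀
  have hk : (24 * d : ℤ) ≤ k := by exact_mod_cast hdk
  have hd' : (1 : ℤ) ≤ d := by exact_mod_cast hd
  have hρ : ((6 * d : ℕ) : ℤ) = 6 * d := by push_cast; ring
  have hr : ((24 * d : ℕ) : ℤ) = 24 * d := by push_cast; ring
  -- edges
  have hAnAE : An ((6 * d : ℕ) : ℤ) k ⊆ Pool.Agent.W424.OD.AE (0, 0) d k := by
    rintro e ⟨h1, h2⟩
    unfold Pool.Agent.W424.OD.AE
    rw [Finset.mem_coe, Finset.mem_sdiff]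
    refine ⟨blk_iff.2 h1, fun h3 => h2 ?_⟩
    rw [blk_iff] at h3
    have e1 := nd_le (src e)
    have e2 := nd_le (tgt e)
    have e3 : nm (src e) ≤ d := h3.1
    have e4 : nm (tgt e) ≤ d := h3.2
    show nd (src e) ≤ ((6 * d : ℕ) : ℤ) ∧ nd (tgt e) ≤ ((6 * d : ℕ) : ℤ)
    rw [hρ]
    constructor <;> linarith
  have hAEAn : ∀ e, e ∈ Pool.Agent.W424.OD.AE (0, 0) d k → e ∉ Dd ((6 * d : ℕ) : ℤ) →
      e ∈ An ((6 * d : ℕ) : ℤ) k := by
    intro e he hD
    unfold Pool.Agent.W424.OD.AE at he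
    rw [Finset.mem_coe, Finset.mem_sdiff, blk_iff] at he
    exact ⟨he.1, hD⟩
  -- the open path
  have hndw : ((6 * d : ℕ) : ℤ) < nd w := by
    have := nm_le_nd w
    rw [hρ]; linarith
  have hndu₀ : ¬ ((6 * d : ℕ) : ℤ) < nd u₀ := by
    have := nd_le u₀
    rw [hρ]; linarith
  obtain ⟨u₁, hu₁, hp1, hp2⟩ := (last_exit hcl hndw).resolve_left (fun h => hndu₀ h.1)
  have hRn : Rn ((6 * d : ℕ) : ℤ) k F u₁ w := by
    refine reach_mono ?_ hp2
    rintro e ⟨⟨he1, he2⟩, he3⟩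
    exact ⟨he1, hAEAn e he2 he3⟩
  -- the corridor
  have hndy : ((6 * d : ℕ) : ℤ) < nd y₀ := by
    have := nm_le_nd y₀
    rw [hρ]; linarith
  have hndx : ¬ ((6 * d : ℕ) : ℤ) < nd x₀ := by
    have := nd_le x₀
    rw [hρ]; linarith
  obtain ⟨x, hx, _, hq2⟩ := (last_exit hcor hndy).resolve_left (fun h => hndx h.1)
  have hCl : ∀ v, Rn ((6 * d : ℕ) : ℤ) k F u₁ v → v ∈ Pool.Agent.W424.OD.Cl (0, 0) d k F u₀ := by
    intro v hv
    refine Reach.trans hp1 (reach_mono ?_ hv)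
    rintro e ⟨he1, he2⟩
    exact ⟨he1, hAnAE he2⟩
  have hA3 : A3u ((6 * d : ℕ) : ℤ) k u₁ F := by
    refine ⟨hu₁, ⟨w, hw', hRn⟩, x, y₀, hx, hy₀', ?_, ?_⟩
    · intro hcon
      have h1 := hCl x hcon
      rcases Relation.ReflTransGen.cases_head hq2 with h2 | ⟨c, ⟨e, he, hh⟩, _⟩
      · rw [h2] at hx
        exact absurd hndy (by rw [hx]; exact lt_irrefl _)
      · rcases hh with ⟨h3, _⟩ | ⟨_, h3⟩
        · exact he.1.2.1 (by rw [h3]; exact h1)
        · exact he.1.2.2 (by rw [h3]; exact h1)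
    · refine reach_mono ?_ hq2
      rintro e ⟨⟨he1, he2, he3⟩, he4⟩
      exact ⟨hAEAn e he1 he4, fun h => he2 (hCl _ h), fun h => he3 (hCl _ h)⟩
  -- the collar
  have hnmu : nm u₁ ≤ ((24 * d : ℕ) : ℤ) := by
    have := nm_le_nd u₁
    rw [hu₁, hρ] at this
    rw [hr]; linarith
  have hnmw : ((24 * d : ℕ) : ℤ) ≤ nm w := by
    rw [hw', hr]; exact hk
  obtain ⟨w₁, hw₁, hp3⟩ := first_exit hRn hnmw hnmu
  have hmono : ∀ u v, Rn ((6 * d : ℕ) : ℤ) ((24 * d : ℕ) : ℤ) F u v →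
      Rn ((6 * d : ℕ) : ℤ) k F u v := by
    intro u v h
    refine reach_mono ?_ h
    rintro e ⟨he1, he2, he3⟩
    have e1 : nm (src e) ≤ ((24 * d : ℕ) : ℤ) := he2.1
    have e2 : nm (tgt e) ≤ ((24 * d : ℕ) : ℤ) := he2.2
    rw [hr] at e1 e2
    exact ⟨he1, ⟨e1.trans hk, e2.trans hk⟩, he3⟩
  have hRn1 : Rn ((6 * d : ℕ) : ℤ) ((24 * d : ℕ) : ℤ) F u₁ w₁ := by
    refine reach_mono ?_ hp3
    rintro e ⟨⟨he1, he2⟩, he3⟩
    exact ⟨he1, he3, he2.2⟩
  obtain ⟨u, hu, hru⟩ := first_vertex hu₁ hw₁ hRn1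
  exact ⟨u, a3u_congr (hmono _ _ hru) hu.1 hA3, hu⟩

end Pool.Agent.W801.OS
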