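import Pool.Agent.W801.OS.Stm3
import Pool.Agent.W801.OS.All

/-! # The coupling with a frozen collar -/

set_option autoImplicit false

namespace Pool.Agent.W801.OS
open H974 H906.Cyl H12S Finset
open Pool.Agent.H160R2.ML (nm)
open Pool.Agent.W801.OU (RZ LZ Dg nrm zp Cor scz bxz SE3 uR S_UR3 S_TRIc)
open Pool.Agent.W801.OU.TISO (Ri edz_sum dco_edz edz_eq)

namespace TCPL
open TCMP

open Classical in
/-- the filled configuration -/
noncomputable def fil (ρ : ℕ) (σ F : Finset Edg) : Finset Edg := σ ∪ F.filter (fun e => e ∉ Dd ρ)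

theorem mem_fil {ρ : ℕ} {σ F : Finset Edg} {e : Edg} :
    e ∈ fil ρ σ F ↔ e ∈ σ ∨ (e ∈ F ∧ e ∉ Dd ρ) := by
  classical
  unfold fil
  rw [Finset.mem_union, Finset.mem_filter]

theorem coe_fil {ρ : ℕ} {σ F : Finset Edg} :
    (↑(fil ρ σ F) : Set Edg) = (↑σ : Set Edg) ∪ ((↑F : Set Edg) \ Dd ρ) := by
  ext e
  rw [Finset.mem_coe, mem_fil]
  rfl

theorem nm_nd (v : Vtx) : nm v ≤ nd v := by
  unfold nm nd
  have h1 := abs_nonneg v.1
  have h2 := abs_nonneg v.2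
  rw [max_le_iff]
  omega

theorem Dd_sub {ρ r : ℕ} (h : ρ ≤ r) {e : Edg} (he : e ∈ Dd ρ) : e ∈ boxE r := by
  rw [← bxz_iff]
  obtain ⟨h1, h2⟩ := he
  have h3 : (ρ : ℤ) ≤ r := by exact_mod_cast h
  exact ⟨(nm_nd _).trans (h1.trans h3), (nm_nd _).trans (h2.trans h3)⟩

open Classical in
/-- the configuration of the dislocated plane -/
noncomputable def Gc (r R : ℕ) (F : Finset Edg) (m : ℤ × ℤ → ℤ) (H : Finset Edg) : Finset Edg :=
  (boxE (4 * R)).filter (fun e' => (∃ e ∈ boxE R, e ∉ boxE r ∧ Ex R F e ∧ img R F m e = e' ∧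
      ((e ∈ F ↔ par e) ↔ par e')) ∨
    ((¬ ∃ e ∈ boxE R, e ∉ boxE r ∧ Ex R F e ∧ img R F m e = e') ∧ e' ∈ H))

open Classical in
/-- the rest of the randomness -/
noncomputable def Kc (r R : ℕ) (X F : Finset Edg) (m : ℤ × ℤ → ℤ) (H : Finset Edg) : Finset Edg :=
  (boxE R).filter (fun e => if e ∉ boxE r ∧ Ex R X e then img R X m e ∈ H else e ∈ F)

theorem mem_Gc (hD : S_DSQ) {r R : ℕ} {F H : Finset Edg} {m : ℤ × ℤ → ℤ} (D : Dt R F m)
    (hR : 20 ≤ R) {e : Edg} (he : e ∈ boxE R) (her : e ∉ boxE r) (h : Ex R F e) :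
    img R F m e ∈ Gc r R F m H ↔ ((e ∈ F ↔ par e) ↔ par (img R F m e)) := by
  classical
  unfold Gc
  rw [Finset.mem_filter]
  constructor
  · rintro ⟨-, ⟨e2, he2, -, h2, h3, h4⟩ | ⟨h2, -⟩⟩
    · have := img_inj hD D h2 h h3
      subst this
      exact h4
    · exact absurd ⟨e, he, her, h, rfl⟩ h2
  · intro h2
    exact ⟨img_mem hD D hR he h, Or.inl ⟨e, he, her, h, rfl, h2⟩⟩

/-- propagation -/
theorem prop2 (hD : S_DSQ) {r R : ℕ} {F H F' H' : Finset Edg} {m m' : ℤ × ℤ → ℤ} (D : Dt R F m)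
    (D' : Dt R F' m') (hR : 20 ≤ R) (hin : ∀ e ∈ boxE r, (e ∈ F ↔ e ∈ F'))
    (hG : Gc r R F m H = Gc r R F' m' H') {v : Vtx}
    (h : Reach (↑F ∩ bxz R) (0, 0) v) : ch v ∈ Wc R F' ∧ m (ch v) = m' (ch v) := by
  induction h with
  | refl => exact ⟨D'.o, by
      show m (0, 0) = m' (0, 0)
      rw [D.g.zero, D'.g.zero]⟩
  | @tail u w h1 h2 ih =>
    obtain ⟨ih1, ih2⟩ := ih
    obtain ⟨e, ⟨heF, heB⟩, hst⟩ := h2
    have heF' : e ∈ F := heF
    have heB' : e ∈ boxE R := bxz_iff.1 heB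
    have huW : ch u ∈ Wc R F := mem_Wc.2 h1
    have heF2 : e ∈ F' := by
      by_cases hr : e ∈ boxE r
      · exact (hin e hr).1 heF'
      · have w1 := wit_of D.t3 heF huW hst
        have w2 : Wit R F' (ch u) e := ⟨ih1, w1.2⟩
        have x1 : Ex R F e := ⟨_, w1⟩
        have x2 : Ex R F' e := ⟨_, w2⟩
        have hk : kap m (ch u) = kap m' (ch u) := by unfold kap; rw [ih2]
        have hd : dsq m (ch u) (e.1 + e.2.1) (dco e) = dsq m' (ch u) (e.1 + e.2.1) (dco e) := by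
          unfold dsq; rw [ih2, hk]
        have hi : img R F m e = img R F' m' e := by
          rw [img_eq hD D w1, img_eq hD D' w2, hd]
        have k1 := mem_Gc hD (H := H) D hR heB' hr x1
        have k2 := mem_Gc hD (H := H') D' hR heB' hr x2
        rw [hG, hi] at k1
        exact (pp (k1.symm.trans k2)).1 heF'
    have hw : Reach (↑F ∩ bxz R) (0, 0) w := h1.tail ⟨e, ⟨heF, heB⟩, hst⟩
    have hw' : Reach (↑F' ∩ bxz R) (0, 0) w := (mem_Wc.1 ih1).tail ⟨e, ⟨heF2, heB⟩, hst⟩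
    refine ⟨mem_Wc.2 hw', ?_⟩
    rw [D.g.step _ _ huW (mem_Wc.2 hw) (ok2_of D.t3 heF huW (mem_Wc.2 hw) hst),
      D'.g.step _ _ ih1 (mem_Wc.2 hw') (ok2_of D'.t3 heF2 ih1 (mem_Wc.2 hw') hst), ih2]

/-- **injectivity** -/
theorem inj2 (hD : S_DSQ) {ρ r R : ℕ} {σ F H F' H' : Finset Edg} {m m' : ℤ × ℤ → ℤ}
    (hρ : ρ ≤ r) (hσ : ∀ e ∈ σ, e ∈ Dd ρ) (hrR : r ≤ R) (D : Dt R (fil ρ σ F) m)
    (D' : Dt R (fil ρ σ F') m') (hR : 20 ≤ R) (hF : F ⊆ boxE R) (hF' : F' ⊆ boxE R)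
    (hH : H ⊆ boxE (4 * R)) (hH' : H' ⊆ boxE (4 * R))
    (hG : Gc r R (fil ρ σ F) m H = Gc r R (fil ρ σ F') m' H')
    (hK : Kc r R (fil ρ σ F) F m H = Kc r R (fil ρ σ F') F' m' H') : F = F' ∧ H = H' := by
  classical
  have hsub : ∀ e ∈ boxE r, e ∈ boxE R := by
    intro e he
    rw [← bxz_iff] at he ⊢
    have h3 : (r : ℤ) ≤ R := by exact_mod_cast hrR
    exact ⟨he.1.trans h3, he.2.trans h3⟩
  have hin0 : ∀ e ∈ boxE r, (e ∈ F ↔ e ∈ F') := by
    intro e he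
    have h1 : e ∈ Kc r R (fil ρ σ F) F m H ↔ e ∈ Kc r R (fil ρ σ F') F' m' H' := by rw [hK]
    unfold Kc at h1
    rw [Finset.mem_filter, Finset.mem_filter, if_neg (fun h => h.1 he),
      if_neg (fun h => h.1 he)] at h1
    exact ⟨fun h => (h1.1 ⟨hsub e he, h⟩).2, fun h => (h1.2 ⟨hsub e he, h⟩).2⟩
  have hin : ∀ e ∈ boxE r, (e ∈ fil ρ σ F ↔ e ∈ fil ρ σ F') := by
    intro e he
    rw [mem_fil, mem_fil, hin0 e he]
  have hout : ∀ e, e ∉ boxE r → ∀ X : Finset Edg, (e ∈ fil ρ σ X ↔ e ∈ X) := by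
    intro e he X
    rw [mem_fil]
    constructor
    · rintro (h | h)
      · exact absurd (Dd_sub hρ (hσ e h)) he
      · exact h.1
    · intro h
      exact Or.inr ⟨h, fun h2 => he (Dd_sub hρ h2)⟩
  have hW : Wc R (↑(fil ρ σ F) : Set Edg) = Wc R (↑(fil ρ σ F') : Set Edg) := by
    ext p
    constructor
    · intro hp
      obtain ⟨v, hv, rfl⟩ := Wc_ch hp
      exact (prop2 hD D D' hR hin hG hv).1
    · intro hp
      obtain ⟨v, hv, rfl⟩ := Wc_ch hp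
      exact (prop2 hD D' D hR (fun e he => (hin e he).symm) hG.symm hv).1
  have hm : ∀ p ∈ Wc R (↑(fil ρ σ F) : Set Edg), m p = m' p := by
    intro p hp
    obtain ⟨v, hv, rfl⟩ := Wc_ch hp
    exact (prop2 hD D D' hR hin hG hv).2
  have hwit : ∀ (v : ℤ × ℤ) (e : Edg), Wit R (fil ρ σ F) v e ↔ Wit R (fil ρ σ F') v e := by
    intro v e
    unfold Wit
    rw [hW]
  have hex : ∀ e : Edg, Ex R (fil ρ σ F) e ↔ Ex R (fil ρ σ F') e := by
    intro e
    unfold TCMP.Ex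
    simp only [hwit]
  have himg : ∀ e : Edg, Ex R (fil ρ σ F) e → img R (fil ρ σ F) m e = img R (fil ρ σ F') m' e := by
    rintro e ⟨v, hv⟩
    have hv' := (hwit v e).1 hv
    rw [img_eq hD D hv, img_eq hD D' hv']
    have h1 := hm v hv.1
    have h2 : kap m v = kap m' v := by unfold kap; rw [h1]
    unfold dsq
    rw [h1, h2]
  have hFF : ∀ e ∈ boxE R, (e ∈ F ↔ e ∈ F') := by
    intro e he
    by_cases hr : e ∈ boxE r
    · exact hin0 e hr
    by_cases hx : Ex R (fil ρ σ F) e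
    · have hx' := (hex e).1 hx
      have k1 := mem_Gc hD (H := H) D hR he hr hx
      have k2 := mem_Gc hD (H := H') D' hR he hr hx'
      rw [hG, himg e hx] at k1
      have k3 := pp (k1.symm.trans k2)
      rw [hout e hr, hout e hr] at k3
      exact k3
    · have hx' : ¬ Ex R (fil ρ σ F') e := fun h => hx ((hex e).2 h)
      have h1 : e ∈ Kc r R (fil ρ σ F) F m H ↔ e ∈ Kc r R (fil ρ σ F') F' m' H' := by rw [hK]
      unfold Kc at h1
      rw [Finset.mem_filter, Finset.mem_filter, if_neg (fun h => hx h.2),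
        if_neg (fun h => hx' h.2)] at h1
      exact ⟨fun h => (h1.1 ⟨he, h⟩).2, fun h => (h1.2 ⟨he, h⟩).2⟩
  have hHH : ∀ e' ∈ boxE (4 * R), (e' ∈ H ↔ e' ∈ H') := by
    intro e' he'
    by_cases hx : ∃ e ∈ boxE R, e ∉ boxE r ∧ Ex R (fil ρ σ F) e ∧ img R (fil ρ σ F) m e = e'
    · obtain ⟨e, he, hr, hx, rfl⟩ := hx
      have hx' := (hex e).1 hx
      have h1 : e ∈ Kc r R (fil ρ σ F) F m H ↔ e ∈ Kc r R (fil ρ σ F') F' m' H' := by rw [hK]
      unfold Kc at h1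
      rw [Finset.mem_filter, Finset.mem_filter, if_pos ⟨hr, hx⟩, if_pos ⟨hr, hx'⟩,
        ← himg e hx] at h1
      exact ⟨fun h => (h1.1 ⟨he, h⟩).2, fun h => (h1.2 ⟨he, h⟩).2⟩
    · have hx' : ¬ ∃ e ∈ boxE R, e ∉ boxE r ∧ Ex R (fil ρ σ F') e ∧
          img R (fil ρ σ F') m' e = e' := by
        rintro ⟨e, he, hr, h1, h2⟩
        exact hx ⟨e, he, hr, (hex e).2 h1, by rw [himg e ((hex e).2 h1)]; exact h2⟩
      have h1 : e' ∈ Gc r R (fil ρ σ F) m H ↔ e' ∈ Gc r R (fil ρ σ F') m' H' := by rw [hG]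
      unfold Gc at h1
      rw [Finset.mem_filter, Finset.mem_filter] at h1
      have h2 : ¬ ∃ e ∈ boxE R, e ∉ boxE r ∧ Ex R (fil ρ σ F) e ∧ img R (fil ρ σ F) m e = e' ∧
          ((e ∈ fil ρ σ F ↔ par e) ↔ par e') := by
        rintro ⟨e, he, hr, h3, h4, -⟩
        exact hx ⟨e, he, hr, h3, h4⟩
      have h3 : ¬ ∃ e ∈ boxE R, e ∉ boxE r ∧ Ex R (fil ρ σ F') e ∧ img R (fil ρ σ F') m' e = e' ∧
          ((e ∈ fil ρ σ F' ↔ par e) ↔ par e') := by
        rintro ⟨e, he, hr, h3, h4, -⟩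
        exact hx' ⟨e, he, hr, h3, h4⟩
      constructor
      · intro h
        rcases (h1.1 ⟨he', Or.inr ⟨hx, h⟩⟩).2 with h4 | h4
        · exact absurd h4 h3
        · exact h4.2
      · intro h
        rcases (h1.2 ⟨he', Or.inr ⟨hx', h⟩⟩).2 with h4 | h4
        · exact absurd h4 h2
        · exact h4.2
  constructor
  · ext e
    constructor
    · intro h; exact (hFF e (hF h)).1 h
    · intro h; exact (hFF e (hF' h)).2 h
  · ext e
    constructor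
    · intro h; exact (hHH e (hH h)).1 h
    · intro h; exact (hHH e (hH' h)).2 h

/-- the gauge is the winding number of the walks -/
theorem gau_ch {W : Set (ℤ × ℤ)} {m : ℤ × ℤ → ℤ} (g : Gau W m) {v : ℤ × ℤ} {φ : ℤ × ℤ → ℤ}
    (h : Ch W (0, 0) v φ) : v ∈ W ∧ m v = φ (0, 0) := by
  induction h with
  | nil hu => exact ⟨hu, g.zero⟩
  | cons v w φ h1 hw ho ih =>
    obtain ⟨h2, h3⟩ := ih
    exact ⟨hw, by rw [g.step v w h2 hw ho, h3]⟩

/-- images of the squares of the collar -/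
theorem img_near (hD : S_DSQ) {R : ℕ} {F : Set Edg} {m : ℤ × ℤ → ℤ} (D : Dt R F m) {C : ℕ}
    (hC : ∀ v ∈ Wc R F, |m v| ≤ C * (|v.1| + |v.2| + 1)) {r : ℕ} (hr : 1 ≤ r) {e : Edg}
    (he : e ∈ boxE r) (h : Ex R F e) (T : ℤ) : img R F m e ∉ AnZ ((20 + 8 * C) * r : ℕ) T := by
  obtain ⟨v, hv⟩ := h
  have h1 := hC v hv.1
  have h2 := dsq_snd hD D hv
  have h4 : edz (e.1 + e.2.1) (dco e) ∈ bxz r := by rw [edz_eq, bxz_iff]; exact he
  have h5 := bxz_bound h4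
  have hcn := hv.2.1
  unfold Cnr at hcn
  have v1 : |v.1| ≤ 2 * r + 1 := by
    rcases abs_cases v.1 with h | h <;> rcases abs_cases (e.1 + e.2.1) with h' | h' <;> omega
  have v2 : |v.2| ≤ 2 * r + 2 := by
    rcases abs_cases v.2 with h | h <;> rcases abs_cases (dco e) with h' | h' <;> omega
  have hC0 : (0 : ℤ) ≤ C := Int.natCast_nonneg C
  have m1 : |m v| ≤ C * (4 * r + 4) := by
    refine h1.trans (mul_le_mul_of_nonneg_left (by omega) hC0)
  have k1 : |kap m v| ≤ C * (4 * r + 4) + 1 := by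
    unfold kap
    split_ifs
    · have := abs_add_le (m v) 1
      simp only [abs_one] at this
      omega
    · rw [add_zero]; omega
  have h3 : |(dsq m v (e.1 + e.2.1) (dco e)).1| ≤ 2 * r + C * (4 * r + 4) + 2 := by
    unfold dsq unS
    split_ifs
    · have := abs_sub (e.1 + e.2.1) (m v)
      simp only
      omega
    · have := abs_sub (e.1 + e.2.1) (kap m v)
      simp only
      omega
    · have := abs_sub (e.1 + e.2.1) (kap m v)
      have h5 := abs_add_le (e.1 + e.2.1 - kap m v) 1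
      simp only [abs_one] at h5 ⊢
      omega
  rw [img_eq hD D hv, h2]
  intro hA
  have hr' : (1 : ℤ) ≤ r := by exact_mod_cast hr
  have h6 : edz (dsq m v (e.1 + e.2.1) (dco e)).1 (dco e) ∈ bxz ((9 + 8 * C) * r : ℤ) := by
    apply bxz_of_bound
    nlinarith [h5.2, mul_nonneg hC0 (by omega : (0 : ℤ) ≤ r - 1)]
  have h7 := h6.1
  have h8 := hA.1.1
  push_cast at h8
  nlinarith [mul_nonneg hC0 (by omega : (0 : ℤ) ≤ r)]

/-- the event in the dislocated plane -/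
theorem v3 (hD : S_DSQ) {ρ r R : ℕ} {σ F H : Finset Edg} {m : ℤ × ℤ → ℤ}
    (D : Dt R (fil ρ σ F) m) (hR : 20 ≤ R) {C : ℕ}
    (hC : ∀ v ∈ Wc R (↑(fil ρ σ F) : Set Edg), |m v| ≤ C * (|v.1| + |v.2| + 1)) (hr : 1 ≤ r) :
    V3 ((20 + 8 * C) * r : ℕ) (R / 20 : ℕ) (↑(Gc r R (fil ρ σ F) m H) : Set Edg) := by
  classical
  refine ⟨(↑(Gf R (fil ρ σ F) m H) : Set Edg), ?_, o1_se3 (R / 20) _ (by omega) (o1 hD D hR)⟩
  intro e' he'
  rw [Finset.mem_coe, Finset.mem_coe]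
  unfold Gf Gc
  rw [Finset.mem_filter, Finset.mem_filter]
  refine and_congr_right fun _ => ?_
  have key : ∀ e, e ∈ boxE R → Ex R (fil ρ σ F) e → img R (fil ρ σ F) m e = e' → e ∉ boxE r := by
    intro e _ hx hi her
    exact img_near hD D hC hr her hx _ (hi ▸ he')
  constructor
  · rintro (⟨e, h1, h2, h3, h4⟩ | ⟨h1, h2⟩)
    · exact Or.inl ⟨e, h1, key e h1 h2 h3, h2, h3, h4⟩
    · refine Or.inr ⟨?_, h2⟩
      rintro ⟨e, h3, -, h4, h5⟩
      exact h1 ⟨e, h3, h4, h5⟩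
  · rintro (⟨e, h1, -, h2, h3, h4⟩ | ⟨h1, h2⟩)
    · exact Or.inl ⟨e, h1, h2, h3, h4⟩
    · refine Or.inr ⟨?_, h2⟩
      rintro ⟨e, h3, h4, h5⟩
      exact h1 ⟨e, h3, key e h3 h4 h5, h4, h5⟩

/-- comparison by an injection -/
theorem count2 (E E' : Finset Edg) (A B B' : Finset Edg → Prop)
    (f : Finset Edg → Finset Edg → Finset Edg × Finset Edg)
    (h1 : ∀ F H, F ⊆ E → H ⊆ E' → A F → (f F H).1 ⊆ E' ∧ B (f F H).1 ∧ (f F H).2 ⊆ E ∧
      B' (f F H).2)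
    (h2 : ∀ F H F' H', F ⊆ E → H ⊆ E' → F' ⊆ E → H' ⊆ E' → A F → A F' → f F H = f F' H' →
      F = F' ∧ H = H') :
    Pr (fun _ => (1 / 2 : ℝ)) E A ≤
      Pr (fun _ => (1 / 2 : ℝ)) E B' * Pr (fun _ => (1 / 2 : ℝ)) E' B := by
  classical
  rw [Pr_half, Pr_half, Pr_half, sum_ind, sum_ind, sum_ind]
  have hc : (E.powerset.filter A).card * E'.powerset.card ≤
      (E'.powerset.filter B).card * (E.powerset.filter B').card := by
    rw [← Finset.card_product, ← Finset.card_product]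
    refine Finset.card_le_card_of_injOn (fun p => f p.1 p.2) ?_ ?_
    · rintro ⟨F, H⟩ hp
      simp only [Finset.coe_product, Set.mem_prod, Finset.mem_coe, Finset.mem_filter,
        Finset.mem_powerset] at hp ⊢
      obtain ⟨⟨h3, h4⟩, h5⟩ := hp
      obtain ⟨h6, h7, h8, h9⟩ := h1 F H h3 h5 h4
      exact ⟨⟨h6, h7⟩, ⟨h8, h9⟩⟩
    · rintro ⟨F, H⟩ hp ⟨F', H'⟩ hp' he
      simp only [Finset.coe_product, Set.mem_prod, Finset.mem_coe, Finset.mem_filter,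
        Finset.mem_powerset] at hp hp' he
      obtain ⟨h3, h4⟩ := h2 F H F' H' hp.1.1 hp.2 hp'.1.1 hp'.2 hp.1.2 hp'.1.2 he
      rw [h3, h4]
  rw [Finset.card_powerset] at hc
  have hc' : ((E.powerset.filter A).card : ℝ) * 2 ^ E'.card ≤
      ((E'.powerset.filter B).card : ℝ) * ((E.powerset.filter B').card : ℝ) := by exact_mod_cast hc
  have e1 : (1 / 2 : ℝ) ^ E'.card * 2 ^ E'.card = 1 := by rw [← mul_pow]; norm_num
  calc (1 / 2 : ℝ) ^ E.card * ((E.powerset.filter A).card : ℝ)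
      = (1 / 2 : ℝ) ^ E.card * (1 / 2 : ℝ) ^ E'.card *
          (((E.powerset.filter A).card : ℝ) * 2 ^ E'.card) := by
        rw [show (1 / 2 : ℝ) ^ E.card * (1 / 2 : ℝ) ^ E'.card *
          (((E.powerset.filter A).card : ℝ) * 2 ^ E'.card) = (1 / 2 : ℝ) ^ E.card *
            ((E.powerset.filter A).card : ℝ) * ((1 / 2 : ℝ) ^ E'.card * 2 ^ E'.card) by ring, e1,
          mul_one]
    _ ≤ (1 / 2 : ℝ) ^ E.card * (1 / 2 : ℝ) ^ E'.card *
          (((E'.powerset.filter B).card : ℝ) * ((E.powerset.filter B').card : ℝ)) :=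
        mul_le_mul_of_nonneg_left hc' (by positivity)
    _ = _ := by ring

theorem v3_local (D r : ℕ) (G : Finset Edg) :
    V3 D r (↑G : Set Edg) ↔ V3 D r (↑(G ∩ boxE r) : Set Edg) := by
  unfold V3
  refine exists_congr fun H => and_congr_left fun _ => forall_congr' fun e => ?_
  refine forall_congr' fun he => iff_congr Iff.rfl ?_
  have h1 : e ∈ boxE r := by
    rw [← bxz_iff]
    exact ⟨he.1.2, he.2.2⟩
  rw [Finset.mem_coe, Finset.mem_coe, Finset.mem_inter]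
  exact ⟨fun h => ⟨h, h1⟩, fun h => h.1⟩

end TCPL

open TCMP TCPL in
/-- **the coupling with a frozen collar** -/
theorem t_CPL : S_GLB → S_CPL := by
  classical
  rintro ⟨C0, hC0, hGL⟩
  obtain ⟨C, rfl⟩ : ∃ C : ℕ, C0 = C := ⟨C0.toNat, by omega⟩
  refine ⟨20 + 8 * C, by omega, ?_⟩
  intro ρ r R hρ hr hR0 σ hσ Q
  have hr1 : 1 ≤ r := hρ.trans hr
  have hrR : r ≤ R := by nlinarith
  have hR : 20 ≤ R := by nlinarith
  have hex : ∀ F : Finset Edg, T3 R (↑(fil ρ σ F) : Set Edg) →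
      ∃ m : ℤ × ℤ → ℤ, Dt R (↑(fil ρ σ F) : Set Edg) m ∧
        ∀ v ∈ Wc R (↑(fil ρ σ F) : Set Edg), |m v| ≤ C * (|v.1| + |v.2| + 1) := by
    intro F hF
    obtain ⟨h1, h2, h3, h4⟩ := t_COR R (↑(fil ρ σ F) : Set Edg)
      (by exact_mod_cast (by omega : 1 ≤ R)) hF
    obtain ⟨m, hm⟩ := a_GAU _ h1 h2 h3
    refine ⟨m, ⟨hF, h1, h3.1, hm, ?_⟩, ?_⟩
    · exact t_GB _ m R h1 h3 hm (by exact_mod_cast (by omega : 1 ≤ R)) (fun u hu => by
        have := h4 u hu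
        have := abs_nonneg u.2
        omega)
    · intro v hv
      obtain ⟨φ, hφ⟩ := h3.2 v hv
      rw [(gau_ch hm hφ).2]
      exact hGL _ h1 h2 v φ hφ
  obtain ⟨mf, hmf⟩ : ∃ mf : Finset Edg → ℤ × ℤ → ℤ, ∀ F : Finset Edg,
      T3 R (↑(fil ρ σ F) : Set Edg) → Dt R (↑(fil ρ σ F) : Set Edg) (mf F) ∧
        ∀ v ∈ Wc R (↑(fil ρ σ F) : Set Edg), |mf F v| ≤ C * (|v.1| + |v.2| + 1) := by
    refine ⟨fun F => if h : T3 R (↑(fil ρ σ F) : Set Edg) then (hex F h).choose else 0,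
      fun F hF => ?_⟩
    simp only [dif_pos hF]
    exact (hex F hF).choose_spec
  have hsubr : boxE r ⊆ boxE R := by
    intro e he
    rw [← bxz_iff] at he ⊢
    have h3 : (r : ℤ) ≤ R := by exact_mod_cast hrR
    exact ⟨he.1.trans h3, he.2.trans h3⟩
  have h1 := count2 (boxE R) (boxE (4 * R))
    (fun F => Q (F ∩ boxE r) ∧ T3 R (↑(fil ρ σ F) : Set Edg))
    (fun G => V3 ((20 + 8 * C) * r : ℕ) (R / 20 : ℕ) (↑G : Set Edg))
    (fun K => Q (K ∩ boxE r))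
    (fun F H => (Gc r R (fil ρ σ F) (mf F) H, Kc r R (fil ρ σ F) F (mf F) H)) ?_ ?_
  · have e1 : Pr (fun _ => (1 / 2 : ℝ)) (boxE R) (fun K => Q (K ∩ boxE r)) =
        Pr (fun _ => (1 / 2 : ℝ)) (boxE r) Q := by
      rw [Pr_local hsubr (A := fun K => Q (K ∩ boxE r))
        (fun F _ => by rw [Finset.inter_assoc, Finset.inter_self])]
      apply Pr_congr
      intro F hF
      rw [Finset.inter_eq_left.mpr hF]
    have e2 : Pr (fun _ => (1 / 2 : ℝ)) (boxE (4 * R))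
        (fun G => V3 ((20 + 8 * C) * r : ℕ) (R / 20 : ℕ) (↑G : Set Edg)) =
        Pr (fun _ => (1 / 2 : ℝ)) (boxE (R / 20))
        (fun G => V3 ((20 + 8 * C) * r : ℕ) (R / 20 : ℕ) (↑G : Set Edg)) := by
      refine Pr_local ?_ fun G _ => v3_local _ _ _
      intro e he
      rw [← bxz_iff] at he ⊢
      have h3 : ((R / 20 : ℕ) : ℤ) ≤ ((4 * R : ℕ) : ℤ) := by
        have := Nat.div_le_self R 20
        omega
      exact ⟨he.1.trans h3, he.2.trans h3⟩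
    rw [e1, e2] at h1
    simp only [coe_fil] at h1
    exact h1
  · intro F H hF hH hA
    refine ⟨Finset.filter_subset _ _, v3 t_DSQ (hmf F hA.2).1 hR (hmf F hA.2).2 hr1,
      Finset.filter_subset _ _, ?_⟩
    have e3 : Kc r R (fil ρ σ F) F (mf F) H ∩ boxE r = F ∩ boxE r := by
      ext e
      unfold Kc
      rw [Finset.mem_inter, Finset.mem_inter, Finset.mem_filter]
      constructor
      · rintro ⟨⟨h2, h3⟩, h4⟩
        rw [if_neg (fun h => h.1 h4)] at h3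
        exact ⟨h3, h4⟩
      · rintro ⟨h2, h3⟩
        refine ⟨⟨hsubr h3, ?_⟩, h3⟩
        rw [if_neg (fun h => h.1 h3)]
        exact h2
    show Q (Kc r R (fil ρ σ F) F (mf F) H ∩ boxE r)
    rw [e3]
    exact hA.1
  · intro F H F' H' hF hH hF' hH' hA hA' he
    have h1 := congrArg Prod.fst he
    have h2 := congrArg Prod.snd he
    exact inj2 t_DSQ hr hσ hrR (hmf F hA.2).1 (hmf F' hA'.2).1 hR hF hF' hH hH' h1 h2

end Pool.Agent.W801.OS
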