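import Pool.Agent.W801.OS.Stm3

/-!
# Filling the inside of the rotated box
-/

set_option autoImplicit false

namespace Pool.Agent.W801.OS
open H974 H906.Cyl H12S Finset
open Pool.Agent.H160R2.ML (nm)
open Pool.Agent.W801.OU (RZ LZ Dg nrm zp Cor scz bxz SE3 uR S_UR3 S_TRIc)
open Pool.Agent.W424.OD (A3v)

namespace FILp

/-- edges with both ends in `g` -/
def EG (g : Vtx → Prop) : Set Edg := {e | g (src e) ∧ g (tgt e)}

theorem hsegN (g : Vtx → Prop) (y x : ℤ) (k : ℕ) (h : ∀ i : ℕ, i ≤ k → g (x + i, y)) :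
    Reach (EG g) (x, y) (x + k, y) := by
  induction k with
  | zero =>
    have : ((x + ((0 : ℕ) : ℤ), y) : Vtx) = (x, y) := by simp
    rw [this]; exact Reach.refl _ _
  | succ k ih =>
    refine (ih fun i hi => h i (by omega)).trans (Adj.reach ⟨(x + k, y, true), ⟨?_, ?_⟩, ?_⟩)
    · exact h k (by omega)
    · have := h (k + 1) le_rfl
      rw [tgt_true]
      push_cast at this
      rwa [add_assoc]
    · left
      refine ⟨rfl, ?_⟩
      rw [tgt_true]
      push_cast
      rw [add_assoc]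

theorem vsegN (g : Vtx → Prop) (x y : ℤ) (k : ℕ) (h : ∀ i : ℕ, i ≤ k → g (x, y + i)) :
    Reach (EG g) (x, y) (x, y + k) := by
  induction k with
  | zero =>
    have : ((x, y + ((0 : ℕ) : ℤ)) : Vtx) = (x, y) := by simp
    rw [this]; exact Reach.refl _ _
  | succ k ih =>
    refine (ih fun i hi => h i (by omega)).trans (Adj.reach ⟨(x, y + k, false), ⟨?_, ?_⟩, ?_⟩)
    · exact h k (by omega)
    · have := h (k + 1) le_rfl
      rw [tgt_false]
      push_cast at this
      rwa [add_assoc]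
    · left
      refine ⟨rfl, ?_⟩
      rw [tgt_false]
      push_cast
      rw [add_assoc]

theorem hseg {g : Vtx → Prop} {y x x' : ℤ} (hx : x ≤ x')
    (h : ∀ t, x ≤ t → t ≤ x' → g (t, y)) : Reach (EG g) (x, y) (x', y) := by
  obtain ⟨k, hk⟩ := Int.le.dest hx
  have := hsegN g y x k (fun i hi => h _ (by omega) (by omega))
  rwa [hk] at this

theorem vseg {g : Vtx → Prop} {x y y' : ℤ} (hy : y ≤ y')
    (h : ∀ t, y ≤ t → t ≤ y' → g (x, t)) : Reach (EG g) (x, y) (x, y') := by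
  obtain ⟨k, hk⟩ := Int.le.dest hy
  have := vsegN g x y k (fun i hi => h _ (by omega) (by omega))
  rwa [hk] at this

/-- vertices allowed for the corridor to `x` -/
def gd (ρ : ℤ) (P : Set Vtx) (x : Vtx) (v : Vtx) : Prop :=
  v ∉ P ∧ nd v ≤ ρ ∧ (nd v < ρ ∨ v = x)

/-- a filling -/
structure Fl (ρ : ℤ) (u : Vtx) (P : Set Vtx) : Prop where
  zero : ((0, 0) : Vtx) ∈ P
  up : u ∈ P
  lt : ∀ v ∈ P, v = u ∨ nd v < ρ
  con : ∀ v ∈ P, Reach (EG (· ∈ P)) (0, 0) v
  n1 : ((0, 1) : Vtx) ∉ P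
  n2 : ((-1, 0) : Vtx) ∉ P
  cor : ∀ x : Vtx, nd x = ρ → x ≠ u →
    ∃ p : Vtx, (p = (0, 1) ∨ p = (-1, 0)) ∧ Reach (EG (gd ρ P x)) p x

theorem nd_adj (e : Edg) : nd (tgt e) ≤ nd (src e) + 1 ∧ nd (src e) ≤ nd (tgt e) + 1 := by
  obtain ⟨x, y, b⟩ := e
  cases b
  · simp only [tgt_false, src_mk, nd]
    constructor
    · have := abs_add_le y 1
      simp only [abs_one] at this
      omega
    · have := abs_add_le (y + 1) (-1)
      simp only [abs_neg, abs_one, add_neg_cancel_right] at this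
      omega
  · simp only [tgt_true, src_mk, nd]
    constructor
    · have := abs_add_le x 1
      simp only [abs_one] at this
      omega
    · have := abs_add_le (x + 1) (-1)
      simp only [abs_neg, abs_one, add_neg_cancel_right] at this
      omega

theorem nm_le_nd (v : Vtx) : nm v ≤ nd v := by
  unfold nm nd
  exact max_le (by have := abs_nonneg v.2; omega) (by have := abs_nonneg v.1; omega)

theorem Dd_bxz {ρ R : ℤ} (h : ρ ≤ R) {e : Edg} (he : e ∈ Dd ρ) : e ∈ bxz R :=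
  ⟨(nm_le_nd _).trans (he.1.trans h), (nm_le_nd _).trans (he.2.trans h)⟩

theorem An_nd {ρ R : ℤ} {e : Edg} (he : e ∈ An ρ R) : ρ ≤ nd (src e) ∧ ρ ≤ nd (tgt e) := by
  have h1 := nd_adj e
  have h2 : ¬ (nd (src e) ≤ ρ ∧ nd (tgt e) ≤ ρ) := he.2
  omega

theorem Rn_nd {ρ R : ℤ} {F : Set Edg} {u v : Vtx} (hu : nd u = ρ) (h : Rn ρ R F u v) :
    ρ ≤ nd v := by
  induction h with
  | refl => exact hu.ge
  | tail _ hs _ =>
    obtain ⟨e, he, h | h⟩ := hs
    · rw [← h.2]; exact (An_nd he.2).2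
    · rw [← h.1]; exact (An_nd he.2).1

theorem fil_of {ρ : ℤ} {u : Vtx} (hρ : 6 ≤ ρ) (hu : nd u = ρ) {P : Set Vtx} (hP : Fl ρ u P) :
    ∃ σ : Finset Edg, (∀ e ∈ σ, e ∈ Dd ρ) ∧ ∀ (R : ℤ) (F : Set Edg), ρ ≤ R → A3u ρ R u F →
      T3 R ((↑σ : Set Edg) ∪ (F \ Dd ρ)) := by
  classical
  have hPle : ∀ v ∈ P, nd v ≤ ρ := by
    intro v hv
    rcases hP.lt v hv with h | h
    · rw [h]; exact hu.le
    · exact h.le
  let σ : Finset Edg := ((Finset.Icc (-ρ) ρ) ×ˢ ((Finset.Icc (-ρ) ρ) ×ˢ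
    (Finset.univ : Finset Bool))).filter (fun e => src e ∈ P ∧ tgt e ∈ P)
  have hσ : ∀ e : Edg, e ∈ σ ↔ src e ∈ P ∧ tgt e ∈ P := by
    intro e
    rw [Finset.mem_filter]
    refine ⟨fun h => h.2, fun h => ⟨?_, h⟩⟩
    have h1 := hPle _ h.1
    have h2 : |e.1| + |e.2.1| ≤ ρ := h1
    have h3 := abs_nonneg e.1
    have h4 := abs_nonneg e.2.1
    have h5 := abs_le.mp (show |e.1| ≤ ρ by omega)
    have h6 := abs_le.mp (show |e.2.1| ≤ ρ by omega)
    simp only [Finset.mem_product, Finset.mem_Icc, Finset.mem_univ, and_true]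
    exact ⟨h5, h6⟩
  refine ⟨σ, fun e he => ?_, fun R F hR hA => ?_⟩
  · have := (hσ e).mp he
    exact ⟨hPle _ this.1, hPle _ this.2⟩
  obtain ⟨-, ⟨w, hwR, hw⟩, x, y, hx, hy, hux, hxy⟩ := hA
  set F' : Set Edg := (↑σ : Set Edg) ∪ (F \ Dd ρ) with hF'
  -- the cluster
  have hcl : ∀ v, Reach (F' ∩ bxz R) (0, 0) v → v ∈ P ∨ Rn ρ R F u v := by
    intro v hv
    induction hv with
    | refl => exact Or.inl hP.zero
    | @tail v w' _ hs ih =>
      obtain ⟨e, ⟨he | he, heR⟩, hends⟩ := hs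
      · have h1 := (hσ e).mp he
        rcases hends with h | h
        · left; rw [← h.2]; exact h1.2
        · left; rw [← h.1]; exact h1.1
      · have heA : e ∈ F ∩ An ρ R := ⟨he.1, heR, he.2⟩
        have hstep : Rn ρ R F v w' := Adj.reach ⟨e, heA, hends⟩
        rcases ih with hv | hv
        · rcases hP.lt v hv with h | h
          · rw [h] at hstep; exact Or.inr hstep
          · exfalso
            have h2 := An_nd heA.2
            rcases hends with h3 | h3
            · rw [h3.1] at h2; omega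
            · rw [h3.2] at h2; omega
        · exact Or.inr (hv.trans hstep)
  have hn : ∀ v, v ∉ P → ¬ Rn ρ R F u v → ¬ Reach (F' ∩ bxz R) (0, 0) v := by
    intro v h1 h2 h3
    rcases hcl v h3 with h | h
    · exact h1 h
    · exact h2 h
  have hn' : ∀ v, v ∉ P → nd v < ρ → ¬ Reach (F' ∩ bxz R) (0, 0) v := by
    intro v h1 h2
    refine hn v h1 fun h3 => ?_
    have := Rn_nd hu h3
    omega
  have hxu : x ≠ u := by
    rintro rfl
    exact hux (Reach.refl _ _)
  have hxP : x ∉ P := by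
    intro h
    rcases hP.lt x h with h1 | h1
    · exact hxu h1
    · omega
  have h01 : nd ((0, 1) : Vtx) = 1 := by simp [nd]
  have h10 : nd ((-1, 0) : Vtx) = 1 := by simp [nd]
  have h00 : nd ((0, 0) : Vtx) = 0 := by simp [nd]
  refine ⟨⟨?_, ?_⟩, ⟨w, hwR, ?_⟩, ?_⟩
  · rintro (h | h)
    · exact hP.n1 ((hσ _).mp h).2
    · exact h.2 ⟨by rw [src_mk, h00]; omega, by rw [tgt_false]; simp [nd]; omega⟩
  · rintro (h | h)
    · exact hP.n2 ((hσ _).mp h).1
    · exact h.2 ⟨by rw [src_mk, h10]; omega, by rw [tgt_true]; simp [nd]; omega⟩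
  · refine Reach.trans ((hP.con u hP.up).mono ?_) (Reach.mono ?_ hw)
    · intro e he
      have he' := (hσ e).mpr he
      exact ⟨Or.inl he', Dd_bxz hR ⟨hPle _ he.1, hPle _ he.2⟩⟩
    · rintro e ⟨he, he1, he2⟩
      exact ⟨Or.inr ⟨he, he2⟩, he1⟩
  · obtain ⟨p, hp, hpx⟩ := hP.cor x hx hxu
    refine ⟨p, y, hp, hy, ?_, ?_⟩
    · rcases hp with rfl | rfl
      · exact hn' _ hP.n1 (by omega)
      · exact hn' _ hP.n2 (by omega)
    · have hgd : ∀ v, gd ρ P x v → ¬ Reach (F' ∩ bxz R) (0, 0) v := by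
        rintro v ⟨h1, -, h3 | h3⟩
        · exact hn' v h1 h3
        · rw [h3]; exact hn x hxP hux
      refine Reach.trans (hpx.mono ?_) (hxy.mono ?_)
      · rintro e ⟨h1, h2⟩
        exact ⟨Dd_bxz hR ⟨h1.2.1, h2.2.1⟩, hgd _ h1, hgd _ h2⟩
      · rintro e ⟨h1, h2, h3⟩
        have h4 := An_nd h1
        have key : ∀ v, ρ ≤ nd v → ¬ Rn ρ R F u v → ¬ Reach (F' ∩ bxz R) (0, 0) v := by
          intro v h5 h6
          refine hn v (fun h7 => ?_) h6
          rcases hP.lt v h7 with h8 | h8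
          · rw [h8] at h6; exact h6 (Reach.refl _ _)
          · omega
        exact ⟨h1.1, key _ h4.1 h2, key _ h4.2 h3⟩

/-- the path down and to the right -/
def PD (a b : ℤ) : Set Vtx :=
  {v | (v.1 = 0 ∧ -b ≤ v.2 ∧ v.2 ≤ 0) ∨ (v.2 = -b ∧ 0 ≤ v.1 ∧ v.1 ≤ a)}

theorem abs_cases' (t : ℤ) : (0 ≤ t ∧ |t| = t) ∨ (t < 0 ∧ |t| = -t) := by
  rcases le_or_gt 0 t with h | h
  · exact Or.inl ⟨h, abs_of_nonneg h⟩
  · exact Or.inr ⟨h, abs_of_neg h⟩

theorem fl_PD {ρ a b : ℤ} (ha : 0 ≤ a) (hb : 0 ≤ b) (hab : a + b = ρ) (hρ : 6 ≤ ρ)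
    (hb3 : b ≤ ρ - 3) : Fl ρ (a, -b) (PD a b) := by
  have ndm : ∀ s t : ℤ, nd (s, t) = |s| + |t| := fun _ _ => rfl
  refine ⟨Or.inl ⟨rfl, by simp [hb], le_rfl⟩, Or.inr ⟨rfl, ha, le_rfl⟩, ?_, ?_, ?_, ?_, ?_⟩
  · rintro ⟨s, t⟩ hv
    simp only [PD, Set.mem_ofPred_eq] at hv
    rw [ndm, Prod.mk.injEq]
    have h1 := abs_cases' s
    have h2 := abs_cases' t
    omega
  · rintro ⟨s, t⟩ hv
    simp only [PD, Set.mem_ofPred_eq] at hv
    have hcol : ∀ t' : ℤ, -b ≤ t' → t' ≤ 0 → Reach (EG (· ∈ PD a b)) (0, 0) (0, t') := by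
      intro t' h1 h2
      refine Reach.symm (vseg h2 fun r hr hr' => ?_)
      exact Or.inl ⟨rfl, by simp only; omega, hr'⟩
    rcases hv with ⟨h1, h2, h3⟩ | ⟨h1, h2, h3⟩
    · subst h1; exact hcol t h2 h3
    · subst h1
      refine (hcol (-b) le_rfl (by omega)).trans (hseg h2 fun r hr hr' => ?_)
      exact Or.inr ⟨rfl, hr, by simp only; omega⟩
  · simp only [PD, Set.mem_ofPred_eq]; omega
  · simp only [PD, Set.mem_ofPred_eq]; omega
  · rintro ⟨s, t⟩ hx hne
    rw [ndm] at hx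
    rw [Ne, Prod.mk.injEq] at hne
    have h1 := abs_cases' s
    have h2 := abs_cases' t
    -- membership in the corridor
    have gdI : ∀ s' t' : ℤ, ¬ ((s' = 0 ∧ -b ≤ t' ∧ t' ≤ 0) ∨ (t' = -b ∧ 0 ≤ s' ∧ s' ≤ a)) →
        (|s'| + |t'| < ρ ∨ (s' = s ∧ t' = t)) → gd ρ (PD a b) (s, t) (s', t') := by
      intro s' t' h3 h4
      refine ⟨h3, ?_, ?_⟩
      · rw [ndm]
        rcases h4 with h4 | ⟨rfl, rfl⟩
        · exact h4.le
        · exact hx.le
      · rw [ndm, Prod.mk.injEq]; exact h4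
    by_cases c1 : 1 ≤ t
    · refine ⟨(0, 1), Or.inl rfl, ?_⟩
      have g1 : Reach (EG (gd ρ (PD a b) (s, t))) (0, 1) (0, t) := by
        refine vseg c1 fun r hr hr' => gdI _ _ (by omega) ?_
        have h3 := abs_cases' r
        rw [abs_zero]
        omega
      refine g1.trans ?_
      rcases le_or_gt 0 s with hs | hs
      · refine hseg hs fun r hr hr' => gdI _ _ (by omega) ?_
        have h3 := abs_cases' r
        omega
      · refine Reach.symm (hseg hs.le fun r hr hr' => gdI _ _ (by omega) ?_)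
        have h3 := abs_cases' r
        omega
    by_cases c2 : s ≤ -1
    · refine ⟨(-1, 0), Or.inr rfl, ?_⟩
      have g1 : Reach (EG (gd ρ (PD a b) (s, t))) (-1, 0) (-1, t) := by
        refine Reach.symm (vseg (by omega) fun r hr hr' => gdI _ _ (by omega) ?_)
        have h3 := abs_cases' r
        have h4 : |(-1 : ℤ)| = 1 := by decide
        rw [h4]
        omega
      refine g1.trans (Reach.symm (hseg c2 fun r hr hr' => gdI _ _ (by omega) ?_))
      have h3 := abs_cases' r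
      omega
    by_cases c3 : -b < t
    · have hs : 1 ≤ s := by omega
      refine ⟨(0, 1), Or.inl rfl, ?_⟩
      have g0 : Reach (EG (gd ρ (PD a b) (s, t))) (0, 1) (1, 1) := by
        refine hseg (by omega) fun r hr hr' => gdI _ _ (by omega) ?_
        have h3 := abs_cases' r
        rw [abs_one]
        omega
      have g1 : Reach (EG (gd ρ (PD a b) (s, t))) (1, 1) (1, t) := by
        refine Reach.symm (vseg (by omega) fun r hr hr' => gdI _ _ (by omega) ?_)
        have h3 := abs_cases' r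
        rw [abs_one]
        omega
      refine (g0.trans g1).trans (hseg hs fun r hr hr' => gdI _ _ (by omega) ?_)
      have h3 := abs_cases' r
      omega
    · have ht : t < -b := by omega
      have hs : 0 ≤ s := by omega
      refine ⟨(-1, 0), Or.inr rfl, ?_⟩
      have g0 : Reach (EG (gd ρ (PD a b) (s, t))) (-1, 0) (-1, -b - 1) := by
        refine Reach.symm (vseg (by omega) fun r hr hr' => gdI _ _ (by omega) ?_)
        have h3 := abs_cases' r
        have h4 : |(-1 : ℤ)| = 1 := by decide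
        rw [h4]
        omega
      have g1 : Reach (EG (gd ρ (PD a b) (s, t))) (-1, -b - 1) (0, -b - 1) := by
        refine hseg (by omega) fun r hr hr' => gdI _ _ (by omega) ?_
        have h3 := abs_cases' r
        have h4 := abs_cases' (-b - 1)
        omega
      have g2 : Reach (EG (gd ρ (PD a b) (s, t))) (0, -b - 1) (0, t) := by
        refine Reach.symm (vseg (by omega) fun r hr hr' => gdI _ _ (by omega) ?_)
        have h3 := abs_cases' r
        rw [abs_zero]
        omega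
      refine ((g0.trans g1).trans g2).trans (hseg hs fun r hr hr' => gdI _ _ (by omega) ?_)
      have h3 := abs_cases' r
      omega

/-! ### the reflection -/

/-- the reflection -/
def rs (v : Vtx) : Vtx := (-v.2, -v.1)

theorem rs_rs (v : Vtx) : rs (rs v) = v := by
  unfold rs; simp

theorem nd_rs (v : Vtx) : nd (rs v) = nd v := by
  unfold nd rs
  simp only [abs_neg]
  ring

theorem adj_rs {g g' : Vtx → Prop} (h : ∀ v, g v → g' (rs v)) {v w : Vtx}
    (ha : H974.Adj (EG g) v w) : H974.Adj (EG g') (rs v) (rs w) := by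
  obtain ⟨⟨x, y, b⟩, ⟨h1, h2⟩, h3⟩ := ha
  cases b
  · rw [src_mk] at h1 h3
    rw [tgt_false] at h2 h3
    refine ⟨(-y - 1, -x, true), ⟨?_, ?_⟩, ?_⟩
    · have := h _ h2
      have e1 : rs (x, y + 1) = src (-y - 1, -x, true) := by
        simp [rs]; ring
      rwa [e1] at this
    · have := h _ h1
      have e1 : rs (x, y) = tgt (-y - 1, -x, true) := by
        simp [rs]
      rwa [e1] at this
    · rcases h3 with ⟨rfl, rfl⟩ | ⟨rfl, rfl⟩
      · right; constructor <;> simp [rs]; ring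
      · left; constructor <;> simp [rs]; ring
  · rw [src_mk] at h1 h3
    rw [tgt_true] at h2 h3
    refine ⟨(-y, -x - 1, false), ⟨?_, ?_⟩, ?_⟩
    · have := h _ h2
      have e1 : rs (x + 1, y) = src (-y, -x - 1, false) := by
        simp [rs]; ring
      rwa [e1] at this
    · have := h _ h1
      have e1 : rs (x, y) = tgt (-y, -x - 1, false) := by
        simp [rs]
      rwa [e1] at this
    · rcases h3 with ⟨rfl, rfl⟩ | ⟨rfl, rfl⟩
      · right; constructor <;> simp [rs]; ring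
      · left; constructor <;> simp [rs]; ring

theorem reach_rs {g g' : Vtx → Prop} (h : ∀ v, g v → g' (rs v)) {v w : Vtx}
    (ha : Reach (EG g) v w) : Reach (EG g') (rs v) (rs w) := by
  induction ha with
  | refl => exact Reach.refl _ _
  | tail _ hs ih => exact ih.trans (adj_rs h hs).reach

theorem Fl.rs {ρ : ℤ} {u : Vtx} {P : Set Vtx} (h : Fl ρ u P) :
    Fl ρ (FILp.rs u) {v | FILp.rs v ∈ P} := by
  have hz : FILp.rs (0, 0) = (0, 0) := by simp [FILp.rs]
  have h1 : FILp.rs (0, 1) = (-1, 0) := by simp [FILp.rs]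
  have h2 : FILp.rs (-1, 0) = (0, 1) := by simp [FILp.rs]
  refine ⟨?_, ?_, ?_, ?_, ?_, ?_, ?_⟩
  · show FILp.rs (0, 0) ∈ P
    rw [hz]; exact h.zero
  · show FILp.rs (FILp.rs u) ∈ P
    rw [rs_rs]; exact h.up
  · intro v hv
    rcases h.lt _ hv with h3 | h3
    · left; rw [← h3, rs_rs]
    · right; rwa [nd_rs] at h3
  · intro v hv
    have h3 := reach_rs (g' := (· ∈ {v | FILp.rs v ∈ P}))
      (fun w (hw : w ∈ P) => by show FILp.rs (FILp.rs w) ∈ P; rw [rs_rs]; exact hw)
      (h.con _ hv)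
    rwa [hz, rs_rs] at h3
  · show FILp.rs (0, 1) ∉ P
    rw [h1]; exact h.n2
  · show FILp.rs (-1, 0) ∉ P
    rw [h2]; exact h.n1
  · intro x hx hne
    obtain ⟨p, hp, hr⟩ := h.cor (FILp.rs x) (by rw [nd_rs]; exact hx)
      (fun h3 => hne (by rw [← h3, rs_rs]))
    refine ⟨FILp.rs p, ?_, ?_⟩
    · rcases hp with rfl | rfl
      · right; exact h1
      · left; exact h2
    · have h3 := reach_rs (g' := gd ρ {v | FILp.rs v ∈ P} x) ?_ hr
      · rwa [rs_rs] at h3
      · rintro v ⟨h4, h5, h6⟩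
        refine ⟨?_, by rw [nd_rs]; exact h5, ?_⟩
        · show FILp.rs (FILp.rs v) ∉ P
          rw [rs_rs]; exact h4
        · rcases h6 with h6 | h6
          · left; rwa [nd_rs]
          · right; rw [h6, rs_rs]

end FILp

open FILp in
theorem t_FIL : S_FIL := by
  intro ρ u hρ hu h1 h2
  have hab : u.1 + -u.2 = ρ := by
    unfold nd at hu
    rw [abs_of_nonneg h1, abs_of_nonpos h2] at hu
    exact hu
  by_cases h : -u.2 ≤ u.1
  · have h3 := fl_PD (ρ := ρ) (a := u.1) (b := -u.2) h1 (by omega) hab hρ (by omega)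
    rw [neg_neg] at h3
    exact fil_of hρ hu h3
  · have h3 := (fl_PD (ρ := ρ) (a := -u.2) (b := u.1) (by omega) h1 (by omega) hρ (by omega)).rs
    have h4 : FILp.rs (-u.2, -u.1) = u := by simp [FILp.rs]
    rw [h4] at h3
    exact fil_of hρ hu h3

end Pool.Agent.W801.OS
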