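import Pool.Agent.W801.OS.Stm3
import Pool.Agent.W801.OS.T_TIP
import Pool.Agent.W801.OS.T_CMP

/-! # Transfer for annuli: assembly -/

set_option autoImplicit false

namespace Pool.Agent.W801.OS
open H974 H906.Cyl H12S Finset
open Pool.Agent.H160R2.ML (nm)
open Pool.Agent.W801.OU (RZ LZ Dg nrm zp Cor scz bxz SE3 uR S_UR3 S_TRIc)
open Pool.Agent.W424.OD (A3v)

namespace TTRA
open TCMP TipAux

/-! ## linear symmetries -/

/-- linear symmetries -/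
structure Lin (g : LSym) : Prop where
  nd : ∀ v, nd (g.ψ v) = nd v
  nm : ∀ v, nm (g.ψ v) = nm v

theorem dd_iff {g : LSym} (hg : Lin g) (ρ : ℤ) (e : Edg) : g.φ e ∈ Dd ρ ↔ e ∈ Dd ρ := by
  unfold Dd
  simp only [Set.mem_setOf_eq]
  rcases g.compat e with ⟨h1, h2⟩ | ⟨h1, h2⟩
  · rw [h1, h2, hg.nd, hg.nd]
  · rw [h1, h2, hg.nd, hg.nd, and_comm]

theorem bx_iff {g : LSym} (hg : Lin g) (R : ℤ) (e : Edg) : g.φ e ∈ bxz R ↔ e ∈ bxz R := by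
  unfold bxz
  simp only [Set.mem_setOf_eq]
  rcases g.compat e with ⟨h1, h2⟩ | ⟨h1, h2⟩
  · rw [h1, h2, hg.nm, hg.nm]
  · rw [h1, h2, hg.nm, hg.nm, and_comm]

theorem an_iff {g : LSym} (hg : Lin g) (ρ R : ℤ) (e : Edg) : g.φ e ∈ An ρ R ↔ e ∈ An ρ R := by
  unfold An
  rw [Set.mem_diff, Set.mem_diff, dd_iff hg, bx_iff hg]

theorem img_inter {g : LSym} (hg : Lin g) (ρ R : ℤ) (F : Set Edg) :
    (g.φ '' F) ∩ An ρ R = g.φ '' (F ∩ An ρ R) := by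
  ext e
  constructor
  · rintro ⟨⟨e', he', rfl⟩, h⟩
    exact ⟨e', ⟨he', (an_iff hg ρ R e').mp h⟩, rfl⟩
  · rintro ⟨e', ⟨he', h⟩, rfl⟩
    exact ⟨⟨e', he', rfl⟩, (an_iff hg ρ R e').mpr h⟩

theorem rn_iff {g : LSym} (hg : Lin g) {ρ R : ℤ} {F : Set Edg} {u v : Vtx} :
    Rn ρ R (g.φ '' F) (g.ψ u) (g.ψ v) ↔ Rn ρ R F u v := by
  unfold Rn
  rw [img_inter hg, g.reach_iff]

theorem a3u_sym {g : LSym} (hg : Lin g) {ρ R : ℤ} {F : Set Edg} {u : Vtx} (h : A3u ρ R u F) :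
    A3u ρ R (g.ψ u) (g.φ '' F) := by
  obtain ⟨h1, ⟨w, hw, h2⟩, x, y, hx, hy, h3, h4⟩ := h
  refine ⟨by rw [hg.nd]; exact h1, ⟨g.ψ w, by rw [hg.nm]; exact hw, (rn_iff hg).2 h2⟩, g.ψ x, g.ψ y,
    by rw [hg.nd]; exact hx, by rw [hg.nm]; exact hy, fun h => h3 ((rn_iff hg).1 h), ?_⟩
  refine (g.reach h4).mono ?_
  rintro _ ⟨e, ⟨he1, he2, he3⟩, rfl⟩
  refine ⟨(an_iff hg _ _ _).2 he1, ?_⟩
  rcases g.compat e with ⟨k1, k2⟩ | ⟨k1, k2⟩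
  · rw [k1, k2, rn_iff hg, rn_iff hg]
    exact ⟨he2, he3⟩
  · rw [k1, k2, rn_iff hg, rn_iff hg]
    exact ⟨he3, he2⟩

theorem mp_box {g : LSym} (hg : Lin g) (R : ℕ) : g.mp (boxE R) = boxE R := by
  ext e
  rw [LSym.mem_mp, ← bxz_iff, ← bxz_iff, ← bx_iff hg, Equiv.apply_symm_apply]

theorem inv_mp (g : LSym) (F : Finset Edg) : g.inv.mp (g.mp F) = F := by
  ext e
  rw [LSym.mem_mp, LSym.mem_mp]
  simp [LSym.inv]

theorem lin_inv {g : LSym} (hg : Lin g) : Lin g.inv := by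
  constructor
  · intro v
    show OS.nd (g.ψ.symm v) = OS.nd v
    rw [← hg.nd, Equiv.apply_symm_apply]
  · intro v
    show Pool.Agent.H160R2.ML.nm (g.ψ.symm v) = Pool.Agent.H160R2.ML.nm v
    rw [← hg.nm, Equiv.apply_symm_apply]

/-- a symmetry which sends `u` to the quadrant -/
theorem quad (u : Vtx) : ∃ g : LSym, Lin g ∧ 0 ≤ (g.ψ u).1 ∧ (g.ψ u).2 ≤ 0 := by
  obtain ⟨a, b⟩ := u
  have hx : Lin (rfx 0) := by
    constructor
    · rintro ⟨x, y⟩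
      simp [OS.nd]
    · rintro ⟨x, y⟩
      simp [Pool.Agent.H160R2.ML.nm]
  have hy : Lin (rfy 0) := by
    constructor
    · rintro ⟨x, y⟩
      simp [OS.nd]
    · rintro ⟨x, y⟩
      simp [Pool.Agent.H160R2.ML.nm]
  have hz : Lin (trl 0 0) := by
    constructor
    · rintro ⟨x, y⟩
      simp [OS.nd]
    · rintro ⟨x, y⟩
      simp [Pool.Agent.H160R2.ML.nm]
  have hc : Lin (cmp (rfx 0) (rfy 0)) := by
    constructor
    · rintro ⟨x, y⟩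
      simp [OS.nd, TipAux.cmp]
    · rintro ⟨x, y⟩
      simp [Pool.Agent.H160R2.ML.nm, TipAux.cmp]
  rcases le_total 0 a with ha | ha <;> rcases le_total b 0 with hb | hb
  · exact ⟨_, hz, by simpa using ha, by simpa using hb⟩
  · exact ⟨_, hy, by simpa using ha, by simpa using hb⟩
  · exact ⟨_, hx, by simpa using ha, by simpa using hb⟩
  · exact ⟨_, hc, by simpa [TipAux.cmp] using ha, by simpa [TipAux.cmp] using hb⟩

/-! ## locality -/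

theorem ceu_local (ρ : ℤ) (r : ℕ) (u : Vtx) (F : Finset Edg) :
    CEu ρ r u (↑F : Set Edg) ↔ CEu ρ r u (↑(F ∩ boxE r) : Set Edg) := by
  have : (↑(F ∩ boxE r) : Set Edg) ∩ An ρ r = (↑F : Set Edg) ∩ An ρ r := by
    ext e
    simp only [Finset.coe_inter, Set.mem_inter_iff, Finset.mem_coe]
    constructor
    · rintro ⟨⟨h1, -⟩, h2⟩
      exact ⟨h1, h2⟩
    · rintro ⟨h1, h2⟩
      exact ⟨⟨h1, bxz_iff.1 h2.1⟩, h2⟩
  unfold CEu Rn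
  rw [this]

/-- one vertex of the inner boundary -/
theorem one (hFI : S_FIL) {K : ℕ} (hCP : ∀ (ρ r R : ℕ), 1 ≤ ρ → ρ ≤ r → K * r ≤ R →
    ∀ σ : Finset Edg, (∀ e ∈ σ, e ∈ Dd ρ) → ∀ Q : Finset Edg → Prop,
    Pr (fun _ => (1 / 2 : ℝ)) (boxE R) (fun F => Q (F ∩ boxE r) ∧
        T3 R ((↑σ : Set Edg) ∪ ((↑F : Set Edg) \ Dd ρ))) ≤
      Pr (fun _ => (1 / 2 : ℝ)) (boxE r) Q *
        Pr (fun _ => (1 / 2 : ℝ)) (boxE (R / 20)) (fun G => V3 (K * r : ℕ) (R / 20 : ℕ) (↑G : Set Edg)))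
    (ρ r R : ℕ) (hρ : 6 ≤ ρ) (hr : ρ ≤ r) (hR : K * r ≤ R) (hρR : ρ ≤ R) (u : Vtx) (hu : nd u = ρ) :
    Pr (fun _ => (1 / 2 : ℝ)) (boxE R) (fun F => A3u ρ R u (↑F : Set Edg) ∧
        CEu ρ r u (↑F : Set Edg)) ≤
      Pr (fun _ => (1 / 2 : ℝ)) (boxE r) (fun F => CEu ρ r u (↑F : Set Edg)) *
        Pr (fun _ => (1 / 2 : ℝ)) (boxE (R / 20))
          (fun G => V3 (K * r : ℕ) (R / 20 : ℕ) (↑G : Set Edg)) := by
  obtain ⟨g, hg, h1, h2⟩ := quad u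
  obtain ⟨σ, hσ, hT⟩ := hFI ρ (g.ψ u) (by exact_mod_cast hρ) (by rw [hg.nd]; exact hu) h1 h2
  have e1 : Pr (fun _ => (1 / 2 : ℝ)) (boxE R) (fun F => A3u ρ R (g.ψ u) (↑F : Set Edg) ∧
      CEu ρ r u (↑(g.inv.mp F) : Set Edg)) =
      Pr (fun _ => (1 / 2 : ℝ)) (boxE R) (fun F => A3u ρ R (g.ψ u) (↑(g.mp F) : Set Edg) ∧
        CEu ρ r u (↑F : Set Edg)) := by
    have := LSym.pr g (1 / 2) (boxE R) (fun F => A3u ρ R (g.ψ u) (↑F : Set Edg) ∧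
      CEu ρ r u (↑(g.inv.mp F) : Set Edg))
    rw [mp_box hg] at this
    rw [this]
    simp only [inv_mp]
  have e2 : Pr (fun _ => (1 / 2 : ℝ)) (boxE R) (fun F => A3u ρ R u (↑F : Set Edg) ∧
      CEu ρ r u (↑F : Set Edg)) ≤
      Pr (fun _ => (1 / 2 : ℝ)) (boxE R) (fun F => A3u ρ R (g.ψ u) (↑(g.mp F) : Set Edg) ∧
        CEu ρ r u (↑F : Set Edg)) := by
    refine Pr_mono okh fun F _ h => ⟨?_, h.2⟩
    rw [LSym.coe_mp]
    exact a3u_sym hg h.1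
  have e3 : Pr (fun _ => (1 / 2 : ℝ)) (boxE R) (fun F => A3u ρ R (g.ψ u) (↑F : Set Edg) ∧
      CEu ρ r u (↑(g.inv.mp F) : Set Edg)) ≤
      Pr (fun _ => (1 / 2 : ℝ)) (boxE R) (fun F =>
        (fun X : Finset Edg => CEu ρ r u (↑(g.inv.mp X) : Set Edg)) (F ∩ boxE r) ∧
        T3 R ((↑σ : Set Edg) ∪ ((↑F : Set Edg) \ Dd ρ))) := by
    refine Pr_mono okh fun F _ h => ⟨?_, hT R _ (by exact_mod_cast hρR) h.1⟩
    have h3 := (ceu_local ρ r u (g.inv.mp F)).1 h.2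
    simp only
    rw [LSym.mp_inter, mp_box (lin_inv hg)]
    exact h3
  have e4 : Pr (fun _ => (1 / 2 : ℝ)) (boxE r)
      (fun X : Finset Edg => CEu ρ r u (↑(g.inv.mp X) : Set Edg)) =
      Pr (fun _ => (1 / 2 : ℝ)) (boxE r) (fun F => CEu ρ r u (↑F : Set Edg)) := by
    rw [← LSym.pr g.inv (1 / 2) (boxE r) (fun F => CEu ρ r u (↑F : Set Edg)), mp_box (lin_inv hg)]
  refine e2.trans (e1 ▸ e3.trans ?_)
  have h5 := hCP ρ r R (by omega) hr hR σ hσ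
    (fun X : Finset Edg => CEu ρ r u (↑(g.inv.mp X) : Set Edg))
  rw [e4] at h5
  exact h5

/-! ## translation -/

theorem nm_abs (c v : Vtx) (k : ℕ) : v ∈ bdB c k ↔ (v.1 - c.1, v.2 - c.2) ∈ bdB (0, 0) k := by
  simp [bdB]

theorem blk_trl (c : Vtx) (k : ℕ) (e : Edg) :
    (trl c.1 c.2).φ e ∈ blk c k ↔ e ∈ blk (0, 0) k := by
  obtain ⟨x, y, _ | _⟩ := e <;>
    simp only [blk, trl_φ, mem_RE_true, mem_RE_false] <;> omega

theorem ae_trl (c : Vtx) (d k : ℕ) (F : Set Edg) :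
    ((trl c.1 c.2).φ '' F) ∩ Pool.Agent.W424.OD.AE c d k =
      (trl c.1 c.2).φ '' (F ∩ Pool.Agent.W424.OD.AE (0, 0) d k) := by
  have key : ∀ e, (trl c.1 c.2).φ e ∈ Pool.Agent.W424.OD.AE c d k ↔
      e ∈ Pool.Agent.W424.OD.AE (0, 0) d k := by
    intro e
    unfold Pool.Agent.W424.OD.AE
    rw [Finset.mem_coe, Finset.mem_coe, Finset.mem_sdiff, Finset.mem_sdiff, blk_trl, blk_trl]
  ext e
  constructor
  · rintro ⟨⟨e', he', rfl⟩, h⟩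
    exact ⟨e', ⟨he', (key e').mp h⟩, rfl⟩
  · rintro ⟨e', ⟨he', h⟩, rfl⟩
    exact ⟨⟨e', he', rfl⟩, (key e').mpr h⟩

theorem cl_trl (c : Vtx) (d k : ℕ) (F : Set Edg) (u v : Vtx) :
    (trl c.1 c.2).ψ v ∈ Pool.Agent.W424.OD.Cl c d k ((trl c.1 c.2).φ '' F) ((trl c.1 c.2).ψ u) ↔
      v ∈ Pool.Agent.W424.OD.Cl (0, 0) d k F u := by
  unfold Pool.Agent.W424.OD.Cl
  simp only [Set.mem_setOf_eq]
  rw [ae_trl, LSym.reach_iff]

theorem a3v_trl (c : Vtx) (d k : ℕ) (F : Set Edg) (h : A3v c d k ((trl c.1 c.2).φ '' F)) :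
    A3v (0, 0) d k F := by
  obtain ⟨u, hu, ⟨w, hw, hwu⟩, x, hx, y, hy, hxy⟩ := h
  obtain ⟨u, rfl⟩ := (trl c.1 c.2).ψ.surjective u
  obtain ⟨w, rfl⟩ := (trl c.1 c.2).ψ.surjective w
  obtain ⟨x, rfl⟩ := (trl c.1 c.2).ψ.surjective x
  obtain ⟨y, rfl⟩ := (trl c.1 c.2).ψ.surjective y
  have hb : ∀ (v : Vtx) (k : ℕ), (trl c.1 c.2).ψ v ∈ bdB c k → v ∈ bdB (0, 0) k := by
    rintro ⟨a, b⟩ k h
    simpa [bdB] using h
  refine ⟨u, hb _ _ hu, ⟨w, hb _ _ hw, (cl_trl c d k F u w).1 hwu⟩, x, hb _ _ hx, y, hb _ _ hy, ?_⟩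
  have h2 := (trl c.1 c.2).inv.reach hxy
  have e1 : ∀ v, (trl c.1 c.2).inv.ψ ((trl c.1 c.2).ψ v) = v := by
    intro v
    simp [LSym.inv]
  rw [e1, e1] at h2
  refine h2.mono ?_
  rintro _ ⟨e, ⟨he1, he2, he3⟩, rfl⟩
  obtain ⟨e, rfl⟩ := (trl c.1 c.2).φ.surjective e
  have e2 : (trl c.1 c.2).inv.φ ((trl c.1 c.2).φ e) = e := by simp [LSym.inv]
  rw [e2]
  have h3 : e ∈ Pool.Agent.W424.OD.AE (0, 0) d k := by
    unfold Pool.Agent.W424.OD.AE at he1 ⊢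
    rw [Finset.mem_coe, Finset.mem_sdiff, blk_trl, blk_trl] at he1
    rw [Finset.mem_coe, Finset.mem_sdiff]
    exact he1
  refine ⟨h3, ?_⟩
  rcases (trl c.1 c.2).compat e with ⟨k1, k2⟩ | ⟨k1, k2⟩
  · rw [k1, cl_trl] at he2
    rw [k2, cl_trl] at he3
    exact ⟨he2, he3⟩
  · rw [k1, cl_trl] at he2
    rw [k2, cl_trl] at he3
    exact ⟨he3, he2⟩

theorem a3v_local (c : Vtx) (d k : ℕ) (F : Finset Edg) :
    A3v c d k (↑F : Set Edg) ↔ A3v c d k (↑(F ∩ blk c k) : Set Edg) := by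
  have : ∀ u, Pool.Agent.W424.OD.Cl c d k (↑(F ∩ blk c k) : Set Edg) u =
      Pool.Agent.W424.OD.Cl c d k (↑F : Set Edg) u := by
    intro u
    unfold Pool.Agent.W424.OD.Cl
    have e1 : (↑(F ∩ blk c k) : Set Edg) ∩ Pool.Agent.W424.OD.AE c d k =
        (↑F : Set Edg) ∩ Pool.Agent.W424.OD.AE c d k := by
      ext e
      unfold Pool.Agent.W424.OD.AE
      simp only [Finset.coe_inter, Set.mem_inter_iff, Finset.mem_coe, Finset.mem_sdiff]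
      tauto
    rw [e1]
  unfold A3v
  simp only [this]

/-- reduction to the origin -/
theorem red0 (c : Vtx) (d k : ℕ) (S : Finset Edg) (hS : blk c k ⊆ S) :
    Pr (fun _ => (1 / 2 : ℝ)) S (fun F => A3v c d k (↑F : Set Edg)) ≤
      Pr (fun _ => (1 / 2 : ℝ)) (boxE k) (fun F => A3v (0, 0) d k (↑F : Set Edg)) := by
  rw [Pr_local hS (A := fun F => A3v c d k (↑F : Set Edg)) (fun F _ => a3v_local c d k F)]
  have hb : blk c k = (trl c.1 c.2).mp (boxE k) := by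
    unfold boxE
    rw [trl_RE]
    unfold blk
    congr 1 <;> ring
  rw [hb, LSym.pr]
  refine Pr_mono okh fun F _ h => ?_
  rw [LSym.coe_mp] at h
  exact a3v_trl c d k _ h

end TTRA

open TTRA TipAux in
/-- **transfer for annuli** -/
theorem t_TRA : S_DIA → S_FIL → S_NUM → S_CPL → S_TRA := by
  rintro hDI hFI ⟨C, hC, hNU⟩ ⟨K, hK, hCP⟩
  refine ⟨C, 24 * K, hC, by omega, ?_⟩
  intro c d k hd hk S hS
  have hk2 : 24 * d ≤ k := by nlinarith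
  have hk3 : K * (4 * (6 * d)) ≤ k := by
    have : K * (4 * (6 * d)) = 24 * K * d := by ring
    omega
  have e24 : 24 * d = 4 * (6 * d) := by ring
  set v := Pr (fun _ => (1 / 2 : ℝ)) (boxE (k / 20))
    (fun G => V3 (24 * K * d : ℕ) (k / 20 : ℕ) (↑G : Set Edg)) with hv
  have hv0 : 0 ≤ v := Pr_nonneg okh _ _
  refine (red0 c d k S hS).trans ?_
  have h1 : Pr (fun _ => (1 / 2 : ℝ)) (boxE k) (fun F => A3v (0, 0) d k (↑F : Set Edg)) ≤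
      ∑ u ∈ rgF (6 * d), Pr (fun _ => (1 / 2 : ℝ)) (boxE k)
        (fun F => A3u (6 * d : ℕ) k u (↑F : Set Edg) ∧
          CEu (6 * d : ℕ) (4 * (6 * d) : ℕ) u (↑F : Set Edg)) := by
    classical
    refine le_trans (Pr_mono okh (B := fun F => ∃ u ∈ rgF (6 * d),
      A3u (6 * d : ℕ) k u (↑F : Set Edg) ∧
          CEu (6 * d : ℕ) (4 * (6 * d) : ℕ) u (↑F : Set Edg)) ?_)
      (Pr_exists_le okh _ _ _)
    intro F _ h
    obtain ⟨u, h2, h3⟩ := hDI d k _ hd hk2 h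
    rw [e24] at h3
    refine ⟨u, ?_, h2, h3⟩
    unfold rgF
    have h4 : nd u = ((6 * d : ℕ) : ℤ) := h2.1
    have h5 : |u.1| + |u.2| = ((6 * d : ℕ) : ℤ) := h4
    have h6 := abs_nonneg u.1
    have h7 := abs_nonneg u.2
    rw [Finset.mem_filter, Finset.mem_product, Finset.mem_Icc, Finset.mem_Icc, ← abs_le, ← abs_le]
    exact ⟨⟨by omega, by omega⟩, h4⟩
  refine h1.trans ?_
  have h2 : ∀ u ∈ rgF (6 * d), Pr (fun _ => (1 / 2 : ℝ)) (boxE k)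
      (fun F => A3u (6 * d : ℕ) k u (↑F : Set Edg) ∧
          CEu (6 * d : ℕ) (4 * (6 * d) : ℕ) u (↑F : Set Edg)) ≤
      Pr (fun _ => (1 / 2 : ℝ)) (boxE (4 * (6 * d)))
        (fun F => CEu (6 * d : ℕ) (4 * (6 * d) : ℕ) u (↑F : Set Edg)) * v := by
    intro u hu
    unfold rgF at hu
    rw [Finset.mem_filter] at hu
    have h3 := one hFI hCP (6 * d) (4 * (6 * d)) k (by omega) (by omega) hk3 (by omega) u hu.2
    have e1 : K * (4 * (6 * d)) = 24 * K * d := by ring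
    rw [e1] at h3
    exact h3
  refine (Finset.sum_le_sum h2).trans ?_
  rw [← Finset.sum_mul]
  exact mul_le_mul_of_nonneg_right (hNU (6 * d) (by omega)) hv0

end Pool.Agent.W801.OS
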