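import Pool.Agent.W801.OS.Stm3
import Pool.Agent.W801.OS.T_KL

/-!
# Local bound of the winding number

The walk of `W` from the origin to `v` is closed by the column of `v` and the row `0`; along the
corridor the winding number changes (by at most two) only at points of the row `0` between the columns
of `v` and of the origin and at points next to the column of `v`.
-/

set_option autoImplicit false

namespace Pool.Agent.W801.OS

namespace GLBpriv

open KLpriv

/-- crossing number of the column of `v`, between the rows `y` and `0` -/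
def av (y r : ℤ) : ℤ := if 1 ≤ r ∧ r ≤ y then 1 else if y + 1 ≤ r ∧ r ≤ 0 then -1 else 0

/-- crossing number of the return path -/
def psi (v p : ℤ × ℤ) : ℤ := if p.1 < v.1 then av v.2 p.2 else 0

/-- the points near the return path -/
noncomputable def gm (v : ℤ × ℤ) : Finset (ℤ × ℤ) :=
  (Finset.Ico (min 0 v.1) (max 0 v.1)) ×ˢ {0} ∪
    ({v.1 - 1, v.1} : Finset ℤ) ×ˢ Finset.Ico (min v.2 0) (max v.2 0)

lemma mem_gm (v p : ℤ × ℤ) : p ∈ gm v ↔ (min 0 v.1 ≤ p.1 ∧ p.1 < max 0 v.1 ∧ p.2 = 0) ∨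
    ((p.1 = v.1 - 1 ∨ p.1 = v.1) ∧ min v.2 0 ≤ p.2 ∧ p.2 < max v.2 0) := by
  unfold gm
  simp only [Finset.mem_union, Finset.mem_product, Finset.mem_Ico, Finset.mem_singleton,
    Finset.mem_insert]
  tauto

lemma card_gm (v : ℤ × ℤ) : ((gm v).card : ℤ) ≤ |v.1| + 2 * |v.2| := by
  have h1 : (gm v).card ≤ (max 0 v.1 - min 0 v.1).toNat + 2 * (max v.2 0 - min v.2 0).toNat := by
    unfold gm
    refine (Finset.card_union_le _ _).trans ?_
    rw [Finset.card_product, Finset.card_product, Int.card_Ico, Int.card_Ico,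
      Finset.card_singleton, mul_one]
    exact Nat.add_le_add_left (Nat.mul_le_mul_right _ (Finset.card_le_two)) _
  have h2 : ((gm v).card : ℤ) ≤ ((max 0 v.1 - min 0 v.1).toNat : ℤ) +
      2 * ((max v.2 0 - min v.2 0).toNat : ℤ) := by exact_mod_cast h1
  rw [Int.toNat_of_nonneg (by omega), Int.toNat_of_nonneg (by omega)] at h2
  have h3 : max 0 v.1 - min 0 v.1 = |v.1| := by
    rcases le_total 0 v.1 with h | h
    · rw [abs_of_nonneg h]; omega
    · rw [abs_of_nonpos h]; omega
  have h4 : max v.2 0 - min v.2 0 = |v.2| := by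
    rcases le_total 0 v.2 with h | h
    · rw [abs_of_nonneg h]; omega
    · rw [abs_of_nonpos h]; omega
  rw [h3, h4] at h2
  exact h2

lemma upm {W : Set (ℤ × ℤ)} (hE : Evn W) {p p' : ℤ × ℤ} (hp : Up W p p') {v : ℤ × ℤ}
    {φ : ℤ × ℤ → ℤ} (h : Ch W (0, 0) v φ) :
    φ p' + psi v p' = φ p + psi v p ∨
    (p ∈ gm v ∧ (φ p' + psi v p') - (φ p + psi v p) ≤ 2 ∧
      (φ p + psi v p) - (φ p' + psi v p') ≤ 2) := by
  have h1 := chain hE hp h
  obtain ⟨hpar, hpW, h2, h3, h4⟩ := hp
  rw [mem_gm]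
  have hg1 : g p v = if v.2 = p.2 ∧ p.1 < v.1 then 1 else 0 := rfl
  have hg0 : g p (0, 0) = if 0 = p.2 ∧ p.1 < 0 then 1 else 0 := rfl
  rw [hg1, hg0] at h1
  unfold psi av
  rcases h3 with h3 | h3 <;> split_ifs at h1 ⊢ <;> omega

lemma ivt2 (f : ℤ × ℤ → ℤ) (A : Finset ℤ) (R : ℤ × ℤ → ℤ × ℤ → Prop)
    (hR : ∀ u v, R u v → ∀ n, n ∉ A → (n < f u ↔ n < f v))
    (u v : ℤ × ℤ) (h : Relation.ReflTransGen R u v) : |f u - f v| ≤ A.card := by
  have key : ∀ n : ℤ, n ∉ A → (n < f u ↔ n < f v) := by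
    intro n hn
    induction h with
    | refl => rfl
    | tail h1 h2 ih =>
      rename_i x y
      rw [ih]
      exact hR x y h2 n hn
  rcases le_total (f u) (f v) with h1 | h1
  · have hs : Finset.Ico (f u) (f v) ⊆ A := by
      intro n hn
      rw [Finset.mem_Ico] at hn
      by_contra hA
      have := key n hA
      omega
    have hc := Finset.card_le_card hs
    rw [Int.card_Ico] at hc
    rw [abs_of_nonpos (by omega)]
    omega
  · have hs : Finset.Ico (f v) (f u) ⊆ A := by
      intro n hn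
      rw [Finset.mem_Ico] at hn
      by_contra hA
      have := key n hA
      omega
    have hc := Finset.card_le_card hs
    rw [Int.card_Ico] at hc
    rw [abs_of_nonneg (by omega)]
    omega

lemma psi_le (v p : ℤ × ℤ) : |psi v p| ≤ 1 := by
  unfold psi av
  split_ifs <;> norm_num

end GLBpriv

open KLpriv GLBpriv in
theorem t_GLB : S_GLB := by
  refine ⟨10, by norm_num, ?_⟩
  intro W hE hC v φ h
  obtain ⟨p, q, hp, hpq, hq⟩ := hC
  have hppar : (p.1 + p.2) % 2 = 0 := by
    rcases hp with hp | hp <;> rw [hp] <;> norm_num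
  obtain ⟨m1, -, -⟩ := pa_mv hpq hppar
  have hpW : p ∉ W := by
    have : ∀ {x y : ℤ × ℤ}, Pa W x y → x ∉ W := by
      intro x y hxy
      induction hxy with
      | nil hu => exact hu
      | cons v w h hw ha ih => exact ih
    exact this hpq
  have m0 : Mv W (0, 0) p := by
    right
    refine ⟨hppar, hpW, ?_, ?_, Or.inr rfl⟩
    · rcases hp with hp | hp <;> rw [hp] <;> norm_num
    · rcases hp with hp | hp <;> rw [hp] <;> norm_num
  have m2 : Relation.ReflTransGen (Mv W) (0, 0) q := Relation.ReflTransGen.head m0 m1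
  set f : ℤ × ℤ → ℤ := fun x => φ x + psi v x with hf
  set A : Finset ℤ := (gm v).biUnion (fun x => Finset.Icc (f x - 2) (f x + 2)) with hA
  have hAc : (A.card : ℤ) ≤ 5 * (|v.1| + 2 * |v.2|) := by
    have h1 : A.card ≤ (gm v).card * 5 := by
      refine Finset.card_biUnion_le_card_mul _ _ _ fun x _ => ?_
      rw [Int.card_Icc]
      omega
    have h2 : (A.card : ℤ) ≤ (gm v).card * 5 := by exact_mod_cast h1
    have h3 := card_gm v
    linarith
  have key : ∀ u w, Up W u w → ∀ n, n ∉ A → (n < f u ↔ n < f w) := by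
    intro u w huw n hn
    rcases upm hE huw h with h1 | ⟨h1, h2, h3⟩
    · have : f w = f u := h1
      rw [this]
    · have h2' : f w - f u ≤ 2 := h2
      have h3' : f u - f w ≤ 2 := h3
      have h4 : ¬ (f u - 2 ≤ n ∧ n ≤ f u + 2) := by
        intro h5
        exact hn (Finset.mem_biUnion.mpr ⟨u, h1, Finset.mem_Icc.mpr h5⟩)
      constructor <;> intro h5 <;> by_contra h6 <;> exact h4 ⟨by omega, by omega⟩
  have hb := ivt2 f A (Mv W) (by
    intro u w huw n hn
    rcases huw with huw | huw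
    · exact key u w huw n hn
    · exact (key w u huw n hn).symm) _ _ m2
  have hφq : φ q = 0 := phi_zero hq h
  have h5 := psi_le v q
  have h6 := psi_le v (0, 0)
  have hfq : f q = psi v q := by
    show φ q + psi v q = psi v q
    rw [hφq, zero_add]
  have hf0 : f (0, 0) = φ (0, 0) + psi v (0, 0) := rfl
  rw [hfq, hf0] at hb
  have h7 : |φ (0, 0)| ≤ |φ (0, 0) + psi v (0, 0) - psi v q| + |psi v q| + |psi v (0, 0)| := by
    have e1 : φ (0, 0) = (φ (0, 0) + psi v (0, 0) - psi v q) + psi v q - psi v (0, 0) := by ring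
    calc |φ (0, 0)| = |(φ (0, 0) + psi v (0, 0) - psi v q) + psi v q - psi v (0, 0)| :=
          congrArg _ e1
      _ ≤ |(φ (0, 0) + psi v (0, 0) - psi v q) + psi v q| + |psi v (0, 0)| := abs_sub _ _
      _ ≤ _ := by linarith [abs_add_le (φ (0, 0) + psi v (0, 0) - psi v q) (psi v q)]
  have h8 := abs_nonneg v.1
  have h9 := abs_nonneg v.2
  linarith

end Pool.Agent.W801.OS
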