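import Pool.Agent.W801.OS.Stm3
import Pool.Agent.W801.OU.T_ONI
import Pool.Agent.W801.OL.All
import Pool.Agent.W808.KZ.T_DEC
import Pool.Agent.W808.KZ.T_IND

/-!
# Lower bound in the dislocated plane

The leg event of the infinite dislocated cylinder implies the three arm event in a box.
-/

set_option autoImplicit false

namespace Pool.Agent.W801.OS
open H974 H906.Cyl
open MeasureTheory
open Pool.Agent.H863R2.Cyl
open Pool.Agent.H160R2.ML (nm)
open Pool.Agent.H160R2.MU (PC)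
open Pool.Agent.W801.OU
open Pool.Agent.W801.OL (LegEv2 a_Y4)
open Pool.Agent.W808.HB (coinsH)

namespace TLB
open Pool.Agent.W808.KZ.TDEC Pool.Agent.W801.OU.TONI

/-- the leg event implies the event of a small box -/
theorem dec {n R : ℕ} (hR : 1 ≤ R) (hn : 4 * R ≤ n) {G : Set Edg} (hG : G3 n G) :
    SE3 (R : ℤ) G := by
  have h2 : RZ {0} (bxz (R : ℤ)) G = RZ (Zn n) (bxz (R : ℤ)) G := RZ_eq hR hn
  refine ⟨fun c d hc hd hcd hcon => ?_, fun c hc => ?_⟩
  · rw [h2, scz0 n c, scz0 n d] at hcon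
    exact hG.1 c d hc hd hcd (Pool.Agent.W808.KZ.TMON.RZ_mono (Set.subset_univ _) hcon)
  · obtain ⟨s, hs, d, hd, hr⟩ := hG.2 c hc
    by_contra hno
    rw [h2, scz0 n c] at hno
    have hs0 : |(scz n 0 c).1| ≤ 2 * R + 1 := by
      show |2 * (n : ℤ) * 0 + c - 1| ≤ 2 * R + 1
      have : 2 * (n : ℤ) * 0 + c - 1 = c - 1 := by ring
      rw [this]
      exact abs_le.2 ⟨by omega, by omega⟩
    have h3 : ∀ x, RZ (Zn n) (bxz (R : ℤ)) G (scz n 0 c) x → ∀ e, e ∉ bxz (R : ℤ) →
        ¬ (Cor (Zn n) 0 e x ∨ Cor (Zn n) 1 e x) := by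
      intro x hx e he hcor
      have h4 := abs_le.1 (near hx hs0)
      have h5 : e.1 + e.2.1 - 1 ≤ x.1 ∧ x.1 ≤ e.1 + e.2.1 + 1 := by
        rcases hcor with h | h <;> exact Cor_fst h
      rw [Cor_iff (by omega) (by omega), Cor_iff (by omega) (by omega)] at hcor
      exact hno ⟨x, hx, e, he, hcor⟩
    have h6 := Pool.Agent.W808.KZ.TMON.exit h3 hr
    have h7 := abs_le.1 (near h6 hs0)
    have h8 : (scz n s d).1 = 2 * (n : ℤ) * s + d - 1 := rfl
    rw [h8] at h7
    rcases lt_or_gt_of_ne hs with h9 | h9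
    · have : (2 * n : ℤ) * s ≤ 2 * n * (-1) :=
        mul_le_mul_of_nonneg_left (by omega) (by positivity)
      omega
    · have : (2 * n : ℤ) * 1 ≤ 2 * n * s :=
        mul_le_mul_of_nonneg_left (by omega) (by positivity)
      omega

/-- the law of the event of the box in the cylinder -/
theorem law {n M R : ℕ} (hR : 1 ≤ R) (hn : 4 * R ≤ n) (hM : 2 * R ≤ M) :
    PC n M (fun F => SE3 (R : ℤ) (per n F)) = uR R := by
  have hn0 : 0 < n := by omega
  have hinj : Set.InjOn (red n) (boxE R : Set Edg) := by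
    apply red_inj_x
    omega
  have himg : (boxE R).image (red n) ⊆ CE n M := by
    apply image_red_sub hn0
    · omega
    · omega
  have e3 := Pr_red (q := 1 / 2) hinj himg (fun F => SE3 R (↑F : Set Edg))
  unfold uR PC
  rw [← e3]
  apply Pr_congr
  intro F _
  apply Pool.Agent.W808.KZ.TIND.SE3_congr
  intro e he
  simp only [Finset.coe_filter, Set.mem_ofPred_eq, he, true_and]
  rfl

/-- the leg event is less likely than the event of the box -/
theorem leg_le {n R : ℕ} (hR : 1 ≤ R) (hn : 4 * R ≤ n) :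
    (coinsH.prod coinsH).real {ω | LegEv2 2 1 (2 * n - 2) ω.1 ω.2} ≤ uR R := by
  have hn1 : 1 ≤ n := by omega
  rw [← law hR hn (le_refl (2 * R)), ← prob n (2 * R) (fun F => SE3 (R : ℤ) (per n F))]
  refine measureReal_mono ?_
  intro ω hω
  have h1 : G3 n (Go n ω) := (TISO.G3_iff hn1 (cmp_Go hn1 ω)).2 hω
  have h2 : SE3 (R : ℤ) (Go n ω) := dec hR hn h1
  refine (Pool.Agent.W808.KZ.TMON.se3_congr (fun e he => ?_)).2 h2
  have hb := RE_dco (Pool.Agent.W808.KZ.TMON.bxz_sub_box he)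
  exact per_Fo (by omega) (by push_cast; omega) (by push_cast; omega)

end TLB

open TLB in
/-- **lower bound in the dislocated plane** -/
theorem t_LB : S_LB := by
  obtain ⟨c, C, hc, -, h⟩ := a_Y4.2 2 1 (by decide)
  refine ⟨c * (8 : ℝ) ^ (-(2 / 3 : ℝ)), by positivity, fun R hR => ?_⟩
  have h1 := (h (2 * (4 * R) - 2) (by omega)).1.trans (leg_le hR (le_refl (4 * R)))
  refine le_trans ?_ h1
  have e' : -(((((2 : ℕ) : ℝ) + ((1 : ℕ) : ℝ)) ^ 2 - 1) / 12) = -(2 / 3 : ℝ) := by norm_num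
  rw [e', mul_assoc, ← Real.mul_rpow (by norm_num) (by positivity)]
  refine mul_le_mul_of_nonneg_left ?_ hc.le
  refine Real.rpow_le_rpow_of_nonpos ?_ ?_ (by norm_num)
  · exact_mod_cast (by omega : 0 < 2 * (4 * R) - 2)
  · exact_mod_cast (by omega : 2 * (4 * R) - 2 ≤ 8 * R)

end Pool.Agent.W801.OS
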