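import Pool.Agent.W801.OS.Stm3
import Pool.Agent.H974R2.FourArm

/-! # The expected number of crossing clusters of the collar is bounded -/

set_option autoImplicit false

namespace Pool.Agent.W801.OS
open H974 H906.Cyl H12S Finset
open Pool.Agent.H160R2.ML (nm)
open Pool.Agent.W801.OU (RZ LZ Dg nrm zp Cor scz bxz SE3 uR S_UR3 S_TRIc)
open Pool.Agent.W424.OD (A3v)

namespace NUMP

theorem lxl_antisymm {u v : Vtx} (h1 : lxl u v) (h2 : lxl v u) : u = v := by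
  unfold lxl at h1 h2
  apply Prod.ext <;> omega

/-- the outer boundary -/
def Bo (r : ℤ) : Set Vtx := {w | nm w = r}

/-- the part of the configuration in the annulus -/
noncomputable def Fa (ρ r : ℤ) (F : Finset Edg) : Finset Edg :=
  @Finset.filter Edg (fun e => e ∈ An ρ r) (Classical.decPred _) F

theorem coe_Fa (ρ r : ℤ) (F : Finset Edg) : (↑(Fa ρ r F) : Set Edg) = (↑F : Set Edg) ∩ An ρ r := by
  ext e
  unfold Fa
  simp

theorem Fa_sub (ρ r : ℤ) (F : Finset Edg) : Fa ρ r F ⊆ F := by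
  intro e he
  have h : e ∈ (↑(Fa ρ r F) : Set Edg) := he
  rw [coe_Fa] at h
  exact h.1

/-- the first vertices count the crossing clusters at most once -/
theorem sum_ind_le (ρ : ℕ) (r : ℤ) (F : Finset Edg) :
    ∑ u ∈ rgF ρ, ind (CEu (ρ : ℕ) r u (↑F : Set Edg)) ≤
      (NC src tgt (rgF ρ) (Bo r) (↑(Fa ρ r F) : Set Edg) : ℝ) := by
  classical
  have h1 : ∑ u ∈ rgF ρ, ind (CEu (ρ : ℕ) r u (↑F : Set Edg)) =
      (((rgF ρ).filter (fun u => CEu (ρ : ℕ) r u (↑F : Set Edg))).card : ℝ) := by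
    rw [Finset.card_filter]
    push_cast
    apply Finset.sum_congr rfl
    intro u _
    by_cases h : CEu (ρ : ℕ) r u (↑F : Set Edg)
    · rw [ind_of h, if_pos h]
    · rw [ind_not_of h, if_neg h]
  rw [h1]
  have h2 : ((rgF ρ).filter (fun u => CEu (ρ : ℕ) r u (↑F : Set Edg))).card ≤
      (TC src tgt (rgF ρ) (Bo r) (↑(Fa ρ r F) : Set Edg)).card := by
    apply Finset.card_le_card_of_injOn (fun u => clu src tgt (↑(Fa ρ r F) : Set Edg) u)
    · intro u hu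
      rw [Finset.mem_coe, Finset.mem_filter] at hu
      rw [Finset.mem_coe, mem_TC]
      obtain ⟨hu1, hu2, ⟨w, hw, hr⟩, _⟩ := hu
      refine ⟨u, hu1, ⟨w, hw, ?_⟩, rfl⟩
      rw [coe_Fa]
      exact hr
    · intro u hu u' hu' heq
      rw [Finset.mem_coe, Finset.mem_filter] at hu hu'
      obtain ⟨_, hu2, _, hu3⟩ := hu
      obtain ⟨_, hu2', _, hu3'⟩ := hu'
      have heq' : clu src tgt (↑(Fa ρ r F) : Set Edg) u = clu src tgt (↑(Fa ρ r F) : Set Edg) u' :=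
        heq
      have hr : Reach ((↑F : Set Edg) ∩ An ρ r) u u' := by
        have : u' ∈ clu src tgt (↑(Fa ρ r F) : Set Edg) u := by
          rw [heq']
          exact Relation.ReflTransGen.refl
        rw [coe_Fa] at this
        exact this
      exact lxl_antisymm (hu3 u' hu2' hr) (hu3' u hu2 hr.symm)
  exact_mod_cast h2

theorem eq_sum_ind (n M : ℕ) (h : n ≤ M) :
    (n : ℝ) = ∑ k ∈ Finset.range M, ind (k + 1 ≤ n) := by
  have h1 : ∑ k ∈ Finset.range M, ind (k + 1 ≤ n) = ∑ k ∈ Finset.range n, (1 : ℝ) := by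
    rw [← Finset.sum_subset (Finset.range_mono h)]
    · apply Finset.sum_congr rfl
      intro k hk
      rw [Finset.mem_range] at hk
      rw [ind_of (by omega)]
    · intro k _ hk
      rw [Finset.mem_range] at hk
      rw [ind_not_of (by omega)]
  rw [h1]
  simp

/-- one crossing is not certain -/
theorem one_cross {ρ : ℕ} (hρ : 6 ≤ ρ) (S : Finset Edg) :
    Pr (fun _ => (1 / 2 : ℝ)) S (fun G : Finset Edg => ∃ x ∈ rgF ρ,
      RB src tgt (Bo (4 * ρ : ℕ)) (↑G : Set Edg) x) ≤ 1 - H974.kap := by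
  refine le_trans ?_ (pr_Cr (m := ρ) (by omega) 0 0 S)
  apply Pr_mono (okq (by norm_num) (by norm_num))
  rintro G _ ⟨x, hx, w, hw, hr⟩
  unfold rgF at hx
  rw [Finset.mem_filter, Finset.mem_product, Finset.mem_Icc, Finset.mem_Icc] at hx
  refine ⟨x, w, ?_, ?_, hr⟩
  · unfold inR
    omega
  · have hw' : nm w = ((4 * ρ : ℕ) : ℤ) := hw
    unfold nm at hw'
    rcases max_choice |w.1| |w.2| with h | h
    · rw [h] at hw'
      rcases abs_choice w.1 with h' | h' <;> rw [h'] at hw' <;> push_cast at hw' <;> omega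
    · rw [h] at hw'
      rcases abs_choice w.2 with h' | h' <;> rw [h'] at hw' <;> push_cast at hw' <;> omega

theorem kOcc_level {ρ : ℕ} (hρ : 6 ≤ ρ) (S : Finset Edg) (k : ℕ) :
    Pr (fun _ => (1 / 2 : ℝ)) S (fun F : Finset Edg =>
      k ≤ NC src tgt (rgF ρ) (Bo (4 * ρ : ℕ)) (↑(Fa ρ (4 * ρ : ℕ) F) : Set Edg)) ≤
      (1 - H974.kap) ^ k := by
  have ok : Ok (fun _ : Edg => (1 / 2 : ℝ)) := okq (by norm_num) (by norm_num)
  set A : Finset Edg → Prop := fun G : Finset Edg => ∃ x ∈ rgF ρ,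
    RB src tgt (Bo (4 * ρ : ℕ)) (↑G : Set Edg) x with hA
  have hmon : ∀ F G : Finset Edg, F ⊆ G → A F → A G := by
    rintro F G h ⟨x, hx, b, hb, hr⟩
    exact ⟨x, hx, b, hb, hr.mono (by exact_mod_cast h)⟩
  have h1 : Pr (fun _ => (1 / 2 : ℝ)) S (fun F : Finset Edg =>
      k ≤ NC src tgt (rgF ρ) (Bo (4 * ρ : ℕ)) (↑(Fa ρ (4 * ρ : ℕ) F) : Set Edg)) ≤
      Pr (fun _ => (1 / 2 : ℝ)) S (kOcc A k) := by
    apply Pr_mono ok
    intro F _ h
    exact kOcc_mono (Fa_sub _ _ F) (NC_kOcc src tgt (rgF ρ) (Bo (4 * ρ : ℕ)) k _ h)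
  refine h1.trans ((pr_kOcc ok hmon k).trans ?_)
  exact pow_le_pow_left₀ (Pr_nonneg ok _ _) (one_cross hρ S) k

end NUMP

open NUMP in
/-- **the expected number of crossing clusters is bounded** -/
theorem t_NUM : S_NUM := by
  refine ⟨1 / H974.kap, by have := H974.kap_pos; positivity, fun ρ hρ => ?_⟩
  have ok : Ok (fun _ : Edg => (1 / 2 : ℝ)) := okq (by norm_num) (by norm_num)
  set S := boxE (4 * ρ) with hS
  set M := (rgF ρ).card with hM
  have e1 : ∑ u ∈ rgF ρ, Pr (fun _ => (1 / 2 : ℝ)) S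
      (fun F => CEu (ρ : ℕ) (4 * ρ : ℕ) u (↑F : Set Edg)) =
      Ex (fun _ => (1 / 2 : ℝ)) S (fun F => ∑ u ∈ rgF ρ,
        ind (CEu (ρ : ℕ) (4 * ρ : ℕ) u (↑F : Set Edg))) := by
    rw [Ex_sum _ S (rgF ρ) (fun u F => ind (CEu (ρ : ℕ) (4 * ρ : ℕ) u (↑F : Set Edg)))]
    rfl
  rw [e1]
  have e2 : Ex (fun _ => (1 / 2 : ℝ)) S (fun F => ∑ u ∈ rgF ρ,
        ind (CEu (ρ : ℕ) (4 * ρ : ℕ) u (↑F : Set Edg))) ≤
      Ex (fun _ => (1 / 2 : ℝ)) S (fun F => ∑ k ∈ Finset.range M, ind (k + 1 ≤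
        NC src tgt (rgF ρ) (Bo (4 * ρ : ℕ)) (↑(Fa ρ (4 * ρ : ℕ) F) : Set Edg))) := by
    apply Ex_mono ok
    intro F _
    refine (sum_ind_le ρ _ F).trans (le_of_eq ?_)
    exact eq_sum_ind _ M (NC_le _ _ _ _ _)
  refine e2.trans ?_
  rw [Ex_sum _ S (Finset.range M) (fun k F => ind (k + 1 ≤
        NC src tgt (rgF ρ) (Bo (4 * ρ : ℕ)) (↑(Fa ρ (4 * ρ : ℕ) F) : Set Edg)))]
  have hk0 := H974.kap_pos
  have hk1 := H974.kap_le
  have e3 : ∀ k ∈ Finset.range M, Ex (fun _ => (1 / 2 : ℝ)) S (fun F => ind (k + 1 ≤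
        NC src tgt (rgF ρ) (Bo (4 * ρ : ℕ)) (↑(Fa ρ (4 * ρ : ℕ) F) : Set Edg))) ≤
      (1 - H974.kap) ^ k := by
    intro k _
    refine (kOcc_level hρ S (k + 1)).trans ?_
    rw [pow_succ]
    exact mul_le_of_le_one_right (pow_nonneg (by linarith) k) (by linarith)
  refine (Finset.sum_le_sum e3).trans ?_
  have hne : (1 - H974.kap : ℝ) ≠ 1 := by linarith
  rw [geom_sum_eq hne]
  have hp : 0 ≤ (1 - H974.kap : ℝ) ^ M := pow_nonneg (by linarith) M
  rw [show (1 - H974.kap - 1 : ℝ) = -H974.kap by ring, div_neg, ← neg_div, neg_sub]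
  apply div_le_div_of_nonneg_right _ hk0.le
  linarith

end Pool.Agent.W801.OS
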