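import Pool.Agent.W801.OS.Stm2

/-!
# From annuli of the plane to annuli of the dislocated plane: definitions and steps

`T_X.lean` proves `t_X : S_X` from its hypotheses.
-/

set_option autoImplicit false

namespace Pool.Agent.W801.OS
open H974 H906.Cyl H12S Finset
open Pool.Agent.H160R2.ML (nm)
open Pool.Agent.W801.OU (RZ LZ Dg nrm zp Cor scz bxz SE3 uR S_UR3 S_TRIc)
open Pool.Agent.W424.OD (A3v)

/-! ## annuli of the plane -/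

/-- the norm of the rotated boxes -/
def nd (v : Vtx) : ℤ := |v.1| + |v.2|

/-- edges of the rotated box -/
def Dd (ρ : ℤ) : Set Edg := {e | nd (src e) ≤ ρ ∧ nd (tgt e) ≤ ρ}

/-- the annulus between the rotated box of radius `ρ` and the box of radius `R` -/
def An (ρ R : ℤ) : Set Edg := bxz R \ Dd ρ

/-- open connection in the annulus -/
def Rn (ρ R : ℤ) (F : Set Edg) : Vtx → Vtx → Prop := Reach (F ∩ An ρ R)

/-- three arms in the annulus; the open cluster is that of `u` -/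
def A3u (ρ R : ℤ) (u : Vtx) (F : Set Edg) : Prop :=
  nd u = ρ ∧ (∃ w, nm w = R ∧ Rn ρ R F u w) ∧ ∃ x y, nd x = ρ ∧ nm y = R ∧ ¬ Rn ρ R F u x ∧
    Reach {e | e ∈ An ρ R ∧ ¬ Rn ρ R F u (src e) ∧ ¬ Rn ρ R F u (tgt e)} x y

/-- lexicographic order -/
def lxl (u v : Vtx) : Prop := u.1 < v.1 ∨ (u.1 = v.1 ∧ u.2 ≤ v.2)

/-- the cluster of `u` crosses the collar, and `u` is its first vertex on the inner boundary -/
def CEu (ρ r : ℤ) (u : Vtx) (F : Set Edg) : Prop :=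
  nd u = ρ ∧ (∃ w, nm w = r ∧ Rn ρ r F u w) ∧ ∀ u', nd u' = ρ → Rn ρ r F u u' → lxl u u'

/-- the inner boundary -/
noncomputable def rgF (ρ : ℕ) : Finset Vtx :=
  ((Finset.Icc (-(ρ : ℤ)) ρ) ×ˢ (Finset.Icc (-(ρ : ℤ)) ρ)).filter (fun v => nd v = ρ)

/-- squares of the annulus of the dislocated plane -/
def AnZ (D R : ℤ) : Set Edg :=
  {e | (D ≤ nm (src e) ∧ nm (src e) ≤ R) ∧ (D ≤ nm (tgt e) ∧ nm (tgt e) ≤ R)}

/-- the configuration in the annulus can be completed to a three arm configuration -/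
def V3 (D R : ℤ) (G : Set Edg) : Prop := ∃ H : Set Edg, (∀ e ∈ AnZ D R, (e ∈ H ↔ e ∈ G)) ∧ SE3 R H

/-! ## steps -/

/-- deterministic: the first vertex of the cluster -/
def S_DIA : Prop := ∀ (d k : ℕ) (F : Set Edg), 1 ≤ d → 24 * d ≤ k → A3v (0, 0) d k F →
  ∃ u : Vtx, A3u (6 * d : ℕ) k u F ∧ CEu (6 * d : ℕ) (24 * d : ℕ) u F

/-- deterministic: filling the inside (`u` in the quadrant of the open step) -/
def S_FIL : Prop := ∀ (ρ : ℤ) (u : Vtx), 6 ≤ ρ → nd u = ρ → 0 ≤ u.1 → u.2 ≤ 0 →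
  ∃ σ : Finset Edg, (∀ e ∈ σ, e ∈ Dd ρ) ∧ ∀ (R : ℤ) (F : Set Edg), ρ ≤ R → A3u ρ R u F →
    T3 R ((↑σ : Set Edg) ∪ (F \ Dd ρ))

/-- the expected number of crossing clusters of the collar is bounded -/
def S_NUM : Prop := ∃ C : ℝ, 0 < C ∧ ∀ ρ : ℕ, 6 ≤ ρ →
  ∑ u ∈ rgF ρ, Pr (fun _ => (1 / 2 : ℝ)) (boxE (4 * ρ))
    (fun F => CEu (ρ : ℕ) (4 * ρ : ℕ) u (↑F : Set Edg)) ≤ C

/-- local bound of the winding number -/
def S_GLB : Prop := ∃ C : ℤ, 0 < C ∧ ∀ W : Set (ℤ × ℤ), Evn W → Corr W →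
  ∀ (v : ℤ × ℤ) (φ : ℤ × ℤ → ℤ), Ch W (0, 0) v φ → |φ (0, 0)| ≤ C * (|v.1| + |v.2| + 1)

/-- **the coupling with a frozen collar** -/
def S_CPL : Prop := ∃ K : ℕ, 20 ≤ K ∧ ∀ (ρ r R : ℕ), 1 ≤ ρ → ρ ≤ r → K * r ≤ R →
  ∀ σ : Finset Edg, (∀ e ∈ σ, e ∈ Dd ρ) → ∀ Q : Finset Edg → Prop,
  Pr (fun _ => (1 / 2 : ℝ)) (boxE R) (fun F => Q (F ∩ boxE r) ∧
      T3 R ((↑σ : Set Edg) ∪ ((↑F : Set Edg) \ Dd ρ))) ≤
    Pr (fun _ => (1 / 2 : ℝ)) (boxE r) Q *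
      Pr (fun _ => (1 / 2 : ℝ)) (boxE (R / 20)) (fun G => V3 (K * r : ℕ) (R / 20 : ℕ) (↑G : Set Edg))

/-- **transfer for annuli** -/
def S_TRA : Prop := ∃ (C : ℝ) (K : ℕ), 0 < C ∧ 24 ≤ K ∧ ∀ (c : ℤ × ℤ) (d k : ℕ), 1 ≤ d →
  K * d ≤ k → ∀ S : Finset Edg, blk c k ⊆ S →
  PQ (1/2) S (fun F => A3v c d k ↑F) ≤
    C * Pr (fun _ => (1 / 2 : ℝ)) (boxE (k / 20)) (fun G => V3 (K * d : ℕ) (k / 20 : ℕ) (↑G : Set Edg))

/-! ## the dislocated plane -/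

/-- **lower bound in the dislocated plane** -/
def S_LB : Prop := ∃ c : ℝ, 0 < c ∧ ∀ R : ℕ, 1 ≤ R → c * (R : ℝ) ^ (-(2 / 3 : ℝ)) ≤ uR R

/-- if two sectors are connected in the box, the third one is not connected to them and does not reach
the boundary -/
def S_TRIB : Prop := ∀ (R : ℕ) (G : Set Edg), 1 ≤ R → ∀ t a b : ℕ, t < 3 → a < 3 → b < 3 → t ≠ a →
  t ≠ b → a ≠ b → RZ {0} (bxz R) G (scz 0 0 a) (scz 0 0 b) →
  ¬ RZ {0} (bxz R) G (scz 0 0 t) (scz 0 0 a) ∧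
  ∀ x : ℤ × ℤ, RZ {0} (bxz R) G (scz 0 0 t) x → ∀ e : Edg, e ∉ bxz R → ¬ (Cor {0} 0 e x ∨ Cor {0} 1 e x)

end Pool.Agent.W801.OS
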