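import Pool.Agent.W801.OS.T_D1a
import Pool.Agent.W801.OS.Stm3

/-! # Two connected sectors of the tip -/

set_option autoImplicit false

namespace Pool.Agent.W801.OS
open H974 H906.Cyl
open Pool.Agent.H160R2.ML (nm)
open Pool.Agent.W801.OU (RZ LZ Dg nrm zp Cor scz bxz Zn RC Outw G3 Alt3 S_TRIc)
open Pool.Agent.W801.OU.TISO (Ri edz_sum dco_edz edz_eq LZ_iff per_edz Ri_per)

namespace TRIBP

open D1aP

/-- if the cluster of `t` touches the outside, `t` is outward in the cylinder -/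
theorem outw (R : ℕ) (G : Set Edg) (hR : 1 ≤ R) (t : ℕ) (ht : t < 3) (x : ℤ × ℤ)
    (hx : RZ {0} (bxz R) G (scz 0 0 t) x) (e : Edg) (he : e ∉ bxz R) (c : ℤ)
    (hc : c = 0 ∨ c = 1) (hcor : Cor {0} c e x) :
    ∃ n : ℕ, 2 ≤ n ∧ 4 * (R : ℤ) + 4 ≤ n ∧ Outw n (per n (Fb n n R G c)) t := by
  have hR' : (1 : ℤ) ≤ R := by exact_mod_cast hR
  set n : ℕ := 4 * R + 8 + (e.1 + e.2.1).natAbs + (dco e).natAbs with hn
  have hn1 : 4 * (R : ℤ) + 4 ≤ n := by omega
  set F := Fb n n R G c with hF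
  have hbox := fun x y => box_incl n n R G c hR' hn1 hn1 x y
  rw [← hF] at hbox
  have hb : ¬ Bx R (e.1 + e.2.1) (dco e) := by
    rw [← mem_bx, edz_eq]; exact he
  have hz : ¬ (dco e < 0 ∧ e.1 + e.2.1 + 1 = 0) := hcor.1
  have hout := outside n n R G c hR' hc hn1 hn1 (e.1 + e.2.1) (dco e)
    (by rw [abs_lt]; omega) (by rw [abs_lt]; omega) hb hz
  rw [← hF] at hout
  -- the point x is a corner of e
  have hokk : Okk n (per n F) c (e.1 + e.2.1) (dco e) := by
    refine ⟨?_, ?_⟩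
    · rintro ⟨h7, h8⟩
      exact hz ⟨h7, (mem_Zn_small n _ (by omega) (by omega)).1 h8⟩
    · apply Ri_out n n R G c (by omega) hc _ _ (by omega) (by omega)
      have : (e.1 + e.2.1 + n) / (2 * n : ℤ) = 0 := Int.ediv_eq_zero_of_lt (by omega) (by omega)
      rw [this]
      simpa using hb
  have hxP : RC n (per n F) x (Pl n c (e.1 + e.2.1) (dco e)) := by
    obtain ⟨y, hy⟩ := hcor.2
    have hl := link hokk
    have key : ∀ u v : ℤ × ℤ, Dg {0} c e u v → u = Pl n c (e.1 + e.2.1) (dco e) ∧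
        v = Pr' n c (e.1 + e.2.1) (dco e) := by
      intro u v h'
      replace h' := Dg_congr n c e u v (by omega) (by omega) h'
      unfold Pl Pr'
      rcases h' with h | h
      · rw [if_pos h, if_pos h]
        exact ⟨rfl, rfl⟩
      · rw [if_neg (by omega), if_neg (by omega)]
        exact ⟨rfl, rfl⟩
    rcases hy with hy | hy
    · rw [(key _ _ hy).1]
      exact Relation.EqvGen.refl _
    · rw [(key _ _ hy).2]
      exact Relation.EqvGen.symm _ _ hl
  have h0x : RC n (per n F) (scz 0 0 t) (Pl n c 0 (n - 1)) :=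
    Relation.EqvGen.trans _ _ _ (hbox _ _ hx) (Relation.EqvGen.trans _ _ _ hxP hout)
  -- the shifted one
  have h1x := RC_shift n (by omega) F _ _ h0x
  rw [← Pl_shift] at h1x
  have hrow : RC n (per n F) (Pl n c 0 (n - 1)) (Pl n c (0 + 2 * n) (n - 1)) := by
    refine hor hc 0 (0 + 2 * n) (by omega) ?_
    intro i h1 h2
    refine ⟨by omega, ?_⟩
    apply Ri_out n n R G c (by omega) hc i _ (by omega) (by omega)
    unfold Bx
    omega
  refine ⟨n, by omega, hn1, 1, one_ne_zero, t, ht, ?_⟩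
  have e0 : scz n 0 t = scz 0 0 t := by unfold scz; simp
  have e1 : scz n 1 t = ((scz 0 0 t).1 + 2 * n, (scz 0 0 t).2) := by
    unfold scz
    simp only [Prod.mk.injEq, and_true]
    push_cast
    ring
  rw [e0, e1]
  exact Relation.EqvGen.trans _ _ _ h0x (Relation.EqvGen.trans _ _ _ hrow
    (Relation.EqvGen.symm _ _ h1x))

/-- combinatorics of the three sectors -/
theorem comb {P : ℕ → ℕ → Prop} (hs : ∀ u v, P u v → P v u) (ht : ∀ u v w, P u v → P v w → P u w)
    (t a b : ℕ) (h1 : t < 3) (h2 : a < 3) (h3 : b < 3) (h4 : t ≠ a) (h5 : t ≠ b) (h6 : a ≠ b)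
    (hab : P a b) (t' a' b' : ℕ) (k1 : t' < 3) (k2 : a' < 3) (k3 : b' < 3) (k4 : t' ≠ a')
    (k5 : t' ≠ b') (k6 : a' ≠ b') (hab' : P a' b') (hta' : ¬ P t' a') : t' = t ∧ ¬ P t a := by
  have htb' : ¬ P t' b' := fun h => hta' (ht _ _ _ h (hs _ _ hab'))
  have e1 : t' = t := by
    by_contra hne
    have e2 : t' = a ∨ t' = b := by omega
    rcases e2 with e2 | e2
    · have e3 : b = a' ∨ b = b' := by omega
      subst e2
      rcases e3 with e3 | e3
      · rw [← e3] at hta'; exact hta' hab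
      · rw [← e3] at htb'; exact htb' hab
    · have e3 : a = a' ∨ a = b' := by omega
      subst e2
      rcases e3 with e3 | e3
      · rw [← e3] at hta'; exact hta' (hs _ _ hab)
      · rw [← e3] at htb'; exact htb' (hs _ _ hab)
  refine ⟨e1, fun h => ?_⟩
  subst e1
  have e3 : a = a' ∨ a = b' := by omega
  rcases e3 with e3 | e3
  · rw [← e3] at hta'; exact hta' h
  · rw [← e3] at htb'; exact htb' h

end TRIBP

open D1aP TRIBP in
/-- **two connected sectors** -/
theorem t_TRIB : Pool.Agent.W801.OU.S_TRIc → S_TRIB := by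
  intro hT R G hR t a b ht ha hb hta htb hab hRab
  have hR' : (1 : ℤ) ≤ R := by exact_mod_cast hR
  have e0 : ∀ (n u : ℕ), scz n 0 u = scz 0 0 u := by
    intro n u; unfold scz; simp
  have gen : ∀ (n : ℕ) (c : ℤ), 2 ≤ n → 4 * (R : ℤ) + 4 ≤ n →
      ∃ t' : ℕ, (t' = t ∧ ¬ RC n (per n (Fb n n R G c)) (scz n 0 t) (scz n 0 a)) ∧
        ¬ Outw n (per n (Fb n n R G c)) t' := by
    intro n c hn hn1
    have hbox := fun x y => box_incl n n R G c hR' hn1 hn1 x y
    have hab' : RC n (per n (Fb n n R G c)) (scz n 0 a) (scz n 0 b) := by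
      rw [e0, e0]; exact hbox _ _ hRab
    rcases hT n n hn (Fb n n R G c) (Fb_sub n n R G c) with h | h
    · exact absurd hab' (h.1 a b ha hb hab)
    · obtain ⟨t', a', b', k1, k2, k3, k4, k5, k6, k7, k8, k9, _⟩ := h
      refine ⟨t', ?_, k9⟩
      exact comb (P := fun u v => RC n (per n (Fb n n R G c)) (scz n 0 u) (scz n 0 v))
        (fun u v h => Relation.EqvGen.symm _ _ h) (fun u v w h h' => Relation.EqvGen.trans _ _ _ h h')
        t a b ht ha hb hta htb hab hab' t' a' b' k1 k2 k3 k4 k5 k6 k7 k8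
  constructor
  · intro h
    obtain ⟨t', ⟨_, h2⟩, _⟩ := gen (4 * R + 4) 1 (by omega) (by push_cast; omega)
    apply h2
    rw [e0, e0]
    exact box_incl _ _ R G 1 hR' (by push_cast; omega) (by push_cast; omega) _ _ h
  · intro x hx e he hcor
    obtain ⟨c, hc, hcor⟩ : ∃ c : ℤ, (c = 0 ∨ c = 1) ∧ Cor {0} c e x := by
      rcases hcor with h | h
      · exact ⟨0, Or.inl rfl, h⟩
      · exact ⟨1, Or.inr rfl, h⟩
    obtain ⟨n, hn, hn1, hO⟩ := outw R G hR t ht x hx e he c hc hcor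
    obtain ⟨t', ⟨h1, _⟩, h3⟩ := gen n c hn hn1
    rw [h1] at h3
    exact h3 hO

end Pool.Agent.W801.OS
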