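import Pool.Agent.W801.OS.T_CPL
import Pool.Agent.W801.OS.T_TRA
import Pool.Agent.W801.OS.T_DIA
import Pool.Agent.W801.OS.T_FIL
import Pool.Agent.W801.OS.T_NUM
import Pool.Agent.W801.OS.T_GLB
import Pool.Agent.W801.OS.T_LB
import Pool.Agent.W801.OS.T_TRIB
import Pool.Agent.W424.KI.TRFb

/-!
# Assembly: from annuli of the plane to annuli of the dislocated plane
-/

set_option autoImplicit false

namespace Pool.Agent.W801.OS

theorem a_TRA : S_TRA := t_TRA t_DIA t_FIL t_NUM (t_CPL t_GLB)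

theorem a_TRF : Pool.Agent.W424.KI.S_TRF := Pool.Agent.W424.KI.t_TRF a_TRA

end Pool.Agent.W801.OS
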