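import Pool.Agent.W801.OU.Stm

/-!
# From the plane to the dislocated plane: definitions

Everything is written in the coordinates `(j, t) = (x + y, x - y)` of `Pool.Agent.W801.OU.Defs`; the
vertices of the lattice are the points with `j + t` even.

`W` = open cluster of the origin, the corridor = a lattice path from a lower neighbour of the origin
to the outside of the box which avoids `W`.  The gauge `m v` = number of (signed) crossings of the
half-line below and to the right of the origin by a walk of `W` from the origin to `v`.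
-/

set_option autoImplicit false

namespace Pool.Agent.W801.OS
open H974 H906.Cyl
open Pool.Agent.H160R2.ML (nm)
open Pool.Agent.W801.OU (RZ LZ Dg nrm zp Cor scz bxz SE3 uR)

/-! ## walks -/

/-- diagonal steps -/
def Adj (u v : ℤ × ℤ) : Prop :=
  (v.1 = u.1 + 1 ∨ v.1 = u.1 - 1) ∧ (v.2 = u.2 + 1 ∨ v.2 = u.2 - 1)

/-- allowed steps: not between the origin and the row `-1` -/
def Ok2 (u v : ℤ × ℤ) : Prop :=
  Adj u v ∧ ¬ (u = (0, 0) ∧ v.2 = -1) ∧ ¬ (v = (0, 0) ∧ u.2 = -1)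

/-- signed crossing of the half-line below and to the right of `p` by a step from `u` to `v` (any two
points in the same row or in adjacent rows) -/
def cr (p u v : ℤ × ℤ) : ℤ :=
  if u.2 = p.2 ∧ v.2 = p.2 - 1 ∧ p.1 < u.1 then 1
  else if v.2 = p.2 ∧ u.2 = p.2 - 1 ∧ p.1 < v.1 then -1 else 0

/-- walks of `W` together with their crossing numbers -/
inductive Ch (W : Set (ℤ × ℤ)) : ℤ × ℤ → ℤ × ℤ → (ℤ × ℤ → ℤ) → Prop
  | nil (u : ℤ × ℤ) : u ∈ W → Ch W u u (fun _ => 0)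
  | cons (u v w : ℤ × ℤ) (φ : ℤ × ℤ → ℤ) : Ch W u v φ → w ∈ W → Ok2 v w →
      Ch W u w (fun p => φ p + cr p v w)

/-- walks outside `W` -/
inductive Pa (W : Set (ℤ × ℤ)) : ℤ × ℤ → ℤ × ℤ → Prop
  | nil (u : ℤ × ℤ) : u ∉ W → Pa W u u
  | cons (u v w : ℤ × ℤ) : Pa W u v → w ∉ W → Adj v w → Pa W u w

/-- a corridor from a lower neighbour of the origin to the right of `W` -/
def Corr (W : Set (ℤ × ℤ)) : Prop :=
  ∃ p q : ℤ × ℤ, (p = (1, -1) ∨ p = (-1, -1)) ∧ Pa W p q ∧ ∀ u ∈ W, u.1 ≤ q.1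

/-- vertices of the lattice only -/
def Evn (W : Set (ℤ × ℤ)) : Prop := ∀ u ∈ W, (u.1 + u.2) % 2 = 0

/-- `W` is connected by allowed steps -/
def Con (W : Set (ℤ × ℤ)) : Prop := (0, 0) ∈ W ∧ ∀ v ∈ W, ∃ φ, Ch W (0, 0) v φ

/-! ## gauges -/

/-- a gauge of `W` -/
structure Gau (W : Set (ℤ × ℤ)) (m : ℤ × ℤ → ℤ) : Prop where
  zero : m (0, 0) = 0
  step : ∀ u v, u ∈ W → v ∈ W → Ok2 u v → m v = m u + cr (0, 0) u v
  kl : ∀ a b, a ∈ W → b ∈ W → (b.2 = a.2 ∨ b.2 = a.2 + 1) → ¬ (b = (0, 0) ∧ a.2 = -1) →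
    (a.1 = b.1 ∧ m b - m a + cr (0, 0) b a = 0) ∨ 2 * |m b - m a + cr (0, 0) b a| + 1 ≤ |b.1 - a.1|

/-- the lower gauge -/
def kap (m : ℤ × ℤ → ℤ) (v : ℤ × ℤ) : ℤ := m v + if v.2 = 0 ∧ 0 < v.1 then 1 else 0

/-- columns of points on the side of the zipper -/
def unK (k : ℤ) : ℤ := if k ≤ -1 then k else k + 1

/-- columns of squares on the side of the zipper -/
def unS (k : ℤ) : ℤ := if k ≤ -2 then k else k + 1

/-- the image of the vertex `v` in the dislocated plane -/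
def Phi (m : ℤ × ℤ → ℤ) (v : ℤ × ℤ) : ℤ × ℤ :=
  if 0 ≤ v.2 then (v.1 - m v, v.2) else (unK (v.1 - m v), v.2)

/-- the image of the square `(s, d)`, seen from its corner `v` -/
def dsq (m : ℤ × ℤ → ℤ) (v : ℤ × ℤ) (s d : ℤ) : ℤ × ℤ :=
  if 0 ≤ d then (s - m v, d) else (unS (s - kap m v), d)

/-- `v` is a corner of the square `(s, d)` -/
def Cnr (v : ℤ × ℤ) (s d : ℤ) : Prop := (v.1 = s ∨ v.1 = s + 1) ∧ (v.2 = d ∨ v.2 = d + 1)

/-! ## events -/

/-- the cluster of the origin in the box, in the coordinates `(j, t)` -/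
def Wc (R : ℤ) (F : Set Edg) : Set (ℤ × ℤ) :=
  {p | ∃ v : Vtx, Reach (F ∩ bxz R) (0, 0) v ∧ p = (v.1 + v.2, v.1 - v.2)}

/-- three arms at the origin: the edges to `(0, 1)` and `(-1, 0)` are closed, the open cluster of the
origin reaches the boundary of the box, and so does a lattice path from `(0, 1)` or `(-1, 0)` which
avoids it -/
def T3 (R : ℤ) (F : Set Edg) : Prop :=
  ((((0 : ℤ), (0 : ℤ), false) : Edg) ∉ F ∧ (((-1 : ℤ), (0 : ℤ), true) : Edg) ∉ F) ∧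
  (∃ v : Vtx, nm v = R ∧ Reach (F ∩ bxz R) (0, 0) v) ∧
  ∃ p q : Vtx, (p = (0, 1) ∨ p = (-1, 0)) ∧ nm q = R ∧ ¬ Reach (F ∩ bxz R) (0, 0) p ∧
    Reach {e | e ∈ bxz R ∧ ¬ Reach (F ∩ bxz R) (0, 0) (src e) ∧
      ¬ Reach (F ∩ bxz R) (0, 0) (tgt e)} p q

/-- dislocated plane: the cluster of the sector `(0, 0)` reaches the boundary of the box and avoids the
two other sectors -/
def O1 (R : ℤ) (G : Set Edg) : Prop :=
  (∃ x : ℤ × ℤ, RZ {0} (bxz R) G (0, 0) x ∧ ∃ e ∉ bxz R, Cor {0} 0 e x ∨ Cor {0} 1 e x) ∧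
  ¬ RZ {0} (bxz R) G (0, 0) (-1, 0) ∧ ¬ RZ {0} (bxz R) G (0, 0) (1, 0)

end Pool.Agent.W801.OS
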