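import Pool.Agent.W801.OS.Stm
import Pool.Agent.W424.OD.Defs

/-!
# From the plane to the dislocated plane: the tip
-/

set_option autoImplicit false

namespace Pool.Agent.W801.OS
open H974 H906.Cyl H12S Finset
open Pool.Agent.H160R2.ML (nm)
open Pool.Agent.W801.OU (RZ LZ Dg nrm zp Cor scz bxz SE3 uR S_UR3 S_TRIc)
open Pool.Agent.W424.OD (A3v)

/-! ## the tip -/

/-- from annuli of inner radius `1` to the origin -/
def S_TIP : Prop := ∃ C : ℝ, 0 < C ∧ ∀ (c : ℤ × ℤ) (k : ℕ), 2 ≤ k → ∀ S : Finset Edg, blk c k ⊆ S →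
  PQ (1/2) S (fun F => A3v c 1 k ↑F) ≤
    C * Pr (fun _ => (1 / 2 : ℝ)) (boxE (k - 1)) (fun F => T3 (k - 1 : ℕ) (↑F : Set Edg))

/-- **upper bound for the three arm event of the plane** -/
def S_HON : Prop := ∃ C : ℝ, 0 < C ∧ ∀ (c : ℤ × ℤ) (k : ℕ), 1 ≤ k → ∀ S : Finset Edg, blk c k ⊆ S →
  PQ (1/2) S (fun F => A3v c 1 k ↑F) ≤ C * (k : ℝ) ^ (-(2 / 3 : ℝ))

end Pool.Agent.W801.OS
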